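import Mathlib
import Pool.Agent.Helper481.CycB

set_option autoImplicit false

open Finset Polynomial

namespace Cyc481

variable {n : ℕ} {t : Fin n → ℝ}

/-- `i` and `j` are linked: all circuits in which they are adjacent satisfy the weight inequality -/
def Linked (d : ℕ) (t : Fin n → ℝ) (i j : Fin n) : Prop :=
  ∀ N : Finset (Fin n), N.card = d + 2 → i ∈ N → j ∈ N → (∀ k ∈ N, ¬ (i < k ∧ k < j)) →
    wt t N i + wt t N j ≤ (1 / 2) * ∑ k ∈ N, wt t N k

/-- evaluation of a coefficient vector -/
noncomputable def ev {d : ℕ} (a : Fin (d + 1) → ℝ) (x : ℝ) : ℝ := ∑ k, a k * x ^ (k : ℕ)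

theorem ev_of_poly {d : ℕ} (p : ℝ[X]) (hp : p.natDegree ≤ d) (x : ℝ) :
    ev (fun k : Fin (d + 1) => p.coeff k) x = p.eval x := by
  unfold ev
  rw [Polynomial.eval_eq_sum_range' (Nat.lt_succ_of_le hp), Finset.sum_range]

theorem ev_add_smul {d : ℕ} (a b : Fin (d + 1) → ℝ) (r s x : ℝ) :
    ev (r • a + s • b) x = r * ev a x + s * ev b x := by
  unfold ev
  rw [Finset.mul_sum, Finset.mul_sum, ← Finset.sum_add_distrib]
  refine Finset.sum_congr rfl fun k _ => ?_
  simp only [Pi.add_apply, Pi.smul_apply, smul_eq_mul]; ring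

/-- linked nodes are separated by a polynomial with values in `[0,1]` -/
theorem exists_sep (ht : StrictMono t) {d : ℕ} (hn : d + 1 ≤ n) {i j : Fin n} (hij : i < j)
    (hlink : Linked d t i j) :
    ∃ a : Fin (d + 1) → ℝ, ev a (t i) = 0 ∧ ev a (t j) = 1 ∧
      ∀ k, 0 ≤ ev a (t k) ∧ ev a (t k) ≤ 1 := by
  classical
  rcases Nat.lt_or_ge n (d + 2) with hlt | hge
  · -- simplex
    have hinj : Set.InjOn t ((Finset.univ : Finset (Fin n)) : Set (Fin n)) := ht.injective.injOn
    set f : Fin n → ℝ := fun k => if k = j then 1 else 0 with hf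
    set p := Lagrange.interpolate Finset.univ t f with hp
    have hdeg : p.degree < ((Finset.univ : Finset (Fin n)).card : WithBot ℕ) :=
      Lagrange.degree_interpolate_lt f hinj
    have hnat : p.natDegree ≤ d := by
      rw [Polynomial.natDegree_le_iff_coeff_eq_zero]
      intro m hm
      apply Polynomial.coeff_eq_zero_of_degree_lt
      refine lt_of_lt_of_le hdeg ?_
      rw [Finset.card_univ, Fintype.card_fin]
      exact_mod_cast (by omega : n ≤ m)
    have hev : ∀ k, p.eval (t k) = f k := fun k =>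
      Lagrange.eval_interpolate_at_node f hinj (Finset.mem_univ k)
    refine ⟨fun k => p.coeff k, ?_, ?_, ?_⟩
    · rw [ev_of_poly p hnat, hev]; simp [hf, hij.ne]
    · rw [ev_of_poly p hnat, hev]; simp [hf]
    · intro k
      rw [ev_of_poly p hnat, hev]
      simp only [hf]
      split_ifs <;> norm_num
  · -- Helly
    set F : Fin n → Set (Fin (d + 1) → ℝ) := fun k => {a | 0 ≤ ev a (t k) ∧ ev a (t k) ≤ 1 ∧
      (k = i → ev a (t k) = 0) ∧ (k = j → ev a (t k) = 1)} with hF
    have hconv : ∀ k ∈ (Finset.univ : Finset (Fin n)), Convex ℝ (F k) := by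
      intro k _ a ha b hb r s hr hs hrs
      simp only [hF, Set.mem_ofPred_eq] at ha hb ⊢
      rw [ev_add_smul]
      obtain ⟨ha0, ha1, hai, haj⟩ := ha
      obtain ⟨hb0, hb1, hbi, hbj⟩ := hb
      refine ⟨by positivity, by nlinarith, ?_, ?_⟩
      · intro h; rw [hai h, hbi h]; ring
      · intro h; rw [haj h, hbj h]; linarith
    have hconst : ∀ (c : ℝ), ∀ x, ev (fun k : Fin (d + 1) => (C c : ℝ[X]).coeff k) x = c := by
      intro c x
      rw [ev_of_poly (C c) (by simp), Polynomial.eval_C]
    have hint : ∀ I ⊆ (Finset.univ : Finset (Fin n)),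
        I.card ≤ Module.finrank ℝ (Fin (d + 1) → ℝ) + 1 → (⋂ k ∈ I, F k).Nonempty := by
      intro I _ hI
      rw [Module.finrank_fin_fun] at hI
      by_cases hiI : i ∈ I
      · by_cases hjI : j ∈ I
        · obtain ⟨N, hIN, _, hN⟩ := Finset.exists_subsuperset_card_eq (Finset.subset_univ I) hI
            (by rw [Finset.card_univ, Fintype.card_fin]; omega)
          have hw : 2 * (wt t N i + wt t N j) ≤ ∑ k ∈ N, wt t N k := by
            by_cases hadj : ∀ k ∈ N, ¬ (i < k ∧ k < j)
            · have := hlink N hN (hIN hiI) (hIN hjI) hadj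
              linarith
            · push Not at hadj
              obtain ⟨m, hm, him, hmj⟩ := hadj
              exact wt_pair_le ht N.card N rfl i (hIN hiI) m hm j (hIN hjI) him hmj
          obtain ⟨p, hp, hpi, hpj, hpk⟩ := exists_poly_circuit ht hN (hIN hiI) (hIN hjI) hij.ne hw
          refine ⟨fun k => p.coeff k, ?_⟩
          simp only [Set.mem_iInter, hF, Set.mem_ofPred_eq]
          intro k hk
          rw [ev_of_poly p hp]
          refine ⟨(hpk k (hIN hk)).1, (hpk k (hIN hk)).2, ?_, ?_⟩
          · rintro rfl; exact hpi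
          · rintro rfl; exact hpj
        · refine ⟨fun k => (C (0:ℝ) : ℝ[X]).coeff k, ?_⟩
          simp only [Set.mem_iInter, hF, Set.mem_ofPred_eq, hconst]
          intro k hk
          exact ⟨le_rfl, zero_le_one, fun _ => trivial, fun h => absurd (h ▸ hk) hjI⟩
      · refine ⟨fun k => (C (1:ℝ) : ℝ[X]).coeff k, ?_⟩
        simp only [Set.mem_iInter, hF, Set.mem_ofPred_eq, hconst]
        intro k hk
        exact ⟨zero_le_one, le_rfl, fun h => absurd (h ▸ hk) hiI, fun _ => trivial⟩
    obtain ⟨a, ha⟩ := Convex.helly_theorem' hconv hint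
    simp only [Set.mem_iInter, hF, Set.mem_ofPred_eq] at ha
    exact ⟨a, (ha i (Finset.mem_univ i)).2.2.1 rfl, (ha j (Finset.mem_univ j)).2.2.2 rfl,
      fun k => ⟨(ha k (Finset.mem_univ k)).1, (ha k (Finset.mem_univ k)).2.1⟩⟩

/-- the key inequality: `P ≥ 0` at the nodes, with a zero at the node `y ∈ [i,j]` -/
theorem key_ineq (ht : StrictMono t) {d : ℕ} {N : Finset (Fin n)} (hN : N.card = d + 2)
    {i j : Fin n} (hi : i ∈ N) (hj : j ∈ N) (hij : i < j) (hadj : ∀ k ∈ N, ¬ (i < k ∧ k < j))
    (hsg : sg N i ≠ sg N j)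
    {y : Fin n} (hiy : i ≤ y) (hyj : y ≤ j) (P : ℝ[X]) (hP : P.natDegree ≤ d)
    (hP0 : ∀ k, 0 ≤ P.eval (t k)) (hPy : P.eval (t y) = 0) :
    wt t N i * P.eval (t i) ≤
      ∑ k ∈ (N.filter (fun k => sg N k = sg N j)).erase j, wt t N k * P.eval (t k) := by
  classical
  set A := N.filter (fun k => sg N k = sg N j) with hA
  set B := N.filter (fun k => ¬ sg N k = sg N j) with hB
  have hjA : j ∈ A := by simp [hA, hj]
  have hiB : i ∈ B := by simp [hB, hi, hsg]
  rcases hiy.eq_or_lt with rfl | hlt
  · rw [hPy, mul_zero]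
    exact Finset.sum_nonneg fun k _ => mul_nonneg (wt_pos ht N k).le (hP0 k)
  obtain ⟨q, hq⟩ := Polynomial.dvd_iff_isRoot.mpr hPy
  set R : ℝ[X] := (X - C (t j)) * q with hR
  have hRdeg : R.natDegree ≤ d := by
    by_cases hq0 : q = 0
    · rw [hR, hq0, mul_zero]; simp
    · rw [hR, Polynomial.natDegree_mul (Polynomial.X_sub_C_ne_zero _) hq0,
        Polynomial.natDegree_X_sub_C]
      rw [hq, Polynomial.natDegree_mul (Polynomial.X_sub_C_ne_zero _) hq0,
        Polynomial.natDegree_X_sub_C] at hP
      exact hP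
  have hPe : ∀ k, P.eval (t k) = (t k - t y) * q.eval (t k) := by
    intro k; rw [hq]; simp
  have hRe : ∀ k, R.eval (t k) = (t k - t j) * q.eval (t k) := by
    intro k; rw [hR]; simp
  have hdep := dependency ht hN R hRdeg
  have htij : t i < t j := ht hij
  have htiy : t i < t y := ht hlt
  have htyj : t y ≤ t j := ht.monotone hyj
  -- split the dependency
  have h1 := Finset.sum_filter_add_sum_filter_not N (fun k => sg N k = sg N j)
    (fun k => sg N k * wt t N k * R.eval (t k))
  rw [hdep, ← hA, ← hB] at h1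
  have h2 : ∑ k ∈ A, sg N k * wt t N k * R.eval (t k) =
      sg N j * ∑ k ∈ A, wt t N k * R.eval (t k) := by
    rw [Finset.mul_sum]
    refine Finset.sum_congr rfl fun k hk => ?_
    rw [(Finset.mem_filter.mp hk).2]; ring
  have h3 : ∑ k ∈ B, sg N k * wt t N k * R.eval (t k) =
      - (sg N j * ∑ k ∈ B, wt t N k * R.eval (t k)) := by
    rw [Finset.mul_sum, ← Finset.sum_neg_distrib]
    refine Finset.sum_congr rfl fun k hk => ?_
    rw [sg_ne (Finset.mem_filter.mp hk).2]; ring
  have h4 : ∑ k ∈ A, wt t N k * R.eval (t k) = ∑ k ∈ B, wt t N k * R.eval (t k) := by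
    rw [h2, h3] at h1
    rcases sg_eq_or N j with h | h <;> rw [h] at h1 <;> linarith
  have h5 : ∑ k ∈ A, wt t N k * R.eval (t k) = ∑ k ∈ A.erase j, wt t N k * R.eval (t k) := by
    rw [← Finset.add_sum_erase A _ hjA, hRe j]; ring
  have h6 : wt t N i * R.eval (t i) + ∑ k ∈ B.erase i, wt t N k * R.eval (t k) =
      ∑ k ∈ B, wt t N k * R.eval (t k) := Finset.add_sum_erase B (fun k => wt t N k * R.eval (t k)) hiB
  -- positivity of R outside (i,j)
  have hout : ∀ k ∈ N, k ≠ i → k ≠ j → (k < i ∨ j < k) := by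
    intro k hk hki hkj
    rcases lt_trichotomy k i with h | h | h
    · exact Or.inl h
    · exact absurd h hki
    · rcases lt_trichotomy k j with h' | h' | h'
      · exact absurd ⟨h, h'⟩ (hadj k hk)
      · exact absurd h' hkj
      · exact Or.inr h'
  have hRnn : ∀ k ∈ N, k ≠ i → k ≠ j → 0 ≤ R.eval (t k) := by
    intro k hk hki hkj
    have h0 := hP0 k
    rw [hPe] at h0
    rw [hRe]
    rcases hout k hk hki hkj with h | h
    · have h7 : t k < t i := ht h
      have h8 : q.eval (t k) ≤ 0 := by
        by_contra hcon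
        push Not at hcon
        have := mul_neg_of_neg_of_pos (show t k - t y < 0 by linarith) hcon
        linarith
      exact mul_nonneg_of_nonpos_of_nonpos (by linarith) h8
    · have h7 : t j < t k := ht h
      have h8 : 0 ≤ q.eval (t k) := by
        by_contra hcon
        push Not at hcon
        have := mul_neg_of_pos_of_neg (show 0 < t k - t y by linarith) hcon
        linarith
      exact mul_nonneg (by linarith) h8
  set κ := (t y - t i) / (t j - t i) with hκ
  have hκpos : 0 < κ := div_pos (by linarith) (by linarith)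
  have hκi : κ * R.eval (t i) = P.eval (t i) := by
    rw [hRe, hPe, hκ]
    have : t j - t i ≠ 0 := by linarith
    field_simp
    ring
  have hcmp : ∀ k ∈ A.erase j, κ * (wt t N k * R.eval (t k)) ≤ wt t N k * P.eval (t k) := by
    intro k hk
    have hkA := Finset.mem_of_mem_erase hk
    have hkN : k ∈ N := (Finset.mem_filter.mp hkA).1
    have hkj : k ≠ j := (Finset.mem_erase.mp hk).1
    have hki : k ≠ i := by
      rintro rfl
      exact hsg (Finset.mem_filter.mp hkA).2
    have hwk := wt_pos ht N k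
    suffices h : κ * R.eval (t k) ≤ P.eval (t k) by
      have := mul_le_mul_of_nonneg_left h hwk.le
      linarith
    have h0 := hP0 k
    rw [hPe] at h0
    rw [hRe, hPe]
    have hji : 0 < t j - t i := by linarith
    rcases hout k hkN hki hkj with h | h
    · have h7 : t k < t i := ht h
      have h8 : q.eval (t k) ≤ 0 := by
        by_contra hcon
        push Not at hcon
        have := mul_neg_of_neg_of_pos (show t k - t y < 0 by linarith) hcon
        linarith
      have h9 : t k - t y ≤ κ * (t k - t j) := by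
        rw [hκ, div_mul_eq_mul_div, le_div_iff₀ hji]
        nlinarith
      nlinarith
    · have h7 : t j < t k := ht h
      have h8 : 0 ≤ q.eval (t k) := by
        by_contra hcon
        push Not at hcon
        have := mul_neg_of_pos_of_neg (show 0 < t k - t y by linarith) hcon
        linarith
      have h9 : κ * (t k - t j) ≤ t k - t y := by
        rw [hκ, div_mul_eq_mul_div, div_le_iff₀ hji]
        nlinarith
      nlinarith
  have hBnn : 0 ≤ ∑ k ∈ B.erase i, wt t N k * R.eval (t k) := by
    refine Finset.sum_nonneg fun k hk => ?_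
    have hkB := Finset.mem_of_mem_erase hk
    have hkN : k ∈ N := (Finset.mem_filter.mp hkB).1
    have hkj : k ≠ j := by
      rintro rfl
      exact (Finset.mem_filter.mp hkB).2 rfl
    exact mul_nonneg (wt_pos ht N k).le (hRnn k hkN (Finset.mem_erase.mp hk).1 hkj)
  calc wt t N i * P.eval (t i) = κ * (wt t N i * R.eval (t i)) := by rw [← hκi]; ring
    _ ≤ κ * ∑ k ∈ B, wt t N k * R.eval (t k) := by
        apply mul_le_mul_of_nonneg_left _ hκpos.le
        linarith
    _ = ∑ k ∈ A.erase j, κ * (wt t N k * R.eval (t k)) := by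
        rw [← h4, h5, Finset.mul_sum]
    _ ≤ _ := Finset.sum_le_sum hcmp

end Cyc481
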