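import Mathlib
import Pool.Agent.Helper481.CycC

set_option autoImplicit false

open Finset Polynomial
open scoped RealInnerProductSpace

namespace Cyc481

/-- the moment curve in `E^d` -/
noncomputable def moment (d : ℕ) (x : ℝ) : EuclideanSpace ℝ (Fin d) :=
  WithLp.toLp 2 (fun k : Fin d => x ^ ((k : ℕ) + 1))

/-- the cyclic polytope with parameters `t` -/
noncomputable def cyc (d : ℕ) {n : ℕ} (t : Fin n → ℝ) : Set (EuclideanSpace ℝ (Fin d)) :=
  convexHull ℝ (Set.range fun i => moment d (t i))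

theorem inner_moment {d : ℕ} (f : EuclideanSpace ℝ (Fin d)) (x : ℝ) :
    ⟪f, moment d x⟫ = ∑ k : Fin d, f k * x ^ ((k : ℕ) + 1) := by
  unfold moment
  rw [PiLp.inner_apply]
  refine Finset.sum_congr rfl fun k _ => ?_
  simp [mul_comm]

/-- the polynomial of an affine functional -/
noncomputable def pol {d : ℕ} (c : ℝ) (f : EuclideanSpace ℝ (Fin d)) : ℝ[X] :=
  C c + ∑ k : Fin d, C (f k) * X ^ ((k : ℕ) + 1)

theorem pol_eval {d : ℕ} (c : ℝ) (f : EuclideanSpace ℝ (Fin d)) (x : ℝ) :
    (pol c f).eval x = c + ⟪f, moment d x⟫ := by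
  rw [inner_moment]
  unfold pol
  simp [Polynomial.eval_finsetSum]

theorem pol_natDegree {d : ℕ} (c : ℝ) (f : EuclideanSpace ℝ (Fin d)) : (pol c f).natDegree ≤ d := by
  unfold pol
  refine (Polynomial.natDegree_add_le _ _).trans (max_le (by simp) ?_)
  refine Polynomial.natDegree_sum_le_of_forall_le _ _ fun k _ => ?_
  refine (Polynomial.natDegree_C_mul_X_pow_le _ _).trans ?_
  have := k.2
  omega

theorem pol_eq_zero {d : ℕ} {c : ℝ} {f : EuclideanSpace ℝ (Fin d)} (h : pol c f = 0) :
    c = 0 ∧ f = 0 := by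
  constructor
  · have h0 : (pol c f).eval 0 = 0 := by rw [h]; simp
    rw [pol_eval, inner_moment] at h0
    simpa using h0
  · ext k
    have h1 : (pol c f).coeff ((k : ℕ) + 1) = 0 := by rw [h]; simp
    unfold pol at h1
    rw [Polynomial.coeff_add, Polynomial.coeff_C_succ, zero_add, Polynomial.finsetSum_coeff] at h1
    rw [Finset.sum_eq_single k] at h1
    · simpa using h1
    · intro b _ hb
      rw [Polynomial.coeff_C_mul_X_pow, if_neg]
      intro h2
      apply hb
      ext
      omega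
    · intro h2; exact absurd (Finset.mem_univ k) h2

variable {n : ℕ} {t : Fin n → ℝ}

/-- an affine functional vanishing at all the nodes is zero -/
theorem aff_eq_zero (ht : StrictMono t) {d : ℕ} (hn : d + 1 ≤ n) {c : ℝ}
    {f : EuclideanSpace ℝ (Fin d)} (h : ∀ k, c + ⟪f, moment d (t k)⟫ = 0) : c = 0 ∧ f = 0 := by
  apply pol_eq_zero
  by_contra hne
  have h1 : (Finset.univ.image t).card ≤ (pol c f).natDegree := by
    have h2 : (Finset.univ.image t) ⊆ (pol c f).roots.toFinset := by
      intro x hx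
      obtain ⟨k, _, rfl⟩ := Finset.mem_image.mp hx
      rw [Multiset.mem_toFinset, Polynomial.mem_roots hne, Polynomial.IsRoot, pol_eval]
      exact h k
    exact (Finset.card_le_card h2).trans ((Multiset.toFinset_card_le _).trans
      (Polynomial.card_roots' _))
  rw [Finset.card_image_of_injective _ ht.injective, Finset.card_univ, Fintype.card_fin] at h1
  have := pol_natDegree c f
  omega

theorem interior_nonempty (ht : StrictMono t) {d : ℕ} (hn : d + 1 ≤ n) :
    (interior (cyc d t)).Nonempty := by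
  unfold cyc
  rw [interior_convexHull_nonempty_iff_affineSpan_eq_top]
  have hpos : 0 < n := by omega
  have hne : (Set.range fun i => moment d (t i)).Nonempty := ⟨_, ⟨⟨0, hpos⟩, rfl⟩⟩
  rw [AffineSubspace.affineSpan_eq_top_iff_vectorSpan_eq_top_of_nonempty ℝ _ _ hne]
  by_contra hcon
  obtain ⟨F, hF0, hF⟩ := Submodule.exists_le_ker_of_lt_top _ (lt_top_iff_ne_top.mpr hcon)
  -- Riesz vector
  set F' : EuclideanSpace ℝ (Fin d) →L[ℝ] ℝ := LinearMap.toContinuousLinearMap F with hF'
  set f := (InnerProductSpace.toDual ℝ (EuclideanSpace ℝ (Fin d))).symm F' with hf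
  have hfx : ∀ x, ⟪f, x⟫ = F x := by
    intro x
    rw [hf, InnerProductSpace.toDual_symm_apply]
    rfl
  have h1 : ∀ k, F (moment d (t k)) = F (moment d (t ⟨0, hpos⟩)) := by
    intro k
    have h2 : moment d (t k) - moment d (t ⟨0, hpos⟩) ∈
        vectorSpan ℝ (Set.range fun i => moment d (t i)) :=
      vsub_mem_vectorSpan ℝ (Set.mem_range_self k) (Set.mem_range_self (⟨0, hpos⟩ : Fin n))
    have h3 := hF h2
    rw [LinearMap.mem_ker, map_sub] at h3
    linarith
  have h2 := aff_eq_zero ht hn (c := - F (moment d (t ⟨0, hpos⟩))) (f := f) (by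
    intro k; rw [hfx, h1 k]; ring)
  apply hF0
  ext1 x
  rw [← hfx, h2.2]; simp

section general

variable {d : ℕ} {g : Fin n → EuclideanSpace ℝ (Fin d)}

theorem aff_nonneg_hull {c : ℝ} {f : EuclideanSpace ℝ (Fin d)} (h : ∀ k, 0 ≤ c + ⟪f, g k⟫) :
    ∀ x ∈ convexHull ℝ (Set.range g), 0 ≤ c + ⟪f, x⟫ := by
  have hconv : Convex ℝ {x : EuclideanSpace ℝ (Fin d) | 0 ≤ c + ⟪f, x⟫} := by
    intro x hx y hy a b ha hb hab
    simp only [Set.mem_ofPred_eq] at hx hy ⊢
    rw [inner_add_right, real_inner_smul_right, real_inner_smul_right]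
    have : c + (a * ⟪f, x⟫ + b * ⟪f, y⟫) = a * (c + ⟪f, x⟫) + b * (c + ⟪f, y⟫) := by
      have : c = (a + b) * c := by rw [hab, one_mul]
      nlinarith
    rw [this]; positivity
  have := convexHull_min (s := Set.range g) (t := {x | 0 ≤ c + ⟪f, x⟫})
    (by rintro _ ⟨k, rfl⟩; exact h k) hconv
  exact fun x hx => this hx

theorem aff_pos_interior {K : Set (EuclideanSpace ℝ (Fin d))} {c : ℝ}
    {f : EuclideanSpace ℝ (Fin d)} (hf : f ≠ 0) (h : ∀ x ∈ K, 0 ≤ c + ⟪f, x⟫)
    {x : EuclideanSpace ℝ (Fin d)} (hx : x ∈ interior K) : 0 < c + ⟪f, x⟫ := by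
  by_contra hcon
  push Not at hcon
  obtain ⟨ε, hε, hball⟩ := Metric.isOpen_iff.mp isOpen_interior x hx
  have hfn : 0 < ‖f‖ := norm_pos_iff.mpr hf
  set s := ε / (2 * ‖f‖) with hs
  have hspos : 0 < s := by positivity
  have h1 : x - s • f ∈ Metric.ball x ε := by
    rw [mem_ball_iff_norm, sub_sub_cancel_left, norm_neg, norm_smul, Real.norm_eq_abs,
      abs_of_pos hspos, hs]
    have : ε / (2 * ‖f‖) * ‖f‖ = ε / 2 := by field_simp
    rw [this]; linarith
  have h2 := h _ (interior_subset (hball h1))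
  rw [inner_sub_right, real_inner_smul_right, real_inner_self_eq_norm_sq] at h2
  have h3 : 0 < s * ‖f‖ ^ 2 := by positivity
  linarith

/-- illumination criterion for a vertex -/
theorem illum_of_pos (hint : (interior (convexHull ℝ (Set.range g))).Nonempty) (y : Fin n)
    (v : EuclideanSpace ℝ (Fin d))
    (hv : ∀ (c : ℝ) (f : EuclideanSpace ℝ (Fin d)), (∀ k, 0 ≤ c + ⟪f, g k⟫) → c + ⟪f, g y⟫ = 0 →
      (∃ k, c + ⟪f, g k⟫ ≠ 0) → 0 < ⟪f, v⟫) :
    ∃ s : ℝ, 0 < s ∧ g y + s • v ∈ interior (convexHull ℝ (Set.range g)) := by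
  set K := convexHull ℝ (Set.range g) with hK
  have hKc : Convex ℝ K := convex_convexHull ℝ _
  by_contra hcon
  push Not at hcon
  set R : Set (EuclideanSpace ℝ (Fin d)) := (fun s : ℝ => g y + s • v) '' Set.Ioi 0 with hR
  have hRc : Convex ℝ R := by
    rintro _ ⟨s1, hs1, rfl⟩ _ ⟨s2, hs2, rfl⟩ a b ha hb hab
    have hs1' : (0:ℝ) < s1 := hs1
    have hs2' : (0:ℝ) < s2 := hs2
    refine ⟨a * s1 + b * s2, ?_, ?_⟩
    · show (0:ℝ) < a * s1 + b * s2
      rcases ha.lt_or_eq with h | h
      · have := mul_pos h hs1'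
        have := mul_nonneg hb hs2'.le
        linarith
      · have hb1 : b = 1 := by linarith
        rw [← h, hb1]; linarith
    · simp only
      have : g y = (a + b) • g y := by rw [hab, one_smul]
      rw [show a • (g y + s1 • v) + b • (g y + s2 • v) = (a + b) • g y + (a * s1 + b * s2) • v by
        module, ← this]
  have hdisj : Disjoint (interior K) R := by
    rw [Set.disjoint_left]
    rintro _ hx ⟨s, hs, rfl⟩
    exact hcon s hs hx
  obtain ⟨F, u, h1, h2⟩ := geometric_hahn_banach_open hKc.interior isOpen_interior hRc hdisj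
  set f := (InnerProductSpace.toDual ℝ (EuclideanSpace ℝ (Fin d))).symm F with hf
  have hfx : ∀ x, ⟪f, x⟫ = F x := by
    intro x
    rw [hf, InnerProductSpace.toDual_symm_apply]
  have hle : ∀ x ∈ K, F x ≤ u := by
    have hcl : closure (interior K) ⊆ {x | F x ≤ u} :=
      closure_minimal (fun x hx => (h1 x hx).le) (isClosed_le F.continuous continuous_const)
    intro x hx
    apply hcl
    rw [hKc.closure_interior_eq_closure_of_nonempty_interior hint]
    exact subset_closure hx
  have hgy : g y ∈ K := subset_convexHull ℝ _ (Set.mem_range_self y)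
  have hge : u ≤ F (g y) := by
    have h3 : Filter.Tendsto (fun s : ℝ => F (g y + s • v)) (nhdsWithin 0 (Set.Ioi 0))
        (nhds (F (g y))) := by
      have hc : Continuous (fun s : ℝ => F (g y + s • v)) := by fun_prop
      have := hc.tendsto 0
      simp only [zero_smul, add_zero] at this
      exact this.mono_left nhdsWithin_le_nhds
    refine ge_of_tendsto h3 ?_
    filter_upwards [self_mem_nhdsWithin] with s hs
    exact h2 _ ⟨s, hs, rfl⟩
  have hFy : F (g y) = u := le_antisymm (hle _ hgy) hge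
  have h4 := hv u (-f) (by
      intro k
      rw [inner_neg_left, hfx]
      have := hle _ (subset_convexHull ℝ _ (Set.mem_range_self k))
      linarith) (by rw [inner_neg_left, hfx, hFy]; ring) (by
      by_contra hall
      push Not at hall
      have h5 : ∀ k, 0 ≤ (-u) + ⟪f, g k⟫ := by
        intro k
        have := hall k
        rw [inner_neg_left] at this
        linarith
      obtain ⟨x0, hx0⟩ := hint
      have h6 := aff_nonneg_hull h5 x0 (interior_subset hx0)
      have h7 := h1 x0 hx0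
      rw [hfx] at h6
      linarith)
  rw [inner_neg_left, hfx] at h4
  have h5 := h2 (g y + (1:ℝ) • v) ⟨1, by norm_num, rfl⟩
  rw [map_add, map_smul, hFy, smul_eq_mul] at h5
  linarith

/-- if all vertices are illuminated, then all points of the polytope are -/
theorem illum_all {V : Set (EuclideanSpace ℝ (Fin d))}
    (hV : ∀ k, ∃ v ∈ V, ∃ s : ℝ, 0 < s ∧ g k + s • v ∈ interior (convexHull ℝ (Set.range g))) :
    ∀ q ∈ convexHull ℝ (Set.range g),
      ∃ v ∈ V, ∃ s : ℝ, 0 < s ∧ q + s • v ∈ interior (convexHull ℝ (Set.range g)) := by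
  set K := convexHull ℝ (Set.range g) with hK
  have hKc : Convex ℝ K := convex_convexHull ℝ _
  set U : Set (EuclideanSpace ℝ (Fin d)) :=
    {q | q ∈ K ∧ ∃ v ∈ V, ∃ s : ℝ, 0 < s ∧ q + s • v ∈ interior K} with hU
  have hUc : Convex ℝ U := by
    intro x hx y hy a b ha hb hab
    obtain ⟨hxK, v, hv, s, hs, hxs⟩ := hx
    obtain ⟨hyK, w, hw, r, hr, hyr⟩ := hy
    refine ⟨hKc hxK hyK ha hb hab, ?_⟩
    rcases ha.lt_or_eq with ha' | ha'
    · refine ⟨v, hv, a * s, by positivity, ?_⟩
      have := hKc.combo_interior_self_mem_interior hxs hyK ha' hb hab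
      convert this using 1
      module
    · refine ⟨w, hw, r, hr, ?_⟩
      have hb1 : b = 1 := by linarith
      rw [← ha', hb1, zero_smul, zero_add, one_smul]
      exact hyr
  have hsub : K ⊆ U := by
    refine convexHull_min ?_ hUc
    rintro _ ⟨k, rfl⟩
    exact ⟨subset_convexHull ℝ _ (Set.mem_range_self k), hV k⟩
  exact fun q hq => (hsub hq).2

end general

end Cyc481
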