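import Mathlib
import Pool.Agent.Helper481.CycE

set_option autoImplicit false

open Finset
open scoped RealInnerProductSpace

namespace Cyc481

variable {n : ℕ} {t : Fin n → ℝ} {d : ℕ}

/-- the relation of the chains -/
def LinkRel (d : ℕ) (t : Fin n → ℝ) (i j : Fin n) : Prop := i < j ∧ Linked d t i j

/-- `V` is a finite set of unit vectors illuminating `K` -/
def IsIllum (K : Set (EuclideanSpace ℝ (Fin d))) (V : Finset (EuclideanSpace ℝ (Fin d))) : Prop :=
  (∀ v ∈ V, ‖v‖ = 1) ∧ ∀ q ∈ frontier K, ∃ v ∈ V, Illuminates K v q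

/-- the illumination number -/
noncomputable def illumNumber (K : Set (EuclideanSpace ℝ (Fin d))) : ℕ :=
  sInf {m | ∃ V : Finset (EuclideanSpace ℝ (Fin d)), V.card = m ∧ IsIllum K V}

theorem exists_illum_upto (ht : StrictMono t) (hn : d + 1 ≤ n) {a b : Fin n} (hab : a ≤ b)
    (h : a < b → ¬ Linked d t a b) :
    ∃ v, ∀ y, a ≤ y → y ≤ b → Illuminates (cyc d t) v (moment d (t y)) := by
  rcases hab.eq_or_lt with rfl | hlt
  · obtain ⟨v, hv⟩ := exists_illum_single (d := d) ht hn a
    exact ⟨v, fun y h1 h2 => (le_antisymm h2 h1) ▸ hv⟩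
  · exact exists_illum_interval ht hn hlt (h hlt)

theorem greedy (ht : StrictMono t) (hn : d + 1 ≤ n) : ∀ (k : ℕ) (a : Fin n), n - (a : ℕ) ≤ k →
    ∃ (l : List (Fin n)) (V : Finset (EuclideanSpace ℝ (Fin d))),
      List.IsChain (LinkRel d t) (a :: l) ∧ V.card ≤ l.length + 1 ∧
      ∀ y, a ≤ y → ∃ v ∈ V, Illuminates (cyc d t) v (moment d (t y)) := by
  classical
  intro k
  induction k with
  | zero =>
    intro a ha
    have := a.2
    omega
  | succ k ih =>
    intro a ha
    by_cases hex : ∃ j, LinkRel d t a j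
    · -- the first linked index
      set S := Finset.univ.filter (fun j => LinkRel d t a j) with hS
      have hSne : S.Nonempty := by
        obtain ⟨j, hj⟩ := hex
        exact ⟨j, by simp [hS, hj]⟩
      set j := S.min' hSne with hjdef
      have hj : LinkRel d t a j := (Finset.mem_filter.mp (S.min'_mem hSne)).2
      have hmin : ∀ m, LinkRel d t a m → j ≤ m := fun m hm =>
        S.min'_le m (by simp [hS, hm])
      have haj : (a : ℕ) < (j : ℕ) := hj.1
      obtain ⟨l, V, hl, hV, hcov⟩ := ih j (by have := j.2; omega)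
      set b : Fin n := ⟨(j : ℕ) - 1, by have := j.2; omega⟩ with hb
      have hab : a ≤ b := by
        rw [Fin.le_def, hb]; simp only; omega
      obtain ⟨v, hv⟩ := exists_illum_upto (d := d) ht hn hab (by
        intro hlt hlk
        have h1 := hmin b ⟨hlt, hlk⟩
        rw [Fin.le_def, hb] at h1
        simp only at h1
        omega)
      refine ⟨j :: l, insert v V, ?_, ?_, ?_⟩
      · exact List.isChain_cons_cons.mpr ⟨hj, hl⟩
      · have := Finset.card_insert_le v V
        simp only [List.length_cons]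
        omega
      · intro y hy
        by_cases hyj : j ≤ y
        · obtain ⟨w, hw, hw2⟩ := hcov y hyj
          exact ⟨w, Finset.mem_insert_of_mem hw, hw2⟩
        · refine ⟨v, Finset.mem_insert_self _ _, hv y hy ?_⟩
          rw [not_le, Fin.lt_def] at hyj
          rw [Fin.le_def, hb]; simp only; omega
    · push Not at hex
      set b : Fin n := ⟨n - 1, by have := a.2; omega⟩ with hb
      have hab : a ≤ b := by
        rw [Fin.le_def, hb]; have := a.2; simp only; omega
      obtain ⟨v, hv⟩ := exists_illum_upto (d := d) ht hn hab (fun hlt hlk => hex b ⟨hlt, hlk⟩)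
      refine ⟨[], {v}, List.isChain_singleton _, by simp, ?_⟩
      intro y hy
      refine ⟨v, Finset.mem_singleton_self v, hv y hy ?_⟩
      rw [Fin.le_def, hb]; have := y.2; simp only; omega

theorem card_ge_of_antipodal {V : Finset (EuclideanSpace ℝ (Fin d))}
    (hV : ∀ y, ∃ v ∈ V, Illuminates (cyc d t) v (moment d (t y)))
    (S : Finset (Fin n)) (hS : ∀ i ∈ S, ∀ j ∈ S, i < j → Antipodal d t i j) :
    S.card ≤ V.card := by
  classical
  choose φ hφ hφ2 using hV
  refine Finset.card_le_card_of_injOn φ (fun i _ => hφ i) ?_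
  intro i hi j hj hij
  rcases lt_trichotomy i j with h | h | h
  · exfalso
    have h1 := hφ2 j
    rw [← hij] at h1
    exact not_illum_antipodal (hS i hi j hj h) _ (hφ2 i) h1
  · exact h
  · exfalso
    have h1 := hφ2 j
    rw [← hij] at h1
    exact not_illum_antipodal (hS j hj i hi h) _ h1 (hφ2 i)

theorem linkRel_trans (ht : StrictMono t) (hn : d + 1 ≤ n) {i j k : Fin n}
    (h1 : LinkRel d t i j) (h2 : LinkRel d t j k) : LinkRel d t i k :=
  ⟨h1.1.trans h2.1, linked_mono ht hn le_rfl h1.1 h2.1.le h1.2⟩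

theorem chain_antipodal (ht : StrictMono t) (hn : d + 1 ≤ n) {l : List (Fin n)}
    (hl : List.IsChain (LinkRel d t) l) :
    l.Nodup ∧ ∀ i ∈ l.toFinset, ∀ j ∈ l.toFinset, i < j → Antipodal d t i j := by
  classical
  have : IsTrans (Fin n) (LinkRel d t) := ⟨fun _ _ _ h1 h2 => linkRel_trans ht hn h1 h2⟩
  have hp : l.Pairwise (LinkRel d t) := List.isChain_iff_pairwise.mp hl
  have hlt : l.Pairwise (· < ·) := hp.imp (fun h => h.1)
  refine ⟨hlt.imp (fun h => ne_of_lt h), ?_⟩
  intro i hi j hj hij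
  rw [List.mem_toFinset] at hi hj
  -- either order in the list
  have key : ∀ i ∈ l, ∀ j ∈ l, i < j → LinkRel d t i j := by
    have := List.pairwise_iff_getElem.mp hp
    have hlt' := List.pairwise_iff_getElem.mp hlt
    intro i hi j hj hij
    obtain ⟨a, ha, rfl⟩ := List.mem_iff_getElem.mp hi
    obtain ⟨b, hb, rfl⟩ := List.mem_iff_getElem.mp hj
    rcases lt_trichotomy a b with h | h | h
    · exact this a b ha hb h
    · subst h; exact absurd hij (lt_irrefl _)
    · exact absurd (hlt' b a hb ha h) (not_lt.mpr hij.le)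
  have h := key i hi j hj hij
  exact antipodal_of_linked ht hn h.1 h.2

/-- from a family illuminating the vertices to unit vectors illuminating the boundary -/
theorem exists_unit (hd : 2 ≤ d) {V : Finset (EuclideanSpace ℝ (Fin d))}
    (hV : ∀ y, ∃ v ∈ V, Illuminates (cyc d t) v (moment d (t y))) :
    ∃ V' : Finset (EuclideanSpace ℝ (Fin d)), V'.card ≤ V.card ∧ IsIllum (cyc d t) V' := by
  classical
  have : Nonempty (Fin d) := ⟨⟨0, by omega⟩⟩
  have : Nontrivial (EuclideanSpace ℝ (Fin d)) := inferInstance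
  obtain ⟨e, he⟩ := exists_norm_eq (EuclideanSpace ℝ (Fin d)) (show (0:ℝ) ≤ 1 by norm_num)
  set φ : EuclideanSpace ℝ (Fin d) → EuclideanSpace ℝ (Fin d) :=
    fun v => if v = 0 then e else (‖v‖⁻¹ : ℝ) • v with hφ
  refine ⟨V.image φ, Finset.card_image_le, ?_, ?_⟩
  · intro w hw
    obtain ⟨v, _, rfl⟩ := Finset.mem_image.mp hw
    simp only [hφ]
    split_ifs with h
    · exact he
    · rw [norm_smul, norm_inv, norm_norm]
      exact inv_mul_cancel₀ (norm_ne_zero_iff.mpr h)
  · intro q hq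
    have hcpt : IsClosed (cyc d t) := by
      unfold cyc
      exact ((Set.finite_range (fun i => moment d (t i))).isCompact_convexHull (𝕜 := ℝ)).isClosed
    have hqK : q ∈ cyc d t := by
      have := hq.1
      rwa [hcpt.closure_eq] at this
    obtain ⟨v, hv, s, hs, hqs⟩ := illum_all (g := fun k => moment d (t k)) (V := (V : Set _))
      (fun k => by obtain ⟨v, hv, h⟩ := hV k; exact ⟨v, hv, h⟩) q hqK
    have hv0 : v ≠ 0 := by
      rintro rfl
      rw [smul_zero, add_zero] at hqs
      exact hq.2 hqs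
    refine ⟨φ v, Finset.mem_image_of_mem φ hv, s * ‖v‖, ?_, ?_⟩
    · have := norm_pos_iff.mpr hv0
      positivity
    · simp only [hφ, hv0, if_false]
      rw [smul_smul, mul_assoc, mul_inv_cancel₀ (norm_ne_zero_iff.mpr hv0), mul_one]
      exact hqs

/-- at least `d + 1` directions are needed -/
theorem card_ge (ht : StrictMono t) (hd : 2 ≤ d) (hn : d + 1 ≤ n)
    {V : Finset (EuclideanSpace ℝ (Fin d))} (hV : IsIllum (cyc d t) V) : d + 1 ≤ V.card := by
  classical
  by_contra hcon
  push Not at hcon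
  have hn0 : 0 < n := by omega
  obtain ⟨v0, hv0, _⟩ := hV.2 _ (vertex_frontier ht hd ⟨0, hn0⟩)
  set W := V.erase v0 with hW
  have hWc : W.card < d := by
    have := Finset.card_erase_of_mem hv0
    rw [← hW] at this
    omega
  have hlt : Submodule.span ℝ (W : Set (EuclideanSpace ℝ (Fin d))) < ⊤ := by
    apply Submodule.lt_top_of_finrank_lt_finrank
    rw [finrank_euclideanSpace, Fintype.card_fin]
    exact lt_of_le_of_lt (finrank_span_finset_le_card W) hWc
  obtain ⟨F, hF0, hF⟩ := Submodule.exists_le_ker_of_lt_top _ hlt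
  set F' : EuclideanSpace ℝ (Fin d) →L[ℝ] ℝ := LinearMap.toContinuousLinearMap F with hF'
  set f0 := (InnerProductSpace.toDual ℝ (EuclideanSpace ℝ (Fin d))).symm F' with hf0
  have hfx0 : ∀ x, ⟪f0, x⟫ = F x := by
    intro x
    rw [hf0, InnerProductSpace.toDual_symm_apply]
    rfl
  have hf0ne : f0 ≠ 0 := by
    intro h
    apply hF0
    ext1 x
    rw [← hfx0, h]; simp
  have hex : ∃ f : EuclideanSpace ℝ (Fin d), f ≠ 0 ∧ ∀ v ∈ V, 0 ≤ ⟪f, v⟫ := by
    have hW0 : ∀ v ∈ W, ⟪f0, v⟫ = 0 := by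
      intro v hv
      rw [hfx0]
      exact hF (Submodule.subset_span hv)
    rcases le_total 0 ⟪f0, v0⟫ with h | h
    · refine ⟨f0, hf0ne, fun v hv => ?_⟩
      by_cases hvv : v = v0
      · rw [hvv]; exact h
      · rw [hW0 v (Finset.mem_erase.mpr ⟨hvv, hv⟩)]
    · refine ⟨-f0, neg_ne_zero.mpr hf0ne, fun v hv => ?_⟩
      rw [inner_neg_left]
      by_cases hvv : v = v0
      · rw [hvv]; linarith
      · rw [hW0 v (Finset.mem_erase.mpr ⟨hvv, hv⟩)]; simp
  obtain ⟨f, hf, hfV⟩ := hex
  have : Nonempty (Fin n) := ⟨⟨0, hn0⟩⟩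
  obtain ⟨i, hi⟩ := Finite.exists_max (fun i => ⟪f, moment d (t i)⟫)
  obtain ⟨v, hv, s, hs, hint⟩ := hV.2 _ (vertex_frontier ht hd i)
  have h1 := aff_pos_interior (f := -f) (neg_ne_zero.mpr hf) (aff_nonneg_cyc (t := t)
    (c := ⟪f, moment d (t i)⟫) (f := -f)
    (fun k => by rw [inner_neg_left]; have := hi k; linarith)) hint
  rw [inner_neg_left, inner_add_right, real_inner_smul_right] at h1
  have h2 := mul_nonneg hs.le (hfV v hv)
  linarith

/-- **Main theorem.** -/
theorem main (ht : StrictMono t) (hd : 2 ≤ d) (hn : d + 1 ≤ n) :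
    IsLeast {m | ∃ V : Finset (EuclideanSpace ℝ (Fin d)), V.card = m ∧ IsIllum (cyc d t) V}
      (illumNumber (cyc d t)) ∧
    IsGreatest {m | ∃ l : List (Fin n), l.length = m ∧ List.IsChain (LinkRel d t) l}
      (illumNumber (cyc d t)) ∧
    IsGreatest {m | ∃ S : Finset (Fin n), S.card = m ∧
      ∀ i ∈ S, ∀ j ∈ S, i < j → Antipodal d t i j} (illumNumber (cyc d t)) ∧
    d + 1 ≤ illumNumber (cyc d t) := by
  classical
  have hn0 : 0 < n := by omega
  obtain ⟨l, V, hl, hVc, hcov⟩ := greedy (d := d) ht hn n ⟨0, hn0⟩ (by simp)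
  obtain ⟨V', hV'c, hV'⟩ := exists_unit hd (V := V) (fun y => hcov y (by rw [Fin.le_def]; simp))
  have hleast : IsLeast {m | ∃ V : Finset (EuclideanSpace ℝ (Fin d)), V.card = m ∧
      IsIllum (cyc d t) V} (illumNumber (cyc d t)) := by
    refine ⟨Nat.sInf_mem ⟨V'.card, V', rfl, hV'⟩, fun m hm => Nat.sInf_le hm⟩
  obtain ⟨V0, hV0c, hV0⟩ := hleast.1
  have hV0v : ∀ y, ∃ v ∈ V0, Illuminates (cyc d t) v (moment d (t y)) :=
    fun y => hV0.2 _ (vertex_frontier ht hd y)
  set l0 := (⟨0, hn0⟩ : Fin n) :: l with hl0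
  obtain ⟨hnd, hanti⟩ := chain_antipodal (d := d) ht hn hl
  have hup : illumNumber (cyc d t) ≤ l0.length := by
    calc illumNumber (cyc d t) ≤ V'.card := hleast.2 ⟨V', rfl, hV'⟩
      _ ≤ V.card := hV'c
      _ ≤ l0.length := by rw [hl0, List.length_cons]; exact hVc
  have hSle : ∀ S : Finset (Fin n), (∀ i ∈ S, ∀ j ∈ S, i < j → Antipodal d t i j) →
      S.card ≤ illumNumber (cyc d t) := by
    intro S hS
    rw [← hV0c]
    exact card_ge_of_antipodal hV0v S hS
  have hlle : ∀ l : List (Fin n), List.IsChain (LinkRel d t) l →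
      l.length ≤ illumNumber (cyc d t) := by
    intro l hl
    obtain ⟨hnd, hanti⟩ := chain_antipodal (d := d) ht hn hl
    have := hSle l.toFinset hanti
    rwa [List.toFinset_card_of_nodup hnd] at this
  have heq : l0.length = illumNumber (cyc d t) := le_antisymm (hlle l0 hl) hup
  refine ⟨hleast, ⟨⟨l0, heq, hl⟩, ?_⟩, ⟨⟨l0.toFinset, ?_, hanti⟩, ?_⟩, ?_⟩
  · rintro m ⟨l, rfl, hl⟩
    exact hlle l hl
  · rw [List.toFinset_card_of_nodup hnd]; exact heq
  · rintro m ⟨S, rfl, hS⟩
    exact hSle S hS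
  · rw [← hV0c]
    exact card_ge ht hd hn hV0

end Cyc481
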