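import Mathlib
import Pool.Agent.Helper481.CycF

set_option autoImplicit false

open Finset Polynomial
open scoped RealInnerProductSpace

namespace Cyc481

section upper

variable {d : ℕ} {y : Fin d × Bool → ℝ}

/-- midpoints of the clusters -/
noncomputable def zz (y : Fin d × Bool → ℝ) (l : Fin d) : ℝ := (y (l, false) + y (l, true)) / 2

/-- sign of a cluster -/
noncomputable def sgn (l : Fin d) : ℝ := (-1) ^ (Finset.univ.filter (fun l' : Fin d => l < l')).card

theorem sgn_sq (l : Fin d) : sgn l * sgn l = 1 := by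
  unfold sgn; rw [← mul_pow]; norm_num

theorem sgn_or (l : Fin d) : sgn l = 1 ∨ sgn l = -1 := by
  unfold sgn; exact neg_one_pow_eq_or ℝ _

theorem sgn_succ {l l' : Fin d} (h : (l' : ℕ) = l + 1) : sgn l = - sgn l' := by
  have h1 : Finset.univ.filter (fun m : Fin d => l < m) =
      insert l' (Finset.univ.filter (fun m : Fin d => l' < m)) := by
    ext m
    simp only [Finset.mem_filter, Finset.mem_univ, true_and, Finset.mem_insert, Fin.lt_def,
      Fin.ext_iff]
    omega
  unfold sgn
  rw [h1, Finset.card_insert_of_notMem (by simp), pow_succ]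
  ring

theorem sgn_prod {l0 : Fin d} {a : Fin d → ℝ} (h1 : ∀ l, l0 < l → a l < 0)
    (h2 : ∀ l, l < l0 → 0 < a l) : 0 < sgn l0 * ∏ l ∈ Finset.univ.erase l0, a l := by
  have h3 : ∀ l ∈ Finset.univ.erase l0, a l = (if l0 < l then (-1:ℝ) else 1) * |a l| := by
    intro l hl
    have hne := (Finset.mem_erase.mp hl).1
    split_ifs with h
    · rw [abs_of_neg (h1 l h)]; ring
    · rw [abs_of_pos (h2 l (lt_of_le_of_ne (not_lt.mp h) hne))]; ring
  rw [Finset.prod_congr rfl h3, Finset.prod_mul_distrib, Finset.prod_ite, Finset.prod_const,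
    Finset.prod_const_one, mul_one]
  have h4 : (Finset.univ.erase l0).filter (fun l => l0 < l) =
      Finset.univ.filter (fun l : Fin d => l0 < l) := by
    ext l
    simp only [Finset.mem_filter, Finset.mem_erase, Finset.mem_univ, and_true, true_and]
    constructor
    · rintro ⟨_, h⟩; exact h
    · intro h; exact ⟨h.ne', h⟩
  rw [h4, ← mul_assoc]
  have h5 : sgn l0 * (-1 : ℝ) ^ (Finset.univ.filter (fun l : Fin d => l0 < l)).card = 1 := sgn_sq l0
  rw [h5, one_mul]
  apply Finset.prod_pos
  intro l hl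
  have hne := (Finset.mem_erase.mp hl).1
  rcases lt_or_gt_of_ne hne with h | h
  · exact abs_pos.mpr (h2 l h).ne'
  · exact abs_pos.mpr (h1 l h).ne

variable (hy1 : ∀ l, y (l, false) < y (l, true))
  (hy2 : ∀ l l' : Fin d, l < l' → y (l, true) < y (l', false))

include hy1 hy2 in
theorem y_lt {l l' : Fin d} (h : l < l') (b b' : Bool) : y (l, b) < y (l', b') := by
  have h1 : y (l, b) ≤ y (l, true) := by
    cases b
    · exact (hy1 l).le
    · exact le_rfl
  have h2 : y (l', false) ≤ y (l', b') := by
    cases b'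
    · exact le_rfl
    · exact (hy1 l').le
  exact lt_of_le_of_lt h1 (lt_of_lt_of_le (hy2 l l' h) h2)

include hy1 hy2 in
theorem y_inj : Function.Injective y := by
  rintro ⟨l, b⟩ ⟨l', b'⟩ h
  rcases lt_trichotomy l l' with hl | hl | hl
  · exact absurd h (y_lt hy1 hy2 hl b b').ne
  · subst hl
    have := hy1 l
    cases b <;> cases b' <;> simp_all
  · exact absurd h (y_lt hy1 hy2 hl b' b).ne'

include hy1 hy2 in
theorem y_lt_z {l l' : Fin d} (h : l < l') (b : Bool) : y (l, b) < zz y l' := by
  unfold zz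
  have h1 := y_lt hy1 hy2 h b false
  have h2 := hy1 l'
  linarith

include hy1 hy2 in
theorem z_lt_y {l l' : Fin d} (h : l < l') (b : Bool) : zz y l < y (l', b) := by
  unfold zz
  have h1 := y_lt hy1 hy2 h true b
  have h2 := hy1 l
  linarith

include hy1 in
theorem y_lt_z_self (l : Fin d) : y (l, false) < zz y l := by
  unfold zz; have := hy1 l; linarith

include hy1 in
theorem z_lt_y_self (l : Fin d) : zz y l < y (l, true) := by
  unfold zz; have := hy1 l; linarith

include hy1 hy2 in
theorem y_ne_z (i : Fin d × Bool) (l : Fin d) : y i ≠ zz y l := by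
  obtain ⟨l', b⟩ := i
  rcases lt_trichotomy l' l with h | h | h
  · exact (y_lt_z hy1 hy2 h b).ne
  · subst h
    cases b
    · exact (y_lt_z_self hy1 l').ne
    · exact (z_lt_y_self hy1 l').ne'
  · exact (z_lt_y hy1 hy2 h b).ne'

/-- the (positive) masses -/
noncomputable def mm (y : Fin d × Bool → ℝ) (i : Fin d × Bool) : ℝ :=
  sgn i.1 * ((∏ j ∈ Finset.univ.erase i, (y i - y j))⁻¹ * ∏ l, (y i - zz y l))

theorem prod_split (y : Fin d × Bool → ℝ) (i : Fin d × Bool) :
    ∏ j ∈ Finset.univ.erase i, (y i - y j) = (y i - y (i.1, !i.2)) *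
      ∏ l ∈ Finset.univ.erase i.1, ((y i - y (l, true)) * (y i - y (l, false))) := by
  classical
  set g : Fin d × Bool → ℝ := fun j => if j = i then 1 else y i - y j with hg
  have h1 : ∏ j ∈ Finset.univ.erase i, (y i - y j) = ∏ j, g j := by
    rw [← Finset.prod_erase Finset.univ (show g i = 1 by simp [hg])]
    refine Finset.prod_congr rfl fun j hj => ?_
    simp [hg, (Finset.mem_erase.mp hj).1]
  rw [h1, Fintype.prod_prod_type]
  simp only [Fintype.prod_bool]
  rw [← Finset.mul_prod_erase Finset.univ _ (Finset.mem_univ i.1)]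
  congr 1
  · obtain ⟨l, b⟩ := i
    cases b <;> simp [hg]
  · refine Finset.prod_congr rfl fun l hl => ?_
    have hne := (Finset.mem_erase.mp hl).1
    have h2 : (l, true) ≠ i := fun h => hne (by rw [← h])
    have h3 : (l, false) ≠ i := fun h => hne (by rw [← h])
    simp [hg, h2, h3]

include hy1 hy2 in
theorem mm_pos (i : Fin d × Bool) : 0 < mm y i := by
  unfold mm
  rw [prod_split, ← Finset.mul_prod_erase Finset.univ (fun l => y i - zz y l) (Finset.mem_univ i.1)]
  have h1 : 0 < ∏ l ∈ Finset.univ.erase i.1, ((y i - y (l, true)) * (y i - y (l, false))) := by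
    apply Finset.prod_pos
    intro l hl
    have hne := (Finset.mem_erase.mp hl).1
    obtain ⟨l0, b⟩ := i
    rcases lt_or_gt_of_ne hne with h | h
    · have h2 := y_lt hy1 hy2 h true b
      have h3 := y_lt hy1 hy2 h false b
      exact mul_pos (by linarith) (by linarith)
    · have h2 := y_lt hy1 hy2 h b true
      have h3 := y_lt hy1 hy2 h b false
      exact mul_pos_of_neg_of_neg (by linarith) (by linarith)
  have h2 : 0 < sgn i.1 * ∏ l ∈ Finset.univ.erase i.1, (y i - zz y l) := by
    apply sgn_prod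
    · intro l hl
      have := y_lt_z hy1 hy2 hl i.2
      have h3 : y i = y (i.1, i.2) := rfl
      rw [h3]; linarith
    · intro l hl
      have := z_lt_y hy1 hy2 hl i.2
      have h3 : y i = y (i.1, i.2) := rfl
      rw [h3]; linarith
  have h3 : 0 < (y i - y (i.1, !i.2))⁻¹ * (y i - zz y i.1) := by
    obtain ⟨l0, b⟩ := i
    have h4 := y_lt_z_self hy1 l0
    have h5 := z_lt_y_self hy1 l0
    cases b
    · simp only [Bool.not_false]
      exact mul_pos_of_neg_of_neg (inv_lt_zero.mpr (by linarith)) (by linarith)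
    · simp only [Bool.not_true]
      exact mul_pos (inv_pos.mpr (by linarith)) (by linarith)
  have h4 : sgn i.1 * (((y i - y (i.1, !i.2)) *
      ∏ l ∈ Finset.univ.erase i.1, ((y i - y (l, true)) * (y i - y (l, false))))⁻¹ *
      ((y i - zz y i.1) * ∏ l ∈ Finset.univ.erase i.1, (y i - zz y l))) =
      ((y i - y (i.1, !i.2))⁻¹ * (y i - zz y i.1)) *
      (∏ l ∈ Finset.univ.erase i.1, ((y i - y (l, true)) * (y i - y (l, false))))⁻¹ *
      (sgn i.1 * ∏ l ∈ Finset.univ.erase i.1, (y i - zz y l)) := by
    rw [mul_inv]; ring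
  rw [h4]
  exact mul_pos (mul_pos h3 (inv_pos.mpr h1)) h2

include hy1 hy2 in
/-- the basic functional identity -/
theorem func_eq (hd : 1 ≤ d) (l : Fin d) (p : ℝ[X]) (hp : p.natDegree ≤ d) :
    ∑ i, sgn i.1 * mm y i * p.eval (y i) / (y i - zz y l) = p.coeff d := by
  classical
  set R : ℝ[X] := ∏ l' ∈ Finset.univ.erase l, (X - C (zz y l')) with hR
  have hRmonic : R.Monic := monic_prod_of_monic _ _ fun _ _ => monic_X_sub_C _
  have hRdeg : R.natDegree = d - 1 := by
    rw [hR, natDegree_prod_of_monic _ _ fun _ _ => monic_X_sub_C _]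
    simp
  have hinj : Set.InjOn y ((Finset.univ : Finset (Fin d × Bool)) : Set (Fin d × Bool)) :=
    (y_inj hy1 hy2).injOn
  have hcard : (Finset.univ : Finset (Fin d × Bool)).card = (d - 1 + d) + 1 := by
    rw [Finset.card_univ, Fintype.card_prod, Fintype.card_fin, Fintype.card_bool]
    omega
  have hnat : (R * p).natDegree ≤ d - 1 + d := by
    refine Polynomial.natDegree_mul_le.trans ?_
    rw [hRdeg]; omega
  have hdeg : (R * p).degree < (Finset.univ : Finset (Fin d × Bool)).card := by
    rw [hcard]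
    refine lt_of_le_of_lt Polynomial.degree_le_natDegree ?_
    exact_mod_cast (by omega : (R * p).natDegree < d - 1 + d + 1)
  have h1 := Lagrange.coeff_eq_sum hinj hdeg
  rw [hcard, Nat.add_sub_cancel,
    Polynomial.coeff_mul_add_eq_of_natDegree_le hRdeg.le hp] at h1
  have h2 : R.coeff (d - 1) = 1 := by
    have := hRmonic.coeff_natDegree
    rwa [hRdeg] at this
  rw [h2, one_mul] at h1
  rw [h1]
  refine Finset.sum_congr rfl fun i _ => ?_
  have hne : y i - zz y l ≠ 0 := sub_ne_zero.mpr (y_ne_z hy1 hy2 i l)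
  have h3 : R.eval (y i) * (y i - zz y l) = ∏ l, (y i - zz y l) := by
    rw [hR, Polynomial.eval_prod]
    simp only [Polynomial.eval_sub, Polynomial.eval_X, Polynomial.eval_C]
    rw [mul_comm]
    exact Finset.mul_prod_erase Finset.univ (fun l => y i - zz y l) (Finset.mem_univ l)
  unfold mm
  rw [← h3, Polynomial.eval_mul]
  have h4 : sgn i.1 * (sgn i.1 * ((∏ j ∈ Finset.univ.erase i, (y i - y j))⁻¹ *
      (R.eval (y i) * (y i - zz y l)))) * p.eval (y i) / (y i - zz y l) =
      (sgn i.1 * sgn i.1) * ((∏ j ∈ Finset.univ.erase i, (y i - y j))⁻¹ * R.eval (y i) *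
        p.eval (y i)) * ((y i - zz y l) / (y i - zz y l)) := by ring
  rw [h4, sgn_sq, div_self hne]
  ring

/-- the potential of the masses -/
noncomputable def Om (y : Fin d × Bool → ℝ) (x : ℝ) : ℝ := ∑ i, mm y i / (y i - x)

include hy1 hy2 in
/-- an antipodal pair of consecutive nodes makes the potential grow -/
theorem Om_le (hd : 1 ≤ d) {k k' : Fin d} (hk : (k' : ℕ) = k + 1) (p : ℝ[X]) (hp : p.natDegree ≤ d)
    (h1 : p.eval (y (k, true)) = -1) (h2 : p.eval (y (k', false)) = 1)
    (h3 : ∀ i, |p.eval (y i)| ≤ 1) : Om y (zz y k) ≤ Om y (zz y k') := by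
  have hkk : k < k' := by rw [Fin.lt_def]; omega
  have e1 := func_eq hy1 hy2 hd k p hp
  have e2 := func_eq hy1 hy2 hd k' p hp
  have hs : sgn k = - sgn k' := sgn_succ hk
  set κ : Fin d × Bool → ℝ := fun i => 1 / (y i - zz y k) - 1 / (y i - zz y k') with hκ
  have e3 : ∑ i, sgn k * (sgn i.1 * p.eval (y i) * (mm y i * κ i)) = 0 := by
    rw [← Finset.mul_sum]
    have : ∑ i, (sgn i.1 * p.eval (y i) * (mm y i * κ i)) = 0 := by
      have : ∀ i, (sgn i.1 * p.eval (y i) * (mm y i * κ i)) =
          sgn i.1 * mm y i * p.eval (y i) / (y i - zz y k) -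
          sgn i.1 * mm y i * p.eval (y i) / (y i - zz y k') := by
        intro i; simp only [hκ]; ring
      rw [Finset.sum_congr rfl fun i _ => this i, Finset.sum_sub_distrib, e1, e2, sub_self]
    rw [this, mul_zero]
  have hzz : zz y k < zz y k' := (z_lt_y hy1 hy2 hkk false).trans (y_lt_z_self hy1 k')
  have hterm : ∀ i, sgn k * (sgn i.1 * p.eval (y i) * (mm y i * κ i)) ≤ -(mm y i * κ i) := by
    intro i
    by_cases hi1 : i = (k, true)
    · subst hi1
      rw [h1]
      simp only
      have : sgn k * (sgn k * -1 * (mm y (k, true) * κ (k, true))) =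
          -((sgn k * sgn k) * (mm y (k, true) * κ (k, true))) := by ring
      rw [this, sgn_sq, one_mul]
    · by_cases hi2 : i = (k', false)
      · subst hi2
        rw [h2]
        simp only
        have : sgn k * (sgn k' * 1 * (mm y (k', false) * κ (k', false))) =
            -((sgn k' * sgn k') * (mm y (k', false) * κ (k', false))) := by rw [hs]; ring
        rw [this, sgn_sq, one_mul]
      · -- outside: κ ≤ 0
        have hκneg : κ i ≤ 0 := by
          simp only [hκ]
          obtain ⟨l, b⟩ := i
          have hcases : y (l, b) < zz y k ∨ zz y k' < y (l, b) := by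
            rcases lt_trichotomy l k with h | h | h
            · exact Or.inl (y_lt_z hy1 hy2 h b)
            · subst h
              cases b
              · exact Or.inl (y_lt_z_self hy1 l)
              · exact absurd rfl hi1
            · rcases lt_trichotomy l k' with h' | h' | h'
              · exfalso
                rw [Fin.lt_def] at h h'
                omega
              · subst h'
                cases b
                · exact absurd rfl hi2
                · exact Or.inr (z_lt_y_self hy1 l)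
              · exact Or.inr (z_lt_y hy1 hy2 h' b)
          rcases hcases with h | h
          · have a1 : y (l, b) - zz y k < 0 := by linarith
            have a2 : y (l, b) - zz y k' < 0 := by linarith
            rw [sub_nonpos, one_div_le_one_div_of_neg a1 a2]
            linarith
          · have a1 : 0 < y (l, b) - zz y k := by linarith
            have a2 : 0 < y (l, b) - zz y k' := by linarith
            rw [sub_nonpos, div_le_div_iff₀ a1 a2]
            linarith
        have hmκ : mm y i * κ i ≤ 0 := mul_nonpos_of_nonneg_of_nonpos (mm_pos hy1 hy2 i).le hκneg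
        have habs : |sgn k * (sgn i.1 * p.eval (y i))| ≤ 1 := by
          rw [abs_mul, abs_mul]
          have c1 : |sgn k| = 1 := by rcases sgn_or k with h | h <;> rw [h] <;> norm_num
          have c2 : |sgn i.1| = 1 := by rcases sgn_or i.1 with h | h <;> rw [h] <;> norm_num
          rw [c1, c2, one_mul, one_mul]
          exact h3 i
        have h5 := (abs_le.mp habs).1
        nlinarith
  have hsum := Finset.sum_le_sum fun i (_ : i ∈ Finset.univ) => hterm i
  rw [e3, Finset.sum_neg_distrib] at hsum
  have h6 : ∑ i, mm y i * κ i = Om y (zz y k) - Om y (zz y k') := by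
    unfold Om
    rw [← Finset.sum_sub_distrib]
    refine Finset.sum_congr rfl fun i _ => ?_
    simp only [hκ]; ring
  rw [h6] at hsum
  linarith

include hy1 hy2 in
theorem Om_first (hd : 2 ≤ d) : 0 < Om y (zz y ⟨0, by omega⟩) := by
  set k : Fin d := ⟨0, by omega⟩ with hk
  set k' : Fin d := ⟨1, by omega⟩ with hk'
  have e1 := func_eq hy1 hy2 (by omega) k (1 : ℝ[X]) (by simp)
  have hc : (1 : ℝ[X]).coeff d = 0 := by
    rw [Polynomial.coeff_one, if_neg (by omega)]
  rw [hc] at e1
  simp only [Polynomial.eval_one, mul_one] at e1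
  have e2 : Om y (zz y k) = ∑ i, (1 - sgn k * sgn i.1) * (mm y i / (y i - zz y k)) := by
    have : ∑ i, (1 - sgn k * sgn i.1) * (mm y i / (y i - zz y k)) =
        Om y (zz y k) - sgn k * ∑ i, sgn i.1 * mm y i / (y i - zz y k) := by
      unfold Om
      rw [Finset.mul_sum, ← Finset.sum_sub_distrib]
      refine Finset.sum_congr rfl fun i _ => ?_
      ring
    rw [this, e1]; ring
  rw [e2]
  have hs : sgn k = - sgn k' := sgn_succ (by simp [hk, hk'])
  refine Finset.sum_pos' ?_ ⟨(k', false), Finset.mem_univ _, ?_⟩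
  · intro i _
    obtain ⟨l, b⟩ := i
    rcases eq_or_ne l k with h | h
    · subst h
      simp only
      rw [sgn_sq]; simp
    · have hlt : k < l := by
        rw [Fin.lt_def, hk]
        have : (l : ℕ) ≠ 0 := fun h0 => h (by ext; rw [h0])
        simp only; omega
      have h1 := z_lt_y hy1 hy2 hlt b
      have h2 : 0 ≤ 1 - sgn k * sgn l := by
        rcases sgn_or k with h | h <;> rcases sgn_or l with h' | h' <;> rw [h, h'] <;> norm_num
      have h3 := mm_pos hy1 hy2 (l, b)
      exact mul_nonneg h2 (div_nonneg h3.le (by linarith))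
  · have hlt : k < k' := by rw [Fin.lt_def, hk, hk']; simp
    have h1 := z_lt_y hy1 hy2 hlt false
    have h3 := mm_pos hy1 hy2 (k', false)
    have h2 : 1 - sgn k * sgn k' = 2 := by
      rw [hs]
      have := sgn_sq k'
      linarith
    simp only
    rw [h2]
    exact mul_pos two_pos (div_pos h3 (by linarith))

include hy1 hy2 in
theorem Om_last (hd : 2 ≤ d) : Om y (zz y ⟨d - 1, by omega⟩) < 0 := by
  set k : Fin d := ⟨d - 1, by omega⟩ with hk
  set k' : Fin d := ⟨d - 2, by omega⟩ with hk'
  have e1 := func_eq hy1 hy2 (by omega) k (1 : ℝ[X]) (by simp)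
  have hc : (1 : ℝ[X]).coeff d = 0 := by
    rw [Polynomial.coeff_one, if_neg (by omega)]
  rw [hc] at e1
  simp only [Polynomial.eval_one, mul_one] at e1
  have e2 : Om y (zz y k) = ∑ i, (1 - sgn k * sgn i.1) * (mm y i / (y i - zz y k)) := by
    have : ∑ i, (1 - sgn k * sgn i.1) * (mm y i / (y i - zz y k)) =
        Om y (zz y k) - sgn k * ∑ i, sgn i.1 * mm y i / (y i - zz y k) := by
      unfold Om
      rw [Finset.mul_sum, ← Finset.sum_sub_distrib]
      refine Finset.sum_congr rfl fun i _ => ?_
      ring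
    rw [this, e1]; ring
  rw [e2]
  have hs : sgn k' = - sgn k := sgn_succ (by simp [hk, hk']; omega)
  refine Finset.sum_neg' ?_ ⟨(k', false), Finset.mem_univ _, ?_⟩
  · intro i _
    obtain ⟨l, b⟩ := i
    rcases eq_or_ne l k with h | h
    · subst h
      simp only
      rw [sgn_sq]; simp
    · have hlt : l < k := by
        rw [Fin.lt_def, hk]
        have : (l : ℕ) ≠ d - 1 := fun h0 => h (by ext; rw [h0])
        have := l.2
        simp only; omega
      have h1 := y_lt_z hy1 hy2 hlt b
      have h2 : 0 ≤ 1 - sgn k * sgn l := by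
        rcases sgn_or k with h | h <;> rcases sgn_or l with h' | h' <;> rw [h, h'] <;> norm_num
      have h3 := mm_pos hy1 hy2 (l, b)
      exact mul_nonpos_of_nonneg_of_nonpos h2 (div_nonpos_of_nonneg_of_nonpos h3.le (by linarith))
  · have hlt : k' < k := by rw [Fin.lt_def, hk, hk']; simp only; omega
    have h1 := y_lt_z hy1 hy2 hlt false
    have h3 := mm_pos hy1 hy2 (k', false)
    have h2 : 1 - sgn k * sgn k' = 2 := by
      rw [hs]
      have := sgn_sq k
      linarith
    simp only
    rw [h2]
    exact mul_neg_of_pos_of_neg two_pos (div_neg_of_pos_of_neg h3 (by linarith))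

include hy1 hy2 in
/-- the `2d` nodes cannot be pairwise separated -/
theorem no_two_d (hd : 2 ≤ d)
    (h : ∀ k k' : Fin d, (k' : ℕ) = k + 1 → ∃ p : ℝ[X], p.natDegree ≤ d ∧
      p.eval (y (k, true)) = -1 ∧ p.eval (y (k', false)) = 1 ∧ ∀ i, |p.eval (y i)| ≤ 1) : False := by
  have hmono : ∀ k k' : Fin d, (k' : ℕ) = k + 1 → Om y (zz y k) ≤ Om y (zz y k') := by
    intro k k' hk
    obtain ⟨p, hp, h1, h2, h3⟩ := h k k' hk
    exact Om_le hy1 hy2 (by omega) hk p hp h1 h2 h3
  have hall : ∀ m (hm : m < d), Om y (zz y ⟨0, by omega⟩) ≤ Om y (zz y ⟨m, hm⟩) := by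
    intro m
    induction m with
    | zero => intro _; exact le_rfl
    | succ m ih =>
      intro hm
      exact (ih (by omega)).trans (hmono ⟨m, by omega⟩ ⟨m + 1, hm⟩ rfl)
  have h1 := Om_first hy1 hy2 hd
  have h2 := Om_last hy1 hy2 hd
  have h3 := hall (d - 1) (by omega)
  linarith

end upper

variable {n : ℕ} {t : Fin n → ℝ} {d : ℕ}

/-- a set of pairwise antipodal vertices has at most `2d - 1` elements -/
theorem card_antipodal_le (ht : StrictMono t) (hd : 2 ≤ d) (S : Finset (Fin n))
    (hS : ∀ i ∈ S, ∀ j ∈ S, i < j → Antipodal d t i j) : S.card ≤ 2 * d - 1 := by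
  by_contra hcon
  push Not at hcon
  obtain ⟨S', hS'S, hS'c⟩ := Finset.exists_subset_card_eq (show 2 * d ≤ S.card by omega)
  set e := S'.orderEmbOfFin hS'c with he
  have hemem : ∀ i, e i ∈ S := fun i => hS'S (S'.orderEmbOfFin_mem hS'c i)
  set y : Fin d × Bool → ℝ := fun i =>
    t (e ⟨2 * (i.1 : ℕ) + (if i.2 then 1 else 0), by have := i.1.2; split_ifs <;> omega⟩) with hy
  have hlt : ∀ a b : Fin (2 * d), (a : ℕ) < b → t (e a) < t (e b) := by
    intro a b hab
    exact ht (e.strictMono (Fin.lt_def.mpr hab))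
  refine no_two_d (y := y) ?_ ?_ hd ?_
  · intro l
    simp only [hy]
    apply hlt
    simp
  · intro l l' hll
    simp only [hy]
    apply hlt
    have : (l : ℕ) < l' := hll
    simp only [if_true]
    have h2 : (if (false : Bool) = true then 1 else 0) = 0 := by simp
    simp
    omega
  · intro k k' hk
    have hidx1 : 2 * (k : ℕ) + 1 < 2 * d := by have := k.2; omega
    have hidx2 : 2 * (k' : ℕ) < 2 * d := by have := k'.2; omega
    obtain ⟨f, hf1, hf2⟩ := hS (e ⟨2 * (k : ℕ) + 1, hidx1⟩) (hemem _) (e ⟨2 * (k' : ℕ), hidx2⟩)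
      (hemem _) (e.strictMono (by rw [Fin.lt_def]; simp only; omega))
    set A := ⟪f, moment d (t (e ⟨2 * (k : ℕ) + 1, hidx1⟩))⟫ with hA
    set B := ⟪f, moment d (t (e ⟨2 * (k' : ℕ), hidx2⟩))⟫ with hB
    have hBA : 0 < B - A := by linarith
    set p : ℝ[X] := pol (-(A + B) / (B - A)) ((2 / (B - A)) • f) with hp
    have hpe : ∀ x, p.eval x = (2 * ⟪f, moment d x⟫ - A - B) / (B - A) := by
      intro x
      rw [hp, pol_eval, real_inner_smul_left]
      field_simp
      ring
    have hy1 : y (k, true) = t (e ⟨2 * (k : ℕ) + 1, hidx1⟩) := by simp [hy]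
    have hy2 : y (k', false) = t (e ⟨2 * (k' : ℕ), hidx2⟩) := by simp [hy]
    refine ⟨p, pol_natDegree _ _, ?_, ?_, ?_⟩
    · rw [hpe, hy1, ← hA]
      field_simp
      ring
    · rw [hpe, hy2, ← hB]
      field_simp
      ring
    · intro i
      rw [hpe, abs_le]
      have h5 := hf2 (e ⟨2 * (i.1 : ℕ) + (if i.2 then 1 else 0), by
        have := i.1.2; split_ifs <;> omega⟩)
      have hyi : y i = t (e ⟨2 * (i.1 : ℕ) + (if i.2 then 1 else 0), by
        have := i.1.2; split_ifs <;> omega⟩) := rfl
      rw [hyi]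
      rw [le_div_iff₀ hBA, div_le_iff₀ hBA]
      constructor <;> linarith [h5.1, h5.2]

end Cyc481
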