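import Pool.Agent.Helper481.RHFibre

set_option autoImplicit false
open MeasureTheory Set
open scoped ENNReal Pointwise

namespace Pool.Agent.Helper481.RH

variable {m : ℕ}

lemma proj_compact {A : Set (ℝ × (Fin m → ℝ))} (hA : IsCompact A) : IsCompact (proj A) :=
  hA.image continuous_snd

lemma proj_convex {A : Set (ℝ × (Fin m → ℝ))} (hA : Convex ℝ A) : Convex ℝ (proj A) :=
  hA.linear_image (LinearMap.snd ℝ ℝ (Fin m → ℝ))

lemma isCompact_convexHull_union {E : Type*} [AddCommGroup E] [Module ℝ E] [TopologicalSpace E]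
    [ContinuousAdd E] [ContinuousSMul ℝ E] {A B : Set E} (hA : IsCompact A) (hB : IsCompact B)
    (hAc : Convex ℝ A) (hBc : Convex ℝ B) : IsCompact (convexHull ℝ (A ∪ B)) := by
  rcases A.eq_empty_or_nonempty with rfl | hAne
  · rw [empty_union, hBc.convexHull_eq]; exact hB
  rcases B.eq_empty_or_nonempty with rfl | hBne
  · rw [union_empty, hAc.convexHull_eq]; exact hA
  rw [hAc.convexHull_union hBc hAne hBne]
  have h1 : IsCompact ((fun x : ℝ × E × E => (1 - x.1) • x.2.1 + x.1 • x.2.2) ''
      (Icc (0:ℝ) 1 ×ˢ (A ×ˢ B))) := (isCompact_Icc.prod (hA.prod hB)).image (by fun_prop)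
  convert h1 using 1
  ext z
  simp only [mem_convexJoin, segment_eq_image, mem_image, mem_prod, Prod.exists]
  constructor
  · rintro ⟨a, ha, b, hb, t, ht, rfl⟩
    exact ⟨t, a, b, ⟨ht, ha, hb⟩, rfl⟩
  · rintro ⟨t, a, b, ⟨ht, ha, hb⟩, rfl⟩
    exact ⟨a, ha, b, hb, t, ht, rfl⟩

lemma hull_compact {A B : Set (ℝ × (Fin m → ℝ))} (hA : IsCompact A) (hB : IsCompact B)
    (hAc : Convex ℝ A) (hBc : Convex ℝ B) (s : ℝ) : IsCompact (hull A B s) := by
  refine isCompact_convexHull_union hA (hB.image (by fun_prop)) hAc ?_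
  have : (fun x : ℝ × (Fin m → ℝ) => x + (s, (0 : Fin m → ℝ))) '' B
      = (fun x => (s, (0 : Fin m → ℝ)) + x) '' B := by
    congr 1; ext x : 1; exact add_comm _ _
  rw [this]
  exact hBc.translate _

/-- the two-translates inequality -/
theorem hull_ineq {A B : Set (ℝ × (Fin m → ℝ))} (hA : IsCompact A) (hB : IsCompact B)
    (hAc : Convex ℝ A) (hBc : Convex ℝ B) (hAne : A.Nonempty) (hBne : B.Nonempty)
    (hv : volume (proj A) = volume (proj B)) {τ : ℝ} (hτ : 0 ≤ τ) :
    volume A + volume B + ENNReal.ofReal τ * volume (proj A)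
      ≤ volume (hull A B 0) + volume (hull A B τ) := by
  -- the set of pairs
  set S : Set (ℝ × (Fin m → ℝ)) := {p | p.1 ∈ Icc (0:ℝ) 1 ∧ p.2 ∈ comb (proj A) (proj B) p.1} with hS
  have hSc : IsCompact S := by
    have h1 : IsCompact ((fun x : ℝ × (Fin m → ℝ) × (Fin m → ℝ) =>
        (x.1, (1 - x.1) • x.2.1 + x.1 • x.2.2)) '' (Icc (0:ℝ) 1 ×ˢ (proj A ×ˢ proj B))) :=
      (isCompact_Icc.prod ((proj_compact hA).prod (proj_compact hB))).image (by fun_prop)
    convert h1 using 1
    ext ⟨l, y⟩
    simp only [hS, comb, mem_ofPred_eq, mem_image, mem_prod, Prod.exists, Prod.mk.injEq]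
    constructor
    · rintro ⟨hl, p, hp, q, hq, h⟩
      exact ⟨l, p, q, ⟨hl, hp, hq⟩, rfl, h⟩
    · rintro ⟨l', p, q, ⟨hl, hp, hq⟩, rfl, h⟩
      exact ⟨hl, p, hp, q, hq, h⟩
  have hSm := hSc.measurableSet
  have hS1 : volume S = ∫⁻ y, volume {l : ℝ | l ∈ Icc (0:ℝ) 1 ∧ y ∈ comb (proj A) (proj B) l} := by
    rw [volume_eq_lintegral_fib hSm]
    rfl
  have hS2 : volume (proj A) ≤ volume S := by
    rw [Measure.volume_eq_prod, Measure.prod_apply hSm]
    have h1 : ∀ l : ℝ, (Icc (0:ℝ) 1).indicator (fun _ => volume (proj A)) l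
        ≤ volume (Prod.mk l ⁻¹' S) := by
      intro l
      by_cases hl : l ∈ Icc (0:ℝ) 1
      · rw [indicator_of_mem hl]
        refine (comb_ge (proj_compact hA) (proj_compact hB) (proj_convex hAc) (proj_convex hBc) hv
          hl.1 hl.2).trans (measure_mono fun y hy => ?_)
        exact ⟨hl, hy⟩
      · rw [indicator_of_notMem hl]; exact zero_le
    calc volume (proj A) = ∫⁻ l, (Icc (0:ℝ) 1).indicator (fun _ => volume (proj A)) l := by
          rw [lintegral_indicator measurableSet_Icc]; simp
      _ ≤ _ := lintegral_mono h1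
  have hm1 := measurable_fib hA.measurableSet
  have hm2 := measurable_fib hB.measurableSet
  have hm3 := measurable_fib hSm
  have hm4 := measurable_fib (hull_compact hA hB hAc hBc 0).measurableSet
  calc volume A + volume B + ENNReal.ofReal τ * volume (proj A)
      ≤ volume A + volume B + ENNReal.ofReal τ * volume S := by gcongr
    _ = ∫⁻ y, (volume (fib A y) + volume (fib B y) + ENNReal.ofReal τ *
          volume {l : ℝ | l ∈ Icc (0:ℝ) 1 ∧ y ∈ comb (proj A) (proj B) l}) := by
        have hm12 : Measurable (fun y => volume (fib A y) + volume (fib B y)) := hm1.add hm2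
        have hm3' : Measurable
          (fun y => volume {l : ℝ | l ∈ Icc (0:ℝ) 1 ∧ y ∈ comb (proj A) (proj B) l}) := hm3
        rw [lintegral_add_left hm12, lintegral_add_left hm1, lintegral_const_mul _ hm3',
          ← hS1, ← volume_eq_lintegral_fib hA.measurableSet,
          ← volume_eq_lintegral_fib hB.measurableSet]
    _ ≤ ∫⁻ y, (volume (fib (hull A B 0) y) + volume (fib (hull A B τ) y)) :=
        lintegral_mono fun y => fibre_ineq hA hB hAc hBc hAne hBne hτ y
    _ = _ := by
        rw [lintegral_add_left hm4, ← volume_eq_lintegral_fib (hull_compact hA hB hAc hBc 0).measurableSet,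
          ← volume_eq_lintegral_fib (hull_compact hA hB hAc hBc τ).measurableSet]

/-- the sum of a set and of the segment from `0` to `t` -/
def seg {E : Type*} [AddCommGroup E] [Module ℝ E] (K : Set E) (t : E) : Set E :=
  {z | ∃ x ∈ K, ∃ s : ℝ, 0 ≤ s ∧ s ≤ 1 ∧ x + s • t = z}

lemma seg_eq_image {E : Type*} [AddCommGroup E] [Module ℝ E] (K : Set E) (t : E) :
    seg K t = (fun x : E × ℝ => x.1 + x.2 • t) '' (K ×ˢ Icc (0:ℝ) 1) := by
  ext z
  simp only [seg, mem_ofPred_eq, mem_image, mem_prod, mem_Icc, Prod.exists]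
  constructor
  · rintro ⟨x, hx, s, h0, h1, h⟩; exact ⟨x, s, ⟨hx, h0, h1⟩, h⟩
  · rintro ⟨x, s, ⟨hx, h0, h1⟩, h⟩; exact ⟨x, hx, s, h0, h1, h⟩

lemma seg_compact {E : Type*} [AddCommGroup E] [Module ℝ E] [TopologicalSpace E]
    [ContinuousAdd E] [ContinuousSMul ℝ E] {K : Set E} (hK : IsCompact K) (t : E) :
    IsCompact (seg K t) := by
  rw [seg_eq_image]
  exact (hK.prod isCompact_Icc).image (by fun_prop)

lemma seg_convex {E : Type*} [AddCommGroup E] [Module ℝ E] {K : Set E} (hK : Convex ℝ K) (t : E) :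
    Convex ℝ (seg K t) := by
  rintro _ ⟨x, hx, s, h0, h1, rfl⟩ _ ⟨x', hx', s', h0', h1', rfl⟩ a b ha hb hab
  refine ⟨a • x + b • x', hK hx hx' ha hb hab, a * s + b * s', by positivity, ?_, ?_⟩
  · nlinarith
  · module

lemma subset_seg {E : Type*} [AddCommGroup E] [Module ℝ E] (K : Set E) (t : E) : K ⊆ seg K t :=
  fun x hx => ⟨x, hx, 0, le_rfl, zero_le_one, by simp⟩

/-- volume of the sum with a segment in the first coordinate direction -/
theorem volume_seg {K : Set (ℝ × (Fin m → ℝ))} (hK : IsCompact K) (hKc : Convex ℝ K)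
    {l : ℝ} (hl : 0 ≤ l) :
    volume (seg K (l, (0 : Fin m → ℝ))) = volume K + ENNReal.ofReal l * volume (proj K) := by
  have hfib : ∀ y, volume (fib (seg K (l, (0 : Fin m → ℝ))) y)
      = volume (fib K y) + ENNReal.ofReal l * (proj K).indicator 1 y := by
    intro y
    rcases (fib K y).eq_empty_or_nonempty with he | hne
    · have h1 : y ∉ proj K := by
        rintro ⟨⟨s, y'⟩, hs, rfl⟩
        have : s ∈ fib K y' := hs
        simp only at he
        rw [he] at this
        exact this
      have h2 : fib (seg K (l, (0 : Fin m → ℝ))) y = ∅ := by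
        rw [eq_empty_iff_forall_notMem]
        rintro s ⟨⟨a, y'⟩, hx, r, -, -, h⟩
        have h3 : y' = y := by
          have := congrArg Prod.snd h
          simpa using this
        subst h3
        exact h1 ⟨_, hx, rfl⟩
      rw [he, h2, indicator_of_notMem h1]; simp
    · obtain ⟨p, q, hpq, hp, hq, hI⟩ := fib_eq_Icc hK hKc hne
      have h1 : y ∈ proj K := ⟨(p, y), hp, rfl⟩
      have h2 : fib (seg K (l, (0 : Fin m → ℝ))) y = Icc p (q + l) := by
        apply Subset.antisymm
        · rintro s ⟨⟨a, y'⟩, hx, r, hr0, hr1, h⟩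
          have h3 : y' = y := by
            have := congrArg Prod.snd h
            simpa using this
          have h4 : a + r * l = s := by
            have := congrArg Prod.fst h
            simpa using this
          subst h3
          have h5 : a ∈ Icc p q := by rw [← hI]; exact hx
          have h6 : 0 ≤ r * l := mul_nonneg hr0 hl
          have h7 : r * l ≤ l := by nlinarith
          exact ⟨by linarith [h5.1], by linarith [h5.2]⟩
        · have h3 : (p, y) ∈ seg K (l, (0 : Fin m → ℝ)) := subset_seg _ _ hp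
          have h4 : (q + l, y) ∈ seg K (l, (0 : Fin m → ℝ)) :=
            ⟨(q, y), hq, 1, zero_le_one, le_rfl, by simp⟩
          exact (fib_convex (seg_convex hKc _) y).ordConnected.out h3 h4
      rw [h2, hI, indicator_of_mem h1, Real.volume_Icc, Real.volume_Icc, Pi.one_apply, mul_one,
        ← ENNReal.ofReal_add (by linarith) hl]
      congr 1; ring
  rw [volume_eq_lintegral_fib (seg_compact hK _).measurableSet]
  simp_rw [hfib]
  rw [lintegral_add_left (measurable_fib hK.measurableSet), lintegral_const_mul _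
    (measurable_one.indicator (proj_compact hK).measurableSet),
    lintegral_indicator_one (proj_compact hK).measurableSet,
    ← volume_eq_lintegral_fib hK.measurableSet]

end Pool.Agent.Helper481.RH
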