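import Pool.Agent.Helper481.RHTrans

set_option autoImplicit false
open MeasureTheory Set Module Filter Topology Metric TopologicalSpace
open scoped ENNReal RealInnerProductSpace

namespace Pool.Agent.Helper481.MB

open Pool.Agent.Helper481.RH

variable {m : ℕ}

/-- absolute value of the determinant of `m + 1` vectors of Euclidean space -/
noncomputable def adet (v : Fin (m + 1) → EuclideanSpace ℝ (Fin (m + 1))) : ℝ :=
  |(EuclideanSpace.basisFun (Fin (m + 1)) ℝ).toBasis.det v|

lemma adet_basis (b : OrthonormalBasis (Fin (m + 1)) ℝ (EuclideanSpace ℝ (Fin (m + 1))))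
    (v : Fin (m + 1) → EuclideanSpace ℝ (Fin (m + 1))) : adet v = |b.toBasis.det v| := by
  have : Fact (finrank ℝ (EuclideanSpace ℝ (Fin (m + 1))) = m + 1) := ⟨by simp⟩
  let o := (EuclideanSpace.basisFun (Fin (m + 1)) ℝ).toBasis.orientation
  rw [adet, ← o.volumeForm_robust', ← o.volumeForm_robust']

/-- the determinant in coordinates -/
noncomputable def cdet (s : Fin (m + 1) → ℝ) (y : Fin (m + 1) → Fin m → ℝ) : ℝ :=
  (Matrix.of fun i j => (Fin.cons (s j) (y j) : Fin (m + 1) → ℝ) i).det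

lemma cdet_eq (s : Fin (m + 1) → ℝ) (y : Fin (m + 1) → Fin m → ℝ) :
    cdet s y = ∑ j : Fin (m + 1), (-1) ^ (j : ℕ) * s j *
      (Matrix.of fun i k => y (j.succAbove k) i).det := by
  rw [cdet, Matrix.det_succ_row_zero]
  refine Finset.sum_congr rfl fun j _ => ?_
  simp only [Matrix.of_apply, Fin.cons_zero]
  congr 2

lemma cdet_half (a c : Fin (m + 1) → ℝ) (y : Fin (m + 1) → Fin m → ℝ) :
    cdet (fun j => (a j - c j) / 2) y = (cdet a y - cdet c y) / 2 := by
  rw [cdet_eq, cdet_eq, cdet_eq, ← Finset.sum_sub_distrib, Finset.sum_div]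
  refine Finset.sum_congr rfl fun j _ => ?_
  ring

lemma adet_coord (b : OrthonormalBasis (Fin (m + 1)) ℝ (EuclideanSpace ℝ (Fin (m + 1))))
    (v : Fin (m + 1) → EuclideanSpace ℝ (Fin (m + 1))) :
    adet v = |cdet (fun j => (coord b (v j)).1) (fun j => (coord b (v j)).2)| := by
  rw [adet_basis b, Basis.det_apply, cdet]
  congr 2
  ext i j
  rw [Basis.toMatrix_apply]
  refine Fin.cases ?_ (fun k => ?_) i
  · rfl
  · rfl

/-- all determinants of vectors of `K` are at most `A` -/
def PropD (K : Set (EuclideanSpace ℝ (Fin (m + 1)))) (A : ℝ) : Prop :=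
  ∀ v : Fin (m + 1) → EuclideanSpace ℝ (Fin (m + 1)), (∀ i, v i ∈ K) → adet v ≤ A

/-- the class in which the second moment is minimised -/
def ClsD (m : ℕ) (R : ℝ) (V : ℝ≥0∞) (A : ℝ) :
    Set (NonemptyCompacts (EuclideanSpace ℝ (Fin (m + 1)))) :=
  {L | (L : Set (EuclideanSpace ℝ (Fin (m + 1)))) ⊆ closedBall 0 R ∧
    Convex ℝ (L : Set (EuclideanSpace ℝ (Fin (m + 1)))) ∧
    V ≤ volume (L : Set (EuclideanSpace ℝ (Fin (m + 1)))) ∧
    PropD (L : Set (EuclideanSpace ℝ (Fin (m + 1)))) A}

lemma adet_continuous : Continuous (adet (m := m)) := by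
  have h0 : (adet (m := m)) = fun v =>
      |((EuclideanSpace.basisFun (Fin (m + 1)) ℝ).toBasis.toMatrix v).det| := by
    funext v
    rw [adet, Basis.det_apply]
  rw [h0]
  refine Continuous.abs (Continuous.matrix_det ?_)
  refine continuous_matrix fun i j => ?_
  simp only [Basis.toMatrix_apply]
  have : Continuous fun x : EuclideanSpace ℝ (Fin (m + 1)) =>
      (EuclideanSpace.basisFun (Fin (m + 1)) ℝ).toBasis.repr x i :=
    LinearMap.continuous_of_finiteDimensional
      ((EuclideanSpace.basisFun (Fin (m + 1)) ℝ).toBasis.coord i)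
  exact this.comp (continuous_apply j)

end Pool.Agent.Helper481.MB
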