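import Pool.Agent.Helper481.MB1

set_option autoImplicit false
open MeasureTheory Set Module Filter Topology Metric TopologicalSpace
open scoped ENNReal RealInnerProductSpace

namespace Pool.Agent.Helper481.MB

open Pool.Agent.Helper481.RH

variable {m : ℕ}

theorem exists_minD {R : ℝ} {V : ℝ≥0∞} {A : ℝ} (hne : (ClsD m R V A).Nonempty) :
    ∃ L ∈ ClsD m R V A, ∀ M ∈ ClsD m R V A, mom (L : Set (EuclideanSpace ℝ (Fin (m + 1)))) ≤ mom (M : Set (EuclideanSpace ℝ (Fin (m + 1)))) := by
  set S : Set ℝ≥0∞ := (fun M : NonemptyCompacts (EuclideanSpace ℝ (Fin (m + 1))) => mom (M : Set (EuclideanSpace ℝ (Fin (m + 1))))) '' ClsD m R V A with hS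
  have hSne : S.Nonempty := hne.image _
  obtain ⟨u, -, hu, huS⟩ := exists_seq_tendsto_sInf hSne (OrderBot.bddBelow S)
  choose L hL hLu using huS
  have hcpt : IsCompact {M : NonemptyCompacts (EuclideanSpace ℝ (Fin (m + 1))) | (M : Set (EuclideanSpace ℝ (Fin (m + 1)))) ⊆ closedBall (0 : EuclideanSpace ℝ (Fin (m + 1))) R} :=
    NonemptyCompacts.isCompact_subsets_of_isCompact (isCompact_closedBall 0 R)
  obtain ⟨K, hK, φ, hφ, hlim⟩ := hcpt.tendsto_subseq (x := L) (fun n => (hL n).1)
  have hdist : Tendsto (fun n => dist (L (φ n)) K) atTop (𝓝 0) := by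
    have := tendsto_iff_dist_tendsto_zero.1 hlim
    exact this
  have hfin : ∀ n, hausdorffEDist (L (φ n) : Set (EuclideanSpace ℝ (Fin (m + 1)))) K ≠ ⊤ := fun n =>
    hausdorffEDist_ne_top_of_nonempty_of_bounded (L (φ n)).nonempty K.nonempty
      (L (φ n)).isCompact.isBounded K.isCompact.isBounded
  -- approximations
  have happ : ∀ δ : ℝ, 0 < δ → ∀ᶠ n in atTop, (∀ x ∈ (K : Set (EuclideanSpace ℝ (Fin (m + 1)))), ∃ y ∈ (L (φ n) : Set (EuclideanSpace ℝ (Fin (m + 1)))),
      dist x y ≤ δ) ∧ (∀ y ∈ (L (φ n) : Set (EuclideanSpace ℝ (Fin (m + 1)))), ∃ x ∈ (K : Set (EuclideanSpace ℝ (Fin (m + 1)))), dist x y ≤ δ) := by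
    intro δ hδ
    filter_upwards [hdist.eventually_lt_const hδ] with n hn
    rw [NonemptyCompacts.dist_eq] at hn
    constructor
    · intro x hx
      obtain ⟨y, hy, h⟩ := exists_dist_lt_of_hausdorffDist_lt' hx hn (hfin n)
      exact ⟨y, hy, by rw [dist_comm]; exact h.le⟩
    · intro y hy
      obtain ⟨x, hx, h⟩ := exists_dist_lt_of_hausdorffDist_lt hy hn (hfin n)
      exact ⟨x, hx, by rw [dist_comm]; exact h.le⟩
  have hKcl : IsClosed (K : Set (EuclideanSpace ℝ (Fin (m + 1)))) := K.isCompact.isClosed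
  -- convexity
  have hKconv : Convex ℝ (K : Set (EuclideanSpace ℝ (Fin (m + 1)))) := by
    intro x hx y hy a b ha hb hab
    rw [← hKcl.closure_eq, Metric.mem_closure_iff]
    intro ε hε
    obtain ⟨n, h1, h2⟩ := (happ (ε / 4) (by positivity)).exists
    obtain ⟨x', hx', hxx⟩ := h1 x hx
    obtain ⟨y', hy', hyy⟩ := h1 y hy
    obtain ⟨z, hz, hzz⟩ := h2 _ ((hL (φ n)).2.1 hx' hy' ha hb hab)
    refine ⟨z, hz, ?_⟩
    have h3 : dist (a • x + b • y) (a • x' + b • y') ≤ ε / 4 + ε / 4 := by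
      refine (dist_add_add_le _ _ _ _).trans ?_
      rw [dist_smul₀, dist_smul₀, Real.norm_eq_abs, Real.norm_eq_abs, abs_of_nonneg ha,
        abs_of_nonneg hb]
      have ha1 : a ≤ 1 := by linarith
      have hb1 : b ≤ 1 := by linarith
      have := dist_nonneg (x := x) (y := x')
      have := dist_nonneg (x := y) (y := y')
      nlinarith
    have h4 := dist_triangle (a • x + b • y) (a • x' + b • y') z
    rw [dist_comm (a • x' + b • y') z] at h4
    linarith
  -- volume
  have hVK : V ≤ volume (K : Set (EuclideanSpace ℝ (Fin (m + 1)))) := by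
    have ht := (tendsto_measure_cthickening_of_isCompact (μ := (volume : Measure (EuclideanSpace ℝ (Fin (m + 1)))))
      K.isCompact).mono_left (nhdsWithin_le_nhds (s := Ioi 0))
    refine ge_of_tendsto ht ?_
    filter_upwards [self_mem_nhdsWithin] with r hr
    obtain ⟨n, h1, h2⟩ := (happ r hr).exists
    refine (hL (φ n)).2.2.1.trans (measure_mono fun y hy => ?_)
    obtain ⟨x, hx, hxy⟩ := h2 y hy
    exact mem_cthickening_of_dist_le y x r _ hx (by rw [dist_comm]; exact hxy)
  -- the determinant property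
  have hKA : PropD (K : Set (EuclideanSpace ℝ (Fin (m + 1)))) A := by
    intro v hv
    have hp : ∀ n, ∀ i, ∃ x' ∈ (L (φ n) : Set (EuclideanSpace ℝ (Fin (m + 1)))), dist (v i) x' = infDist (v i) (L (φ n)) := by
      intro n i
      obtain ⟨x', hx', e1⟩ := (L (φ n)).isCompact.exists_infDist_eq_dist (L (φ n)).nonempty (v i)
      exact ⟨x', hx', e1.symm⟩
    choose w hw hwd using hp
    have hwlim : Tendsto w atTop (𝓝 v) := by
      rw [tendsto_pi_nhds]
      intro i
      rw [Metric.tendsto_atTop]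
      intro ε hε
      have h1 := happ (ε / 2) (by positivity)
      rw [eventually_atTop] at h1
      obtain ⟨N, hN⟩ := h1
      refine ⟨N, fun n hn => ?_⟩
      obtain ⟨y, hy, hd⟩ := (hN n hn).1 (v i) (hv i)
      have h2 := infDist_le_dist_of_mem (x := v i) hy
      rw [dist_comm, hwd n i]
      linarith
    have h3 := (adet_continuous.tendsto v).comp hwlim
    refine le_of_tendsto h3 (Eventually.of_forall fun n => ?_)
    exact (hL (φ n)).2.2.2 (w n) (hw n)
  refine ⟨K, ⟨hK, hKconv, hVK, hKA⟩, fun M hM => ?_⟩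
  have hev : ∀ z ∈ interior (K : Set (EuclideanSpace ℝ (Fin (m + 1)))), ∀ᶠ n in atTop, z ∈ (L (φ n) : Set (EuclideanSpace ℝ (Fin (m + 1)))) := by
    intro z hz
    obtain ⟨r, hr, hrs⟩ := Metric.mem_nhds_iff.1 (mem_interior_iff_mem_nhds.1 hz)
    filter_upwards [happ (r / 8) (by positivity)] with n hn
    exact mem_of_close (L (φ n)).isCompact (hL (φ n)).2.1 (L (φ n)).nonempty (δ' := r / 2)
      (by positivity) (by linarith) hn.1 ((closedBall_subset_ball (by linarith)).trans hrs)
  have hF := lintegral_le_liminf hKconv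
    (fun n => (L (φ n)).isCompact.measurableSet) hev
    (f := fun x => ENNReal.ofReal (‖x‖ ^ 2)) (by fun_prop)
  have hlimM : Tendsto (fun n => mom (L (φ n) : Set (EuclideanSpace ℝ (Fin (m + 1))))) atTop (𝓝 (sInf S)) := by
    have h1 : Tendsto (fun n => u (φ n)) atTop (𝓝 (sInf S)) := hu.comp hφ.tendsto_atTop
    refine h1.congr fun n => ?_
    exact (hLu (φ n)).symm
  have h2 : mom (K : Set (EuclideanSpace ℝ (Fin (m + 1)))) ≤ sInf S := by
    refine hF.trans (le_of_eq ?_)
    exact hlimM.liminf_eq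
  exact h2.trans (sInf_le ⟨M, hM, rfl⟩)

end Pool.Agent.Helper481.MB
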