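import Pool.Agent.Helper481.MB2

set_option autoImplicit false
open MeasureTheory Set Module Filter Topology Metric TopologicalSpace
open scoped ENNReal RealInnerProductSpace

namespace Pool.Agent.Helper481.MB

open Pool.Agent.Helper481.RH

variable {m : ℕ}

/-- a minimiser is symmetric with respect to all hyperplanes through the origin -/
lemma min_symmD {R : ℝ} {V : ℝ≥0∞} {A : ℝ} (hV : V ≠ 0)
    {L : NonemptyCompacts (EuclideanSpace ℝ (Fin (m + 1)))}
    (hL : L ∈ ClsD m R V A)
    (hmin : ∀ M ∈ ClsD m R V A,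
      mom (L : Set (EuclideanSpace ℝ (Fin (m + 1)))) ≤ mom (M : Set (EuclideanSpace ℝ (Fin (m + 1)))))
    {v : EuclideanSpace ℝ (Fin (m + 1))} (hv : ‖v‖ = 1) :
    ∀ x ∈ L, x - (2 * ⟪v, x⟫) • v ∈ L := by
  obtain ⟨b, hb⟩ := exists_basis hv
  obtain ⟨hLR, hLc, hLV, hLA⟩ := hL
  set K : Set (ℝ × (Fin m → ℝ)) := coord b '' (L : Set (EuclideanSpace ℝ (Fin (m + 1)))) with hKdef
  have hK : IsCompact K := L.isCompact.image (coord b).continuous
  have hKc : Convex ℝ K := hLc.linear_image (coord b).toLinearEquiv.toLinearMap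
  have hKne : K.Nonempty := L.nonempty.image _
  -- the symmetrised body
  let M : NonemptyCompacts (EuclideanSpace ℝ (Fin (m + 1))) :=
    ⟨⟨(coord b).symm '' St K, (St_compact hK).image (coord b).symm.continuous⟩,
      (St_nonempty hKne).image _⟩
  have hMdef : (M : Set (EuclideanSpace ℝ (Fin (m + 1)))) = (coord b).symm '' St K := rfl
  have hcM : coord b '' (M : Set (EuclideanSpace ℝ (Fin (m + 1)))) = St K := by
    rw [hMdef, image_image]
    simp
  have hM : M ∈ ClsD m R V A := by
    refine ⟨?_, ?_, ?_, ?_⟩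
    · rw [hMdef]
      rintro _ ⟨p, ⟨a, c, ha, hc, hac⟩, rfl⟩
      obtain ⟨x, hx, hxe⟩ := ha
      obtain ⟨y, hy, hye⟩ := hc
      have h1 := hLR hx
      have h2 := hLR hy
      rw [mem_closedBall_zero_iff] at h1 h2 ⊢
      have hR : 0 ≤ R := (norm_nonneg _).trans h1
      have e1 := norm_sq_coord b x
      have e2 := norm_sq_coord b y
      have e3 := norm_sq_coord b ((coord b).symm p)
      rw [hxe] at e1
      rw [hye] at e2
      rw [(coord b).apply_symm_apply] at e3
      simp only at e1 e2
      rw [← sq_le_sq₀ (norm_nonneg _) hR, e3, hac]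
      have h3 : ‖x‖ ^ 2 ≤ R ^ 2 := by gcongr
      have h4 : ‖y‖ ^ 2 ≤ R ^ 2 := by gcongr
      nlinarith [sq_nonneg (a + c)]
    · rw [hMdef]
      exact (St_convex hKc).linear_image (coord b).symm.toLinearEquiv.toLinearMap
    · rw [← volume_coord_image b, hcM, volume_St hK hKc, hKdef, volume_coord_image]
      exact hLV
    · intro v hv
      have hv' : ∀ i, coord b (v i) ∈ St K := fun i => by rw [← hcM]; exact ⟨v i, hv i, rfl⟩
      choose a c ha hc hac using hv'
      rw [adet_coord b]
      have e1 : (fun j => (coord b (v j)).1) = fun j => (a j - c j) / 2 := funext fun j => hac j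
      rw [e1, cdet_half]
      have key : ∀ s : Fin (m + 1) → ℝ, (∀ i, (s i, (coord b (v i)).2) ∈ K) →
          |cdet s (fun j => (coord b (v j)).2)| ≤ A := by
        intro s hs
        have h2 := hLA (fun i => (coord b).symm (s i, (coord b (v i)).2)) (by
          intro i
          obtain ⟨z, hz, hze⟩ := hs i
          rw [← hze, (coord b).symm_apply_apply]
          exact hz)
        rw [adet_coord b] at h2
        simpa using h2
      have h3 := key a ha
      have h4 := key c hc
      rw [abs_le] at h3 h4 ⊢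
      constructor <;> linarith [h3.1, h3.2, h4.1, h4.2]
  have h1 := hmin M hM
  have hmomL : mom (L : Set (EuclideanSpace ℝ (Fin (m + 1)))) = ∫⁻ p in K, wt p := by
    rw [hKdef, lintegral_coord_image]
    simp only [wt_coord]
    rfl
  have hmomM : mom (M : Set (EuclideanSpace ℝ (Fin (m + 1)))) = ∫⁻ p in St K, wt p := by
    rw [← hcM, lintegral_coord_image]
    simp only [wt_coord]
    rfl
  rw [hmomL, hmomM] at h1
  have hint : (interior K).Nonempty := by
    apply interior_coord_nonempty
    apply interior_nonempty_of_volume hLc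
    intro h0
    rw [h0] at hLV
    exact hV (le_antisymm hLV zero_le)
  have hfin : ∫⁻ p in K, wt p ≠ ∞ := by
    have hcont : Continuous (fun p : ℝ × (Fin m → ℝ) => p.1 ^ 2 + ∑ i, p.2 i ^ 2) := by fun_prop
    have h3 : IntegrableOn (fun p : ℝ × (Fin m → ℝ) => p.1 ^ 2 + ∑ i, p.2 i ^ 2) K volume :=
      hcont.continuousOn.integrableOn_compact hK
    have h4 := h3.lintegral_lt_top
    exact h4.ne
  have hsym := moment_eq hK hKc hint hfin h1
  intro x hx
  obtain ⟨y, hy, hye⟩ := hsym (coord b x) ⟨x, hx, rfl⟩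
  have : y = x - (2 * ⟪v, x⟫) • v := by
    apply (coord b).injective
    rw [hye, map_sub, map_smul, ← hb, coord_basis, ← coord_fst]
    refine Prod.ext ?_ ?_
    · simp; ring
    · simp
  rw [← this]; exact hy


/-- the determinants in a ball -/
lemma macbeath_ball {ρ A : ℝ} (hρ : 0 ≤ ρ)
    (h : PropD (closedBall (0 : EuclideanSpace ℝ (Fin (m + 1))) ρ) A) : ρ ^ (m + 1) ≤ A := by
  have h1 := h (fun i => ρ • EuclideanSpace.basisFun (Fin (m + 1)) ℝ i) (by
    intro i
    rw [mem_closedBall_zero_iff, norm_smul, OrthonormalBasis.norm_eq_one, Real.norm_eq_abs,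
      abs_of_nonneg hρ, mul_one])
  have h2 : adet (fun i => ρ • EuclideanSpace.basisFun (Fin (m + 1)) ℝ i) = ρ ^ (m + 1) := by
    rw [adet]
    have h3 := (EuclideanSpace.basisFun (Fin (m + 1)) ℝ).toBasis.det.map_smul_univ
      (fun _ => ρ) (fun i => EuclideanSpace.basisFun (Fin (m + 1)) ℝ i)
    rw [h3]
    have h4 : (EuclideanSpace.basisFun (Fin (m + 1)) ℝ).toBasis.det
        (fun i => EuclideanSpace.basisFun (Fin (m + 1)) ℝ i) = 1 := by
      have h5 := (EuclideanSpace.basisFun (Fin (m + 1)) ℝ).toBasis.det_self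
      rw [OrthonormalBasis.coe_toBasis] at h5
      exact h5
    rw [h4]
    simp [abs_of_nonneg hρ]
  rw [h2] at h1
  exact h1

/-- Macbeath's theorem for determinants: the volume of a compact convex set is at most `κ` times
the largest determinant of its vectors. -/
theorem macbeath {K : Set (EuclideanSpace ℝ (Fin (m + 1)))} (hK : IsCompact K)
    (hKc : Convex ℝ K) {A : ℝ} (hA : PropD K A) :
    volume K ≤ kap (m + 1) * ENNReal.ofReal A := by
  by_cases hv : volume K = 0
  · rw [hv]; exact zero_le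
  have hne : K.Nonempty := by
    by_contra h
    rw [not_nonempty_iff_eq_empty] at h
    exact hv (by rw [h]; simp)
  obtain ⟨R, hR⟩ := hK.isBounded.subset_closedBall 0
  have hcls : (ClsD m R (volume K) A).Nonempty := ⟨⟨⟨K, hK⟩, hne⟩, hR, hKc, le_rfl, hA⟩
  obtain ⟨L, hL, hmin⟩ := exists_minD hcls
  have hsym := fun v hv' => min_symmD hv hL hmin (v := v) hv'
  obtain ⟨hLR, hLc, hLV, hLA⟩ := hL
  obtain ⟨ρ, hρ, hball⟩ := eq_ball L.isCompact hLc L.nonempty hsym
  rw [hball] at hLV hLA
  refine hLV.trans ?_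
  rw [volume_closedBall_eq _ hρ, mul_comm]
  gcongr
  exact macbeath_ball hρ hLA

end Pool.Agent.Helper481.MB
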