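import Pool.Agent.Helper481.MB3
import Pool.Agent.Helper481.MS

set_option autoImplicit false
open MeasureTheory Set Module Metric Pointwise
open scoped ENNReal

namespace Pool.Agent.Helper481.MB

open Pool.Agent.Helper481.RH (kap)
open Pool.Agent.Helper481.MS

/-- the Euclidean unit ball of `ℝ ^ n` -/
def eball (n : ℕ) : Set (Fin n → ℝ) := {x | ∑ i, x i ^ 2 ≤ 1}

/-- `κ_n`, the volume of the Euclidean unit ball of `ℝ ^ n` -/
noncomputable def kappa (n : ℕ) : ℝ≥0∞ := volume (eball n)

lemma eball_closed (n : ℕ) : IsClosed (eball n) := by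
  unfold eball
  exact isClosed_le (by fun_prop) continuous_const

lemma ofLp_preimage_eball (n : ℕ) :
    (WithLp.ofLp : EuclideanSpace ℝ (Fin n) → Fin n → ℝ) ⁻¹' (eball n) = closedBall 0 1 := by
  ext x
  simp only [eball, mem_preimage, mem_ofPred_eq, mem_closedBall_zero_iff]
  rw [← EuclideanSpace.real_norm_sq_eq]
  constructor
  · intro h
    nlinarith [norm_nonneg x]
  · intro h
    nlinarith [norm_nonneg x]

lemma kap_eq (n : ℕ) : kap n = kappa n := by
  unfold kap kappa
  rw [← ofLp_preimage_eball]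
  exact (PiLp.volume_preserving_ofLp (Fin n)).measure_preimage
    (eball_closed n).measurableSet.nullMeasurableSet

lemma eball_convex (n : ℕ) : Convex ℝ (eball n) := by
  have h : eball n = (WithLp.ofLp : EuclideanSpace ℝ (Fin n) → Fin n → ℝ) '' closedBall 0 1 := by
    rw [← ofLp_preimage_eball, image_preimage_eq]
    exact (WithLp.ofLp_surjective 2)
  rw [h]
  exact (convex_closedBall _ _).linear_image (EuclideanSpace.equiv (Fin n) ℝ).toLinearMap

lemma eball_compact (n : ℕ) : IsCompact (eball n) := by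
  have h : eball n = (WithLp.ofLp : EuclideanSpace ℝ (Fin n) → Fin n → ℝ) '' closedBall 0 1 := by
    rw [← ofLp_preimage_eball, image_preimage_eq]
    exact (WithLp.ofLp_surjective 2)
  rw [h]
  exact (isCompact_closedBall _ _).image (EuclideanSpace.equiv (Fin n) ℝ).continuous

lemma kappa_zero : kappa 0 = 1 := by
  have : eball 0 = univ := by
    ext x
    simp [eball]
  rw [kappa, this]
  simp [volume_pi]

/-- Macbeath's theorem in `ℝ ^ n` -/
theorem macbeath_pi (n : ℕ) {K : Set (Fin n → ℝ)} (hK : IsCompact K) (hc : Convex ℝ K) {A : ℝ}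
    (hA : ∀ v : Fin n → Fin n → ℝ, (∀ i, v i ∈ K) → |(Matrix.of v).det| ≤ A) :
    volume K ≤ kappa n * ENNReal.ofReal A := by
  cases n with
  | zero =>
    have h1 := hA (fun i => i.elim0) (fun i => i.elim0)
    simp only [Matrix.det_isEmpty, abs_one] at h1
    rw [kappa_zero, one_mul]
    calc volume K ≤ volume (univ : Set (Fin 0 → ℝ)) := measure_mono (subset_univ _)
      _ = 1 := by simp [volume_pi]
      _ ≤ ENNReal.ofReal A := by rwa [ENNReal.one_le_ofReal]
  | succ m =>
    set K' : Set (EuclideanSpace ℝ (Fin (m + 1))) :=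
      (WithLp.ofLp : EuclideanSpace ℝ (Fin (m + 1)) → Fin (m + 1) → ℝ) ⁻¹' K with hK'
    have hv : volume K' = volume K :=
      (PiLp.volume_preserving_ofLp (Fin (m + 1))).measure_preimage
        hK.measurableSet.nullMeasurableSet
    have h1 : K' = (EuclideanSpace.equiv (Fin (m + 1)) ℝ).symm '' K := by
      rw [hK']
      exact ((EuclideanSpace.equiv (Fin (m + 1)) ℝ).toEquiv.symm.image_eq_preimage_symm K).symm
    have hKc' : IsCompact K' := by
      rw [h1]
      exact hK.image (EuclideanSpace.equiv (Fin (m + 1)) ℝ).symm.continuous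
    have hcc' : Convex ℝ K' := by
      rw [h1]
      exact hc.linear_image (EuclideanSpace.equiv (Fin (m + 1)) ℝ).symm.toLinearMap
    have hD : PropD K' A := by
      intro v hv
      have h2 := hA (fun i => WithLp.ofLp (v i)) (fun i => hv i)
      rw [adet, Basis.det_apply]
      have h3 : (EuclideanSpace.basisFun (Fin (m + 1)) ℝ).toBasis.toMatrix v =
          (Matrix.of fun i => WithLp.ofLp (v i)).transpose := by
        ext i j
        rw [Basis.toMatrix_apply]
        rfl
      rw [h3, Matrix.det_transpose]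
      exact h2
    rw [← hv, ← kap_eq]
    exact macbeath hKc' hcc' hD

/-- Hadamard's inequality for the ball -/
lemma det_eball {n : ℕ} (v : Fin n → Fin n → ℝ) (hv : ∀ i, v i ∈ eball n) :
    |(Matrix.of v).det| ≤ 1 := by
  cases n with
  | zero => simp
  | succ m =>
    have : Fact (finrank ℝ (EuclideanSpace ℝ (Fin (m + 1))) = m + 1) := ⟨by simp⟩
    let o := (EuclideanSpace.basisFun (Fin (m + 1)) ℝ).toBasis.orientation
    set w : Fin (m + 1) → EuclideanSpace ℝ (Fin (m + 1)) := fun i => WithLp.toLp 2 (v i) with hw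
    have h1 := o.abs_volumeForm_apply_le w
    rw [o.volumeForm_robust' (EuclideanSpace.basisFun (Fin (m + 1)) ℝ), Basis.det_apply] at h1
    have h3 : (EuclideanSpace.basisFun (Fin (m + 1)) ℝ).toBasis.toMatrix w =
        (Matrix.of v).transpose := by
      ext i j
      rw [Basis.toMatrix_apply]
      rfl
    rw [h3, Matrix.det_transpose] at h1
    refine h1.trans ?_
    apply Finset.prod_le_one
    · intro i _
      exact norm_nonneg _
    · intro i _
      have h4 : w i ∈ closedBall (0 : EuclideanSpace ℝ (Fin (m + 1))) 1 := by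
        rw [← ofLp_preimage_eball]
        exact hv i
      rwa [mem_closedBall_zero_iff] at h4

/-- Brunn-Minkowski: the volume of `K` is at most that of `(K - K) / 2` -/
theorem vol_le_relBall {n : ℕ} {K : Set (Fin n → ℝ)} (hK : IsCompact K) :
    volume K ≤ volume (relBall K) := by
  have h1 := RHPL.bm_pi (A := K) (B := -K) (C := relBall K) hK.measurableSet hK.neg.measurableSet
    (relBall_compact hK).measurableSet (by
      intro a ha b hb
      refine ⟨a - (-b), ⟨a, ha, -b, hb, rfl⟩, ?_⟩
      ext i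
      show (1 / 2 : ℝ) * (a i - (-b i)) = (a i + b i) / 2
      ring)
  rw [Measure.measure_neg, ← sq] at h1
  exact (ENNReal.pow_le_pow_left_iff two_ne_zero).1 h1

lemma vol_std {d : ℕ} (hd : 0 < d) : volume (std d) = ENNReal.ofReal (2 ^ d / d.factorial) := by
  have : Nonempty (Fin d) := ⟨⟨0, hd⟩⟩
  have h1 := volume_sum_rpow_le (Fin d) (p := 1) le_rfl 1
  have h2 : {x : Fin d → ℝ | (∑ i, |x i| ^ (1:ℝ)) ^ (1 / (1:ℝ)) ≤ 1} = std d := by
    rw [std_eq hd]
    ext x
    simp
  rw [h2] at h1
  rw [h1]
  have h3 : Real.Gamma (1 / 1 + 1) = 1 := by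
    norm_num
  rw [h3]
  have h4 : Real.Gamma ((Fintype.card (Fin d) : ℝ) / 1 + 1) = d.factorial := by
    rw [div_one, Fintype.card_fin]
    exact Real.Gamma_nat_eq_factorial d
  rw [h4]
  simp

end Pool.Agent.Helper481.MB
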