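import Pool.Agent.Helper481.MB4

set_option autoImplicit false
open MeasureTheory Set Module Metric Pointwise
open scoped ENNReal

namespace Pool.Agent.Helper481.MB

open Pool.Agent.Helper481.MS

lemma relBall_proj {n : ℕ} (K : Set (Fin (n + 1) → ℝ)) : relBall (proj K) ⊆ proj (relBall K) := by
  rintro _ ⟨_, ⟨_, ⟨a, ha, rfl⟩, _, ⟨b, hb, rfl⟩, rfl⟩, rfl⟩
  refine ⟨(1 / 2 : ℝ) • (a - b), ⟨a - b, ⟨a, ha, b, hb, rfl⟩, rfl⟩, ?_⟩
  ext i
  rfl

lemma det_first {n : ℕ} (w : Fin n → Fin n → ℝ) (u : Fin (n + 1) → Fin (n + 1) → ℝ)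
    (h0 : u 0 = Pi.single 0 1) (hs : ∀ i j, u (Fin.succ i) (Fin.succ j) = w i j) :
    (Matrix.of u).det = (Matrix.of w).det := by
  rw [Matrix.det_succ_row_zero, Fin.sum_univ_succ]
  have h1 : ∀ j : Fin n, (-1) ^ ((Fin.succ j : Fin (n + 1)) : ℕ) * (Matrix.of u) 0 (Fin.succ j) *
      ((Matrix.of u).submatrix Fin.succ (Fin.succAbove (Fin.succ j))).det = 0 := by
    intro j
    have : (Matrix.of u) 0 (Fin.succ j) = 0 := by
      rw [Matrix.of_apply, h0]
      simp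
    rw [this]
    ring
  rw [Finset.sum_eq_zero fun j _ => h1 j, add_zero]
  have h2 : (Matrix.of u) 0 0 = 1 := by
    rw [Matrix.of_apply, h0]
    simp
  rw [h2]
  have h3 : (Matrix.of u).submatrix Fin.succ (Fin.succAbove 0) = Matrix.of w := by
    ext i j
    simp [hs]
  rw [h3]
  simp

lemma det_map {n : ℕ} (A : (Fin n → ℝ) ≃L[ℝ] (Fin n → ℝ)) (v : Fin n → Fin n → ℝ) :
    (Matrix.of fun i => A (v i)).det =
      (Matrix.of v).det * LinearMap.det (A : (Fin n → ℝ) →ₗ[ℝ] (Fin n → ℝ)) := by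
  have h1 : (Matrix.of fun i => A (v i)) =
      Matrix.of v * (LinearMap.toMatrix' (A : (Fin n → ℝ) →ₗ[ℝ] (Fin n → ℝ))).transpose := by
    ext i j
    rw [Matrix.mul_apply, Matrix.of_apply]
    have h2 : (A : (Fin n → ℝ) →ₗ[ℝ] (Fin n → ℝ)) (v i) =
        (LinearMap.toMatrix' (A : (Fin n → ℝ) →ₗ[ℝ] (Fin n → ℝ))).mulVec (v i) := by
      rw [← Matrix.toLin'_apply, Matrix.toLin'_toMatrix']
    have h3 : A (v i) = (A : (Fin n → ℝ) →ₗ[ℝ] (Fin n → ℝ)) (v i) := rfl
    rw [h3, h2, Matrix.mulVec, dotProduct]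
    refine Finset.sum_congr rfl fun k _ => ?_
    rw [Matrix.transpose_apply, Matrix.of_apply, mul_comm]
  rw [h1, Matrix.det_mul, Matrix.det_transpose, LinearMap.det_toMatrix']

lemma relBall_image {n : ℕ} (A : (Fin n → ℝ) ≃L[ℝ] (Fin n → ℝ)) (K : Set (Fin n → ℝ)) :
    relBall (A '' K) = A '' relBall K := by
  ext x
  constructor
  · rintro ⟨_, ⟨_, ⟨a, ha, rfl⟩, _, ⟨b, hb, rfl⟩, rfl⟩, rfl⟩
    refine ⟨(1 / 2 : ℝ) • (a - b), ⟨a - b, ⟨a, ha, b, hb, rfl⟩, rfl⟩, ?_⟩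
    simp
  · rintro ⟨_, ⟨_, ⟨a, ha, b, hb, rfl⟩, rfl⟩, rfl⟩
    refine ⟨A a - A b, ⟨A a, ⟨a, ha, rfl⟩, A b, ⟨b, hb, rfl⟩, rfl⟩, ?_⟩
    simp

/-- the bound for convex hulls of two intersecting translates -/
theorem hull_bound {n : ℕ} {K : Set (Fin (n + 1) → ℝ)} (hK : IsCompact K) (hc : Convex ℝ K)
    {D : ℝ} (hD : ∀ v : Fin (n + 1) → Fin (n + 1) → ℝ, (∀ i, v i ∈ relBall K) →
      |(Matrix.of v).det| ≤ D) {p : Fin (n + 1) → ℝ} (hp : ((p +ᵥ K) ∩ K).Nonempty) :
    volume (convexHull ℝ (K ∪ (p +ᵥ K))) ≤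
      (kappa (n + 1) + 2 * kappa n) * ENNReal.ofReal D := by
  obtain ⟨x, ⟨y, hy, hyx⟩, hx⟩ := hp
  have hyx' : p + y = x := hyx
  by_cases hp0 : p = 0
  · subst hp0
    have h1 : K ∪ ((0 : Fin (n + 1) → ℝ) +ᵥ K) = K := by simp
    rw [h1, hc.convexHull_eq]
    calc volume K ≤ volume (relBall K) := vol_le_relBall hK
      _ ≤ kappa (n + 1) * ENNReal.ofReal D :=
        macbeath_pi _ (relBall_compact hK) (relBall_convex hc) hD
      _ ≤ _ := by
        gcongr
        exact le_self_add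
  · have hs : (Pi.single 0 (2 : ℝ) : Fin (n + 1) → ℝ) ≠ 0 := by
      intro h
      have := congrFun h 0
      simp at this
    obtain ⟨A, hA⟩ := SeparatingDual.exists_continuousLinearEquiv_apply_eq (R := ℝ) hs hp0
    have h1 : IsCompact (A.symm '' K) := hK.image A.symm.continuous
    have h2 : Convex ℝ (A.symm '' K) :=
      hc.linear_image (A.symm : (Fin (n + 1) → ℝ) →ₗ[ℝ] (Fin (n + 1) → ℝ))
    have h3 : A.symm p = Pi.single 0 (2 : ℝ) := by rw [← hA]; simp
    set δ : ℝ := |LinearMap.det (A : (Fin (n + 1) → ℝ) →ₗ[ℝ] (Fin (n + 1) → ℝ))| with hδ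
    have hδ0 : 0 < δ := abs_pos.2 (LinearEquiv.isUnit_det' A.toLinearEquiv).ne_zero
    have hD' : ∀ v : Fin (n + 1) → Fin (n + 1) → ℝ, (∀ i, v i ∈ relBall (A.symm '' K)) →
        |(Matrix.of v).det| ≤ D / δ := by
      intro v hv
      have h4 := hD (fun i => A (v i)) (by
        intro i
        have h5 := hv i
        rw [relBall_image] at h5
        obtain ⟨z, hz, hzv⟩ := h5
        rw [← hzv, ContinuousLinearEquiv.apply_symm_apply]
        exact hz)
      rw [det_map, abs_mul] at h4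
      rwa [le_div_iff₀ hδ0]
    have he0 : (Pi.single 0 1 : Fin (n + 1) → ℝ) ∈ relBall (A.symm '' K) := by
      refine ⟨A.symm x - A.symm y, ⟨_, ⟨x, hx, rfl⟩, _, ⟨y, hy, rfl⟩, rfl⟩, ?_⟩
      show (1 / 2 : ℝ) • (A.symm x - A.symm y) = _
      rw [← hyx', map_add, h3, add_sub_cancel_right, ← Pi.single_smul]
      norm_num
    have hv1 : volume (A.symm '' K) ≤ kappa (n + 1) * ENNReal.ofReal (D / δ) :=
      (vol_le_relBall h1).trans (macbeath_pi _ (relBall_compact h1) (relBall_convex h2) hD')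
    have hv2 : volume (proj (A.symm '' K)) ≤ kappa n * ENNReal.ofReal (D / δ) := by
      refine (vol_le_relBall (proj_compact h1)).trans
        (macbeath_pi _ (relBall_compact (proj_compact h1)) (relBall_convex (proj_convex h2)) ?_)
      intro w hw
      have hw' : ∀ i, ∃ z ∈ relBall (A.symm '' K), (fun j => z (Fin.succ j)) = w i := fun i =>
        relBall_proj _ (hw i)
      choose z hz hzw using hw'
      rw [← det_first w (Fin.cons (Pi.single 0 1) z) (by simp)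
        (by intro i j; rw [Fin.cons_succ]; exact congrFun (hzw i) j)]
      apply hD'
      intro i
      refine Fin.cases ?_ (fun k => ?_) i
      · rw [Fin.cons_zero]; exact he0
      · rw [Fin.cons_succ]; exact hz k
    calc volume (convexHull ℝ (K ∪ (p +ᵥ K))) ≤ volume (K + segment ℝ 0 p) :=
          measure_mono (hull_sub hc p)
      _ = ENNReal.ofReal δ * volume (A.symm '' K + seg n) := vol_image A K p hA
      _ = ENNReal.ofReal δ * (volume (A.symm '' K) + 2 * volume (proj (A.symm '' K))) := by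
          rw [vol_add_seg h1 h2]
      _ ≤ ENNReal.ofReal δ * (kappa (n + 1) * ENNReal.ofReal (D / δ) +
            2 * (kappa n * ENNReal.ofReal (D / δ))) := by gcongr
      _ = (kappa (n + 1) + 2 * kappa n) * (ENNReal.ofReal δ * ENNReal.ofReal (D / δ)) := by ring
      _ = (kappa (n + 1) + 2 * kappa n) * ENNReal.ofReal D := by
          rw [← ENNReal.ofReal_mul hδ0.le, mul_div_cancel₀ _ hδ0.ne']

end Pool.Agent.Helper481.MB
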