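import Pool.Agent.Helper481.MB5

set_option autoImplicit false
open MeasureTheory Set Module Metric Pointwise
open scoped ENNReal

namespace Pool.Agent.Helper481.MB

open Pool.Agent.Helper481.MS

/-- the cube `[-1, 1] ^ d` -/
def cube (d : ℕ) : Set (Fin d → ℝ) := {x | ∀ i, |x i| ≤ 1}

lemma cube_eq (d : ℕ) : cube d = Icc (fun _ => -1) (fun _ => 1) := by
  ext x
  simp only [cube, mem_ofPred_eq, mem_Icc, Pi.le_def, abs_le]
  exact forall_and

lemma vol_cube (d : ℕ) : volume (cube d) = ENNReal.ofReal (2 ^ d) := by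
  rw [cube_eq, Real.volume_Icc_pi]
  simp only [sub_neg_eq_add, Finset.prod_const, Finset.card_univ, Fintype.card_fin]
  rw [← ENNReal.ofReal_pow (by norm_num)]
  norm_num

lemma cube_compact (d : ℕ) : IsCompact (cube d) := by
  rw [cube_eq]; exact isCompact_Icc

lemma cube_convex (d : ℕ) : Convex ℝ (cube d) := by
  rw [cube_eq]; exact convex_Icc _ _

/-- the shear taking `e_0` to `(1, ..., 1)` -/
def shM (n : ℕ) : Matrix (Fin (n + 1)) (Fin (n + 1)) ℝ :=
  Matrix.of fun i j => if i = j then 1 else if j = 0 then 1 else 0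

lemma det_shM (n : ℕ) : (shM n).det = 1 := by
  rw [Matrix.det_of_isLowerTriangular]
  · simp [shM]
  · intro i j hij
    have h1 : i < j := hij
    have h2 : i ≠ j := h1.ne
    have h3 : j ≠ 0 := by
      intro h
      rw [h] at h1
      exact absurd h1 (Fin.not_lt_zero i)
    simp [shM, h2, h3]

noncomputable def sh (n : ℕ) : (Fin (n + 1) → ℝ) ≃L[ℝ] (Fin (n + 1) → ℝ) :=
  ((Matrix.toLin' (shM n)).equivOfDetNeZero (by
    rw [LinearMap.det_toLin', det_shM]; norm_num)).toContinuousLinearEquiv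

lemma sh_apply (n : ℕ) (x : Fin (n + 1) → ℝ) :
    sh n x = Fin.cons (x 0) (fun i => x 0 + x (Fin.succ i)) := by
  have h1 : sh n x = Matrix.toLin' (shM n) x := rfl
  rw [h1, Matrix.toLin'_apply]
  ext i
  rw [Matrix.mulVec, dotProduct, Fin.sum_univ_succ]
  refine Fin.cases ?_ (fun k => ?_) i
  · rw [Fin.cons_zero]
    have : ∀ j : Fin n, shM n 0 (Fin.succ j) * x (Fin.succ j) = 0 := by
      intro j
      have : shM n 0 (Fin.succ j) = 0 := by
        rw [shM, Matrix.of_apply, if_neg (Fin.succ_ne_zero j).symm, if_neg (Fin.succ_ne_zero j)]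
      rw [this, zero_mul]
    rw [Finset.sum_eq_zero fun j _ => this j]
    simp [shM]
  · rw [Fin.cons_succ]
    have h2 : shM n (Fin.succ k) 0 = 1 := by
      rw [shM, Matrix.of_apply, if_neg (Fin.succ_ne_zero k), if_pos rfl]
    rw [h2, one_mul]
    congr 1
    rw [Finset.sum_eq_single k]
    · simp [shM]
    · intro j _ hj
      have : shM n (Fin.succ k) (Fin.succ j) = 0 := by
        rw [shM, Matrix.of_apply, if_neg (fun h => hj (Fin.succ_injective _ h).symm),
          if_neg (Fin.succ_ne_zero j)]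
      rw [this, zero_mul]
    · simp

lemma det_sh (n : ℕ) : |LinearMap.det (sh n : (Fin (n + 1) → ℝ) →ₗ[ℝ] (Fin (n + 1) → ℝ))| = 1 := by
  have h1 : (sh n : (Fin (n + 1) → ℝ) →ₗ[ℝ] (Fin (n + 1) → ℝ)) = Matrix.toLin' (shM n) := by
    ext x : 1
    rfl
  rw [h1, LinearMap.det_toLin', det_shM, abs_one]

lemma sh_symm_apply (n : ℕ) (x : Fin (n + 1) → ℝ) :
    (sh n).symm x = Fin.cons (x 0) (fun i => x (Fin.succ i) - x 0) := by
  rw [ContinuousLinearEquiv.symm_apply_eq, sh_apply]
  ext i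
  refine Fin.cases ?_ (fun k => ?_) i
  · simp
  · simp

lemma proj_cube (n : ℕ) : proj ((sh n).symm '' cube (n + 1)) =
    (fun _ => (-1:ℝ) : Fin n → ℝ) +ᵥ (cube n + segment ℝ 0 (fun _ => (2:ℝ))) := by
  ext y
  constructor
  · rintro ⟨_, ⟨x, hx, rfl⟩, rfl⟩
    have h0 := abs_le.1 (hx 0)
    refine ⟨(fun i => x (Fin.succ i)) + ((1 - x 0) / 2) • (fun _ => (2:ℝ)),
      ⟨_, fun i => hx i.succ, _, ?_, rfl⟩, ?_⟩
    · rw [segment_eq_image]
      refine ⟨(1 - x 0) / 2, ⟨by linarith, by linarith⟩, ?_⟩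
      simp
    · ext i
      simp only [sh_symm_apply, vadd_eq_add, Pi.add_apply, Pi.smul_apply, smul_eq_mul,
        Fin.cons_succ]
      ring
  · rintro ⟨_, ⟨z, hz, q, hq, rfl⟩, rfl⟩
    rw [segment_eq_image] at hq
    obtain ⟨t, ⟨ht0, ht1⟩, rfl⟩ := hq
    refine ⟨(sh n).symm (Fin.cons (1 - 2 * t) z), ⟨_, ?_, rfl⟩, ?_⟩
    · intro i
      refine Fin.cases ?_ (fun k => ?_) i
      · rw [Fin.cons_zero, abs_le]
        constructor <;> linarith
      · rw [Fin.cons_succ]
        exact hz k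
    · ext i
      simp only [sh_symm_apply, vadd_eq_add, Pi.add_apply, Pi.smul_apply, smul_eq_mul,
        Fin.cons_succ, Fin.cons_zero, Pi.zero_apply]
      ring

lemma vol_cube_seg : ∀ n : ℕ, volume (cube n + segment ℝ 0 (fun _ => (2:ℝ))) =
    ENNReal.ofReal ((n + 1) * 2 ^ n) := by
  intro n
  induction n with
  | zero =>
    have : cube 0 + segment ℝ 0 (fun _ => (2:ℝ)) = univ := by
      ext x
      simp only [mem_univ, iff_true]
      refine ⟨x, fun i => i.elim0, 0, left_mem_segment ℝ 0 _, ?_⟩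
      exact Subsingleton.elim _ _
    rw [this]
    simp [volume_pi]
  | succ n ih =>
    have hA : sh n (Pi.single 0 (2:ℝ)) = fun _ => (2:ℝ) := by
      rw [sh_apply]
      ext i
      refine Fin.cases ?_ (fun k => ?_) i
      · simp
      · simp
    have hc1 : IsCompact ((sh n).symm '' cube (n + 1)) :=
      (cube_compact _).image (sh n).symm.continuous
    have hc2 : Convex ℝ ((sh n).symm '' cube (n + 1)) :=
      (cube_convex _).linear_image ((sh n).symm : (Fin (n + 1) → ℝ) →ₗ[ℝ] (Fin (n + 1) → ℝ))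
    have h3 : volume ((sh n).symm '' cube (n + 1)) = ENNReal.ofReal (2 ^ (n + 1)) := by
      have h4 := Measure.addHaar_image_continuousLinearEquiv (volume : Measure (Fin (n + 1) → ℝ))
        (sh n) ((sh n).symm '' cube (n + 1))
      rw [det_sh, ENNReal.ofReal_one, one_mul, Set.image_image] at h4
      rw [← h4]
      simp only [ContinuousLinearEquiv.apply_symm_apply, image_id', vol_cube]
    rw [vol_image (sh n) _ _ hA, det_sh, ENNReal.ofReal_one, one_mul, vol_add_seg hc1 hc2, h3,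
      proj_cube, measure_vadd, ih]
    have h5 : (2 : ℝ≥0∞) = ENNReal.ofReal 2 := by simp
    rw [h5, ← ENNReal.ofReal_mul (by norm_num), ← ENNReal.ofReal_add (by positivity) (by positivity)]
    congr 1
    push_cast
    ring

lemma proj_eball (n : ℕ) : proj (eball (n + 1)) = eball n := by
  ext y
  constructor
  · rintro ⟨x, hx, rfl⟩
    have h1 : ∑ i, x i ^ 2 ≤ 1 := hx
    rw [Fin.sum_univ_succ] at h1
    show ∑ i : Fin n, x i.succ ^ 2 ≤ 1
    nlinarith [sq_nonneg (x 0)]
  · intro hy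
    have h1 : ∑ i, y i ^ 2 ≤ 1 := hy
    refine ⟨Fin.cons 0 y, ?_, by ext i; simp⟩
    show ∑ i, (Fin.cons 0 y : Fin (n + 1) → ℝ) i ^ 2 ≤ 1
    rw [Fin.sum_univ_succ]
    simpa using h1

end Pool.Agent.Helper481.MB
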