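import Pool.Agent.Helper481.RHLimit

set_option autoImplicit false
open MeasureTheory Set Module Filter Topology Metric TopologicalSpace
open scoped ENNReal RealInnerProductSpace

namespace Pool.Agent.Helper481.RH

section attained

variable {E : Type*} [NormedAddCommGroup E] [InnerProductSpace ℝ E] [FiniteDimensional ℝ E]
  [MeasurableSpace E] [BorelSpace E]

/-- the largest translative hull is attained -/
lemma exists_max_seg {K : Set E} (hK : IsCompact K) (hne : K.Nonempty) :
    ∃ x ∈ K, ∃ t, x + t ∈ K ∧ PropA K (volume (seg K t)) := by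
  set S : Set ℝ≥0∞ := (fun p : E × E => volume (seg K (p.2 - p.1))) '' (K ×ˢ K) with hS
  have hSne : S.Nonempty := (hne.prod hne).image _
  obtain ⟨u, -, hu, huS⟩ := exists_seq_tendsto_sSup hSne (OrderTop.bddAbove S)
  choose p hp hpu using huS
  obtain ⟨q, hq, φ, hφ, hlim⟩ := (hK.prod hK).tendsto_subseq hp
  refine ⟨q.1, hq.1, q.2 - q.1, by rw [add_sub_cancel]; exact hq.2, ?_⟩
  have hlimt : Tendsto (fun n => (p (φ n)).2 - (p (φ n)).1) atTop (𝓝 (q.2 - q.1)) := by
    have h1 := (continuous_snd.tendsto q).comp hlim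
    have h2 := (continuous_fst.tendsto q).comp hlim
    exact h1.sub h2
  have hsup : sSup S ≤ volume (seg K (q.2 - q.1)) := by
    have ht := (tendsto_measure_cthickening_of_isCompact (μ := (volume : Measure E))
      (seg_compact hK (q.2 - q.1))).mono_left (nhdsWithin_le_nhds (s := Ioi 0))
    refine ge_of_tendsto ht ?_
    filter_upwards [self_mem_nhdsWithin] with r hr
    have h1 : Tendsto (fun n => u (φ n)) atTop (𝓝 (sSup S)) := hu.comp hφ.tendsto_atTop
    refine le_of_tendsto h1 ?_
    have h2 : ∀ᶠ n in atTop, dist ((p (φ n)).2 - (p (φ n)).1) (q.2 - q.1) < r :=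
      (tendsto_iff_dist_tendsto_zero.1 hlimt).eventually_lt_const hr
    filter_upwards [h2] with n hn
    rw [← hpu (φ n)]
    refine measure_mono ?_
    rintro _ ⟨x, hx, s, hs0, hs1, rfl⟩
    refine mem_cthickening_of_dist_le _ (x + s • (q.2 - q.1)) r _ ⟨x, hx, s, hs0, hs1, rfl⟩ ?_
    rw [dist_add_left, dist_smul₀, Real.norm_eq_abs, abs_of_nonneg hs0]
    have := dist_nonneg (x := (p (φ n)).2 - (p (φ n)).1) (y := q.2 - q.1)
    nlinarith
  intro x hx t hxt
  refine le_trans (le_sSup ?_) hsup
  exact ⟨(x, x + t), ⟨hx, hxt⟩, by simp⟩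

lemma interior_nonempty_of_volume {K : Set E} (hKc : Convex ℝ K) (h : volume K ≠ 0) :
    (interior K).Nonempty := by
  by_contra hcon
  rw [not_nonempty_iff_eq_empty] at hcon
  apply h
  refine measure_mono_null ?_ (hKc.addHaar_frontier (volume : Measure E))
  intro x hx
  refine ⟨subset_closure hx, ?_⟩
  rw [hcon]; simp

end attained

variable {m : ℕ}

/-- the volume of the Euclidean unit ball -/
noncomputable def kap (n : ℕ) : ℝ≥0∞ := volume (closedBall (0 : EuclideanSpace ℝ (Fin n)) 1)

lemma volume_closedBall_eq (n : ℕ) {r : ℝ} (hr : 0 ≤ r) :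
    volume (closedBall (0 : EuclideanSpace ℝ (Fin n)) r) = ENNReal.ofReal (r ^ n) * kap n := by
  rw [kap, Measure.addHaar_closedBall' _ _ hr]
  simp

lemma interior_coord_nonempty (b : OrthonormalBasis (Fin (m + 1)) ℝ (EuclideanSpace ℝ (Fin (m + 1))))
    {L : Set (EuclideanSpace ℝ (Fin (m + 1)))} (h : (interior L).Nonempty) :
    (interior (coord b '' L)).Nonempty := by
  have := (coord b).toHomeomorph.image_interior L
  have h2 : (coord b) '' (interior L) = interior (coord b '' L) := this
  rw [← h2]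
  exact h.image _

/-- a minimiser is symmetric with respect to all hyperplanes through the origin -/
lemma min_symm {R : ℝ} {V A : ℝ≥0∞} (hV : V ≠ 0)
    {L : NonemptyCompacts (EuclideanSpace ℝ (Fin (m + 1)))}
    (hL : L ∈ Cls (EuclideanSpace ℝ (Fin (m + 1))) R V A)
    (hmin : ∀ M ∈ Cls (EuclideanSpace ℝ (Fin (m + 1))) R V A,
      mom (L : Set (EuclideanSpace ℝ (Fin (m + 1)))) ≤ mom (M : Set (EuclideanSpace ℝ (Fin (m + 1)))))
    {v : EuclideanSpace ℝ (Fin (m + 1))} (hv : ‖v‖ = 1) :
    ∀ x ∈ L, x - (2 * ⟪v, x⟫) • v ∈ L := by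
  obtain ⟨b, hb⟩ := exists_basis hv
  obtain ⟨hLR, hLc, hLV, hLA⟩ := hL
  set K : Set (ℝ × (Fin m → ℝ)) := coord b '' (L : Set (EuclideanSpace ℝ (Fin (m + 1)))) with hKdef
  have hK : IsCompact K := L.isCompact.image (coord b).continuous
  have hKc : Convex ℝ K := hLc.linear_image (coord b).toLinearEquiv.toLinearMap
  have hKne : K.Nonempty := L.nonempty.image _
  -- the symmetrised body
  let M : NonemptyCompacts (EuclideanSpace ℝ (Fin (m + 1))) :=
    ⟨⟨(coord b).symm '' St K, (St_compact hK).image (coord b).symm.continuous⟩,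
      (St_nonempty hKne).image _⟩
  have hMdef : (M : Set (EuclideanSpace ℝ (Fin (m + 1)))) = (coord b).symm '' St K := rfl
  have hcM : coord b '' (M : Set (EuclideanSpace ℝ (Fin (m + 1)))) = St K := by
    rw [hMdef, image_image]
    simp
  have hM : M ∈ Cls (EuclideanSpace ℝ (Fin (m + 1))) R V A := by
    refine ⟨?_, ?_, ?_, ?_⟩
    · rw [hMdef]
      rintro _ ⟨p, ⟨a, c, ha, hc, hac⟩, rfl⟩
      obtain ⟨x, hx, hxe⟩ := ha
      obtain ⟨y, hy, hye⟩ := hc
      have h1 := hLR hx
      have h2 := hLR hy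
      rw [mem_closedBall_zero_iff] at h1 h2 ⊢
      have hR : 0 ≤ R := (norm_nonneg _).trans h1
      have e1 := norm_sq_coord b x
      have e2 := norm_sq_coord b y
      have e3 := norm_sq_coord b ((coord b).symm p)
      rw [hxe] at e1
      rw [hye] at e2
      rw [(coord b).apply_symm_apply] at e3
      simp only at e1 e2
      rw [← sq_le_sq₀ (norm_nonneg _) hR, e3, hac]
      have h3 : ‖x‖ ^ 2 ≤ R ^ 2 := by gcongr
      have h4 : ‖y‖ ^ 2 ≤ R ^ 2 := by gcongr
      nlinarith [sq_nonneg (a + c)]
    · rw [hMdef]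
      exact (St_convex hKc).linear_image (coord b).symm.toLinearEquiv.toLinearMap
    · rw [← volume_coord_image b, hcM, volume_St hK hKc, hKdef, volume_coord_image]
      exact hLV
    · intro x hx t hxt
      have hx' : coord b x ∈ St K := by rw [← hcM]; exact ⟨x, hx, rfl⟩
      have hxt' : coord b x + coord b t ∈ St K := by
        rw [← map_add, ← hcM]; exact ⟨_, hxt, rfl⟩
      obtain ⟨x1, hx1, t1, hxt1, x2, hx2, t2, hxt2, h⟩ := St_seg hK hKc hx' hxt'
      have key : ∀ y ∈ K, ∀ s, y + s ∈ K → volume (seg K s) ≤ A := by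
        rintro _ ⟨y, hy, rfl⟩ s hs
        have e1 : seg K s = coord b '' (seg (L : Set (EuclideanSpace ℝ (Fin (m + 1))))
            ((coord b).symm s)) := by
          rw [coord_image_seg, (coord b).apply_symm_apply]
        rw [e1, volume_coord_image]
        apply hLA y hy
        obtain ⟨z, hz, hze⟩ := hs
        have : z = y + (coord b).symm s := by
          apply (coord b).injective
          rw [hze, map_add, (coord b).apply_symm_apply]
        rw [← this]; exact hz
      have e2 : volume (seg (M : Set (EuclideanSpace ℝ (Fin (m + 1)))) t)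
          = volume (seg (St K) (coord b t)) := by
        rw [← volume_coord_image b, coord_image_seg, hcM]
      rw [e2]
      have h3 : 2 * volume (seg (St K) (coord b t)) ≤ 2 * A := by
        rw [two_mul A]
        exact h.trans (add_le_add (key x1 hx1 t1 hxt1) (key x2 hx2 t2 hxt2))
      exact (ENNReal.mul_le_mul_iff_right (by norm_num) (by norm_num)).1 h3
  have h1 := hmin M hM
  have hmomL : mom (L : Set (EuclideanSpace ℝ (Fin (m + 1)))) = ∫⁻ p in K, wt p := by
    rw [hKdef, lintegral_coord_image]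
    simp only [wt_coord]
    rfl
  have hmomM : mom (M : Set (EuclideanSpace ℝ (Fin (m + 1)))) = ∫⁻ p in St K, wt p := by
    rw [← hcM, lintegral_coord_image]
    simp only [wt_coord]
    rfl
  rw [hmomL, hmomM] at h1
  have hint : (interior K).Nonempty := by
    apply interior_coord_nonempty
    apply interior_nonempty_of_volume hLc
    intro h0
    rw [h0] at hLV
    exact hV (le_antisymm hLV zero_le)
  have hfin : ∫⁻ p in K, wt p ≠ ∞ := by
    have hcont : Continuous (fun p : ℝ × (Fin m → ℝ) => p.1 ^ 2 + ∑ i, p.2 i ^ 2) := by fun_prop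
    have h3 : IntegrableOn (fun p : ℝ × (Fin m → ℝ) => p.1 ^ 2 + ∑ i, p.2 i ^ 2) K volume :=
      hcont.continuousOn.integrableOn_compact hK
    have h4 := h3.lintegral_lt_top
    exact h4.ne
  have hsym := moment_eq hK hKc hint hfin h1
  intro x hx
  obtain ⟨y, hy, hye⟩ := hsym (coord b x) ⟨x, hx, rfl⟩
  have : y = x - (2 * ⟪v, x⟫) • v := by
    apply (coord b).injective
    rw [hye, map_sub, map_smul, ← hb, coord_basis, ← coord_fst]
    refine Prod.ext ?_ ?_
    · simp; ring
    · simp
  rw [← this]; exact hy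

end Pool.Agent.Helper481.RH
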