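import Pool.Agent.Helper481.RHSteiner

set_option autoImplicit false
open MeasureTheory Set Module
open scoped ENNReal RealInnerProductSpace

namespace Pool.Agent.Helper481.RH

variable {m : ℕ}

/-- coordinates in an orthonormal basis, first coordinate split off -/
noncomputable def coord (b : OrthonormalBasis (Fin (m + 1)) ℝ (EuclideanSpace ℝ (Fin (m + 1)))) :
    EuclideanSpace ℝ (Fin (m + 1)) ≃L[ℝ] ℝ × (Fin m → ℝ) :=
  (b.repr.toContinuousLinearEquiv.trans (EuclideanSpace.equiv (Fin (m + 1)) ℝ)).trans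
    (Fin.consEquivL ℝ (fun _ => ℝ)).symm

variable (b : OrthonormalBasis (Fin (m + 1)) ℝ (EuclideanSpace ℝ (Fin (m + 1))))

lemma coord_fst (x : EuclideanSpace ℝ (Fin (m + 1))) : (coord b x).1 = ⟪b 0, x⟫ := by
  rw [← b.repr_apply_apply]; rfl

lemma coord_snd (x : EuclideanSpace ℝ (Fin (m + 1))) (j : Fin m) :
    (coord b x).2 j = ⟪b j.succ, x⟫ := by
  rw [← b.repr_apply_apply]; rfl

lemma coord_measurePreserving : MeasurePreserving (coord b) volume volume := by
  have h1 := b.measurePreserving_repr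
  have h2 := PiLp.volume_preserving_ofLp (Fin (m + 1))
  have h3 := volume_preserving_piFinSuccAbove (fun _ : Fin (m + 1) => ℝ) 0
  have h4 := h3.comp (h2.comp h1)
  have h5 : (coord b : EuclideanSpace ℝ (Fin (m + 1)) → ℝ × (Fin m → ℝ)) =
      (MeasurableEquiv.piFinSuccAbove (fun _ : Fin (m + 1) => ℝ) 0) ∘ (WithLp.ofLp ∘ b.repr) := by
    funext x
    refine Prod.ext ?_ ?_
    · rfl
    · funext j
      rfl
  rw [h5]
  exact h4

lemma wt_coord (x : EuclideanSpace ℝ (Fin (m + 1))) : wt (coord b x) = ENNReal.ofReal (‖x‖ ^ 2) := by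
  unfold wt
  congr 1
  rw [← b.sum_sq_norm_inner_right x, Fin.sum_univ_succ]
  simp only [coord_fst, coord_snd, Real.norm_eq_abs, sq_abs]

lemma norm_sq_coord (x : EuclideanSpace ℝ (Fin (m + 1))) :
    ‖x‖ ^ 2 = (coord b x).1 ^ 2 + ∑ i, (coord b x).2 i ^ 2 := by
  rw [← b.sum_sq_norm_inner_right x, Fin.sum_univ_succ]
  simp only [coord_fst, coord_snd, Real.norm_eq_abs, sq_abs]

lemma volume_coord_image {K : Set (EuclideanSpace ℝ (Fin (m + 1)))} :
    volume (coord b '' K) = volume K := by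
  have h1 := (coord_measurePreserving b).measure_preimage_emb
    (coord b).toHomeomorph.measurableEmbedding (coord b '' K)
  rw [preimage_image_eq _ (coord b).injective] at h1
  exact h1.symm

lemma lintegral_coord_image {K : Set (EuclideanSpace ℝ (Fin (m + 1)))}
    (f : ℝ × (Fin m → ℝ) → ℝ≥0∞) :
    ∫⁻ p in coord b '' K, f p = ∫⁻ x in K, f (coord b x) := by
  have h1 := (coord_measurePreserving b).setLIntegral_comp_preimage_emb
    (coord b).toHomeomorph.measurableEmbedding f (coord b '' K)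
  rw [preimage_image_eq _ (coord b).injective] at h1
  exact h1.symm

lemma coord_image_seg (K : Set (EuclideanSpace ℝ (Fin (m + 1)))) (t : EuclideanSpace ℝ (Fin (m + 1))) :
    coord b '' (seg K t) = seg (coord b '' K) (coord b t) := by
  ext p
  constructor
  · rintro ⟨_, ⟨x, hx, s, h0, h1, rfl⟩, rfl⟩
    exact ⟨coord b x, ⟨x, hx, rfl⟩, s, h0, h1, by simp⟩
  · rintro ⟨_, ⟨x, hx, rfl⟩, s, h0, h1, rfl⟩
    exact ⟨x + s • t, ⟨x, hx, s, h0, h1, rfl⟩, by simp⟩

lemma coord_symm_image_seg (K : Set (ℝ × (Fin m → ℝ))) (t : ℝ × (Fin m → ℝ)) :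
    (coord b).symm '' (seg K t) = seg ((coord b).symm '' K) ((coord b).symm t) := by
  ext p
  constructor
  · rintro ⟨_, ⟨x, hx, s, h0, h1, rfl⟩, rfl⟩
    exact ⟨(coord b).symm x, ⟨x, hx, rfl⟩, s, h0, h1, by simp⟩
  · rintro ⟨_, ⟨x, hx, rfl⟩, s, h0, h1, rfl⟩
    exact ⟨x + s • t, ⟨x, hx, s, h0, h1, rfl⟩, by simp⟩

/-- a unit vector is the first vector of an orthonormal basis -/
lemma exists_basis {v : EuclideanSpace ℝ (Fin (m + 1))} (hv : ‖v‖ = 1) :
    ∃ b : OrthonormalBasis (Fin (m + 1)) ℝ (EuclideanSpace ℝ (Fin (m + 1))), b 0 = v := by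
  have ho : Orthonormal ℝ (Set.domRestrict ({0} : Set (Fin (m + 1)))
      (fun _ : Fin (m + 1) => v)) := by
    constructor
    · intro i; exact hv
    · intro i j hij
      exact absurd (Subsingleton.elim i j) hij
  obtain ⟨b, hb⟩ := Orthonormal.exists_orthonormalBasis_extension_of_card_eq
    (𝕜 := ℝ) (E := EuclideanSpace ℝ (Fin (m + 1))) (ι := Fin (m + 1)) (by simp) ho
  exact ⟨b, hb 0 rfl⟩

lemma coord_basis : coord b (b 0) = (1, 0) := by
  refine Prod.ext ?_ ?_
  · rw [coord_fst]; simp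
  · funext j
    rw [coord_snd]
    simp

end Pool.Agent.Helper481.RH
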