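import Pool.Agent.Helper481.RHPL

set_option autoImplicit false
open MeasureTheory Set
open scoped ENNReal Pointwise

namespace Pool.Agent.Helper481.RH

open Pool.Agent.Helper481.RHPL

variable {m : ℕ}

/-- the convex combination of two sets -/
def comb (P Q : Set (Fin m → ℝ)) (l : ℝ) : Set (Fin m → ℝ) :=
  {y | ∃ p ∈ P, ∃ q ∈ Q, (1 - l) • p + l • q = y}

lemma comb_eq_image (P Q : Set (Fin m → ℝ)) (l : ℝ) :
    comb P Q l = (fun x : (Fin m → ℝ) × (Fin m → ℝ) => (1 - l) • x.1 + l • x.2) '' (P ×ˢ Q) := by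
  ext y
  simp only [comb, mem_ofPred_eq, mem_image, mem_prod, Prod.exists]
  constructor
  · rintro ⟨p, hp, q, hq, h⟩; exact ⟨p, q, ⟨hp, hq⟩, h⟩
  · rintro ⟨p, q, ⟨hp, hq⟩, h⟩; exact ⟨p, hp, q, hq, h⟩

lemma comb_compact {P Q : Set (Fin m → ℝ)} (hP : IsCompact P) (hQ : IsCompact Q) (l : ℝ) :
    IsCompact (comb P Q l) := by
  rw [comb_eq_image]
  exact (hP.prod hQ).image (by fun_prop)

lemma comb_ge {P Q : Set (Fin m → ℝ)} (hP : IsCompact P) (hQ : IsCompact Q)
    (hPc : Convex ℝ P) (hQc : Convex ℝ Q) (hv : volume P = volume Q) {l : ℝ}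
    (hl0 : 0 ≤ l) (hl1 : l ≤ 1) : volume P ≤ volume (comb P Q l) := by
  by_cases hz : volume P = 0
  · rw [hz]; exact zero_le
  have hPt : volume P ≠ ∞ := hP.measure_lt_top.ne
  have hPne : P.Nonempty := by
    by_contra h
    rw [not_nonempty_iff_eq_empty] at h
    exact hz (by rw [h]; simp)
  have hQne : Q.Nonempty := by
    by_contra h
    rw [not_nonempty_iff_eq_empty] at h
    exact hz (by rw [hv, h]; simp)
  -- midpoint log-concavity
  have hmid : ∀ a b : ℝ, 0 ≤ a → a ≤ 1 → 0 ≤ b → b ≤ 1 →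
      volume (comb P Q a) * volume (comb P Q b) ≤ volume (comb P Q ((a + b) / 2)) ^ 2 := by
    intro a b ha0 ha1 hb0 hb1
    refine bm_pi (comb_compact hP hQ a).measurableSet (comb_compact hP hQ b).measurableSet
      (comb_compact hP hQ _).measurableSet ?_
    rintro _ ⟨p, hp, q, hq, rfl⟩ _ ⟨p', hp', q', hq', rfl⟩
    -- weights
    have h1 : ∃ x ∈ P, (1 - (a + b) / 2) • x = ((1 - a) / 2) • p + ((1 - b) / 2) • p' := by
      by_cases h : a + b = 2
      · refine ⟨p, hp, ?_⟩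
        have e1 : a = 1 := by linarith
        have e2 : b = 1 := by linarith
        subst e1 e2
        norm_num
      · have hpos : 0 < 1 - (a + b) / 2 := by
          rcases lt_or_eq_of_le (show a + b ≤ 2 by linarith) with h2 | h2
          · linarith
          · exact absurd h2 h
        refine ⟨((1 - a) / 2 / (1 - (a + b) / 2)) • p + ((1 - b) / 2 / (1 - (a + b) / 2)) • p',
          hPc hp hp' ?_ ?_ ?_, ?_⟩
        · exact div_nonneg (by linarith) hpos.le
        · exact div_nonneg (by linarith) hpos.le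
        · field_simp; ring
        · rw [smul_add, smul_smul, smul_smul, mul_div_cancel₀ _ hpos.ne',
            mul_div_cancel₀ _ hpos.ne']
    have h2 : ∃ x ∈ Q, ((a + b) / 2) • x = (a / 2) • q + (b / 2) • q' := by
      by_cases h : a + b = 0
      · refine ⟨q, hq, ?_⟩
        have e1 : a = 0 := by linarith
        have e2 : b = 0 := by linarith
        subst e1 e2
        norm_num
      · have hpos : 0 < (a + b) / 2 := by
          rcases lt_or_eq_of_le (show 0 ≤ a + b by linarith) with h2 | h2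
          · linarith
          · exact absurd h2.symm h
        refine ⟨(a / 2 / ((a + b) / 2)) • q + (b / 2 / ((a + b) / 2)) • q',
          hQc hq hq' ?_ ?_ ?_, ?_⟩
        · exact div_nonneg (by linarith) hpos.le
        · exact div_nonneg (by linarith) hpos.le
        · field_simp
        · rw [smul_add, smul_smul, smul_smul, mul_div_cancel₀ _ hpos.ne',
            mul_div_cancel₀ _ hpos.ne']
    obtain ⟨x, hx, hx'⟩ := h1
    obtain ⟨z, hz, hz'⟩ := h2
    refine ⟨x, hx, z, hz, ?_⟩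
    rw [hx', hz']
    ext i
    simp only [Pi.add_apply, Pi.smul_apply, smul_eq_mul]
    ring
  have h0 : comb P Q 0 = P := by
    ext y
    simp only [comb, mem_ofPred_eq, sub_zero, one_smul, zero_smul, add_zero]
    constructor
    · rintro ⟨p, hp, q, hq, rfl⟩; exact hp
    · intro hy; exact ⟨y, hy, hQne.some, hQne.some_mem, rfl⟩
  have h1 : comb P Q 1 = Q := by
    ext y
    simp only [comb, mem_ofPred_eq, sub_self, one_smul, zero_smul, zero_add]
    constructor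
    · rintro ⟨p, hp, q, hq, rfl⟩; exact hq
    · intro hy; exact ⟨hPne.some, hPne.some_mem, y, hy, rfl⟩
  -- the lower bound by 2^-m V
  have hlow : ∀ a : ℝ, 0 ≤ a → a ≤ 1 → ENNReal.ofReal ((1 / 2) ^ m) * volume P ≤ volume (comb P Q a) := by
    intro a ha0 ha1
    rcases le_total a (1 / 2) with h | h
    · obtain ⟨q, hq⟩ := hQne
      have hsub : (fun y => y + a • q) '' ((1 - a) • P) ⊆ comb P Q a := by
        rintro _ ⟨_, ⟨p, hp, rfl⟩, rfl⟩
        exact ⟨p, hp, q, hq, rfl⟩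
      refine le_trans ?_ (measure_mono hsub)
      rw [image_add_right, measure_preimage_add_right, Measure.addHaar_smul]
      gcongr
      rw [Module.finrank_fin_fun, abs_pow, abs_of_nonneg (by linarith : (0:ℝ) ≤ 1 - a)]
      gcongr
      linarith
    · obtain ⟨p, hp⟩ := hPne
      have hsub : (fun y => (1 - a) • p + y) '' (a • Q) ⊆ comb P Q a := by
        rintro _ ⟨_, ⟨q, hq, rfl⟩, rfl⟩
        exact ⟨p, hp, q, hq, rfl⟩
      refine le_trans ?_ (measure_mono hsub)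
      rw [image_add_left, measure_preimage_add, Measure.addHaar_smul, hv]
      gcongr
      rw [Module.finrank_fin_fun, abs_pow, abs_of_nonneg ha0]
      exact pow_le_pow_left₀ (by norm_num) h m
  -- infimum
  set c : ℝ≥0∞ := ⨅ a : Icc (0:ℝ) 1, volume (comb P Q a.1) with hc
  have hc_low : ENNReal.ofReal ((1 / 2) ^ m) * volume P ≤ c := le_iInf fun a => hlow a.1 a.2.1 a.2.2
  have hc_pos : c ≠ 0 := by
    intro h
    rw [h] at hc_low
    have : ENNReal.ofReal ((1 / 2) ^ m) * volume P ≠ 0 := by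
      refine mul_ne_zero ?_ hz
      rw [Ne, ENNReal.ofReal_eq_zero, not_le]
      positivity
    exact this (le_antisymm hc_low zero_le)
  have hc_top : c ≠ ∞ := by
    have : c ≤ volume (comb P Q 0) := iInf_le (fun a : Icc (0:ℝ) 1 => volume (comb P Q a.1)) ⟨0, by simp⟩
    rw [h0] at this
    exact ne_top_of_le_ne_top hPt this
  have hsq : ∀ a : Icc (0:ℝ) 1, volume P * c ≤ volume (comb P Q a.1) ^ 2 := by
    rintro ⟨a, ha0, ha1⟩
    rcases le_total a (1 / 2) with h | h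
    · have h3 := hmid 0 (2 * a) le_rfl (by norm_num) (by linarith) (by linarith)
      rw [show (0 + 2 * a) / 2 = a by ring, h0] at h3
      refine le_trans ?_ h3
      gcongr
      exact iInf_le (fun a : Icc (0:ℝ) 1 => volume (comb P Q a.1)) ⟨2 * a, by constructor <;> linarith⟩
    · have h3 := hmid (2 * a - 1) 1 (by linarith) (by linarith) (by norm_num) le_rfl
      rw [show (2 * a - 1 + 1) / 2 = a by ring, h1, mul_comm, ← hv] at h3
      refine le_trans ?_ h3
      gcongr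
      exact iInf_le (fun a : Icc (0:ℝ) 1 => volume (comb P Q a.1)) ⟨2 * a - 1, by constructor <;> linarith⟩
  have hc2 : volume P * c ≤ c ^ 2 := by
    -- take square roots through toReal
    by_contra hcon
    push Not at hcon
    have : c < (volume P * c) ^ (1 / 2 : ℝ) := by
      have h4 := ENNReal.rpow_lt_rpow hcon (show (0:ℝ) < 1 / 2 by norm_num)
      rw [← ENNReal.rpow_natCast, ← ENNReal.rpow_mul] at h4
      norm_num at h4
      exact h4
    have h5 : (volume P * c) ^ (1 / 2 : ℝ) ≤ c := by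
      refine le_iInf fun a => ?_
      have h4 := ENNReal.rpow_le_rpow (hsq a) (show (0:ℝ) ≤ 1 / 2 by norm_num)
      rw [← ENNReal.rpow_natCast (volume (comb P Q a.1)), ← ENNReal.rpow_mul] at h4
      norm_num at h4
      norm_num
      exact h4
    exact absurd this (not_lt.2 h5)
  have hfin : volume P ≤ c := by
    rw [pow_two] at hc2
    exact (ENNReal.mul_le_mul_iff_left hc_pos hc_top).1 hc2
  exact hfin.trans (iInf_le (fun a : Icc (0:ℝ) 1 => volume (comb P Q a.1)) ⟨l, hl0, hl1⟩)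

/-! ### Fibres -/

/-- the fibre of a set over `y` -/
def fib (A : Set (ℝ × (Fin m → ℝ))) (y : Fin m → ℝ) : Set ℝ := (fun s => (s, y)) ⁻¹' A

lemma mem_fib {A : Set (ℝ × (Fin m → ℝ))} {y : Fin m → ℝ} {s : ℝ} : s ∈ fib A y ↔ (s, y) ∈ A :=
  Iff.rfl

lemma volume_eq_lintegral_fib {A : Set (ℝ × (Fin m → ℝ))} (hA : MeasurableSet A) :
    volume A = ∫⁻ y, volume (fib A y) := by
  rw [Measure.volume_eq_prod, Measure.prod_apply_symm hA]
  rfl

lemma measurable_fib {A : Set (ℝ × (Fin m → ℝ))} (hA : MeasurableSet A) :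
    Measurable (fun y => volume (fib A y)) :=
  measurable_measure_prodMk_right hA

lemma fib_compact {A : Set (ℝ × (Fin m → ℝ))} (hA : IsCompact A) (y : Fin m → ℝ) :
    IsCompact (fib A y) := by
  have h1 : IsCompact (Prod.fst '' (A ∩ {p | p.2 = y})) :=
    (hA.inter_right (isClosed_eq continuous_snd continuous_const)).image continuous_fst
  convert h1 using 1
  ext s
  simp only [mem_fib, mem_image, mem_inter_iff, mem_ofPred_eq, Prod.exists, exists_and_right,
    exists_eq_right]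

lemma fib_convex {A : Set (ℝ × (Fin m → ℝ))} (hA : Convex ℝ A) (y : Fin m → ℝ) :
    Convex ℝ (fib A y) := by
  intro a ha b hb s t hs ht hst
  rw [mem_fib] at *
  have h := hA ha hb hs ht hst
  have e : s • (a, y) + t • (b, y) = (s • a + t • b, y) := by
    ext
    · simp
    · simp only [Prod.smul_mk, Prod.mk_add_mk]
      rw [← add_smul, hst, one_smul]
  rw [e] at h
  exact h

lemma le_volume_fib {A : Set (ℝ × (Fin m → ℝ))} (hA : Convex ℝ A) {y : Fin m → ℝ} {p q : ℝ}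
    (hp : (p, y) ∈ A) (hq : (q, y) ∈ A) : ENNReal.ofReal (q - p) ≤ volume (fib A y) := by
  rw [← Real.volume_Icc]
  exact measure_mono ((fib_convex hA y).ordConnected.out hp hq)

/-- a nonempty fibre of a compact convex set is an interval -/
lemma fib_eq_Icc {A : Set (ℝ × (Fin m → ℝ))} (hAc : IsCompact A) (hA : Convex ℝ A)
    {y : Fin m → ℝ} (hne : (fib A y).Nonempty) :
    ∃ p q, p ≤ q ∧ (p, y) ∈ A ∧ (q, y) ∈ A ∧ fib A y = Icc p q := by
  obtain ⟨p, hp, hpm⟩ := (fib_compact hAc y).exists_isMinOn hne continuousOn_id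
  obtain ⟨q, hq, hqm⟩ := (fib_compact hAc y).exists_isMaxOn hne continuousOn_id
  refine ⟨p, q, hpm hq, hp, hq, ?_⟩
  apply Subset.antisymm
  · intro s hs
    exact ⟨hpm hs, hqm hs⟩
  · exact (fib_convex hA y).ordConnected.out hp hq

/-- the projection to the second factor -/
def proj (A : Set (ℝ × (Fin m → ℝ))) : Set (Fin m → ℝ) := Prod.snd '' A

/-- the convex hull of `A` and of the translate of `B` by `s` in the first coordinate -/
def hull (A B : Set (ℝ × (Fin m → ℝ))) (s : ℝ) : Set (ℝ × (Fin m → ℝ)) :=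
  convexHull ℝ (A ∪ (fun x => x + (s, (0 : Fin m → ℝ))) '' B)

lemma mem_hull {A B : Set (ℝ × (Fin m → ℝ))} {s l : ℝ} (hl0 : 0 ≤ l) (hl1 : l ≤ 1)
    {a b : ℝ × (Fin m → ℝ)} (ha : a ∈ A) (hb : b ∈ B) {y : Fin m → ℝ}
    (hy : (1 - l) • a.2 + l • b.2 = y) :
    (((1 - l) * a.1 + l * b.1) + l * s, y) ∈ hull A B s := by
  have h1 : a ∈ hull A B s := subset_convexHull ℝ _ (Or.inl ha)
  have h2 : b + (s, (0 : Fin m → ℝ)) ∈ hull A B s := subset_convexHull ℝ _ (Or.inr ⟨b, hb, rfl⟩)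
  have h3 := (convex_convexHull ℝ (A ∪ (fun x => x + (s, (0 : Fin m → ℝ))) '' B)) h1 h2
    (show 0 ≤ 1 - l by linarith) hl0 (by ring)
  have e : (((1 - l) * a.1 + l * b.1) + l * s, y) = (1 - l) • a + l • (b + (s, (0 : Fin m → ℝ))) := by
    refine Prod.ext ?_ ?_
    · simp only [Prod.fst_add, Prod.smul_fst, smul_eq_mul]
      ring
    · simp only [Prod.snd_add, Prod.smul_snd, add_zero]
      exact hy.symm
  rw [e]
  exact h3

/-- the pointwise two-translates inequality -/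
lemma fibre_ineq {A B : Set (ℝ × (Fin m → ℝ))} (hA : IsCompact A) (hB : IsCompact B)
    (hAc : Convex ℝ A) (hBc : Convex ℝ B) (hAne : A.Nonempty) (hBne : B.Nonempty)
    {τ : ℝ} (hτ : 0 ≤ τ) (y : Fin m → ℝ) :
    volume (fib A y) + volume (fib B y)
      + ENNReal.ofReal τ * volume {l : ℝ | l ∈ Icc (0:ℝ) 1 ∧ y ∈ comb (proj A) (proj B) l}
      ≤ volume (fib (hull A B 0) y) + volume (fib (hull A B τ) y) := by
  set Λ : Set ℝ := {l : ℝ | l ∈ Icc (0:ℝ) 1 ∧ y ∈ comb (proj A) (proj B) l} with hΛ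
  have hΛc : IsCompact Λ := by
    have h1 : IsCompact ((fun x : ℝ × (ℝ × (Fin m → ℝ)) × (ℝ × (Fin m → ℝ)) => x.1) ''
        ((Icc (0:ℝ) 1 ×ˢ (A ×ˢ B)) ∩ {x | (1 - x.1) • x.2.1.2 + x.1 • x.2.2.2 = y})) := by
      refine IsCompact.image ?_ continuous_fst
      refine (isCompact_Icc.prod (hA.prod hB)).inter_right ?_
      exact isClosed_eq (by fun_prop) continuous_const
    convert h1 using 1
    ext l
    simp only [hΛ, comb, proj, mem_ofPred_eq, mem_image, mem_inter_iff, mem_prod, Prod.exists]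
    constructor
    · rintro ⟨hl, _, ⟨a1, a2, ha, rfl⟩, _, ⟨b1, b2, hb, rfl⟩, h⟩
      exact ⟨l, a1, a2, b1, b2, ⟨⟨hl, ha, hb⟩, h⟩, rfl⟩
    · rintro ⟨l', a1, a2, b1, b2, ⟨⟨hl, ha, hb⟩, h⟩, rfl⟩
      exact ⟨hl, _, ⟨a1, a2, ha, rfl⟩, _, ⟨b1, b2, hb, rfl⟩, h⟩
  have hhc : ∀ s, Convex ℝ (hull A B s) := fun s => convex_convexHull ℝ _
  rcases Λ.eq_empty_or_nonempty with hΛe | hΛne
  · -- nothing above `y`
    have h1 : fib A y = ∅ := by
      rw [eq_empty_iff_forall_notMem]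
      intro s hs
      obtain ⟨b, hb⟩ := hBne
      have : (0:ℝ) ∈ Λ := ⟨by simp, y, ⟨(s, y), hs, rfl⟩, b.2, ⟨b, hb, rfl⟩, by simp⟩
      rw [hΛe] at this
      exact this
    have h2 : fib B y = ∅ := by
      rw [eq_empty_iff_forall_notMem]
      intro s hs
      obtain ⟨a, ha⟩ := hAne
      have : (1:ℝ) ∈ Λ := ⟨by simp, a.2, ⟨a, ha, rfl⟩, y, ⟨(s, y), hs, rfl⟩, by simp⟩
      rw [hΛe] at this
      exact this
    rw [h1, h2, hΛe]
    simp
  obtain ⟨l0, hl0, hl0m⟩ := hΛc.exists_isMinOn hΛne continuousOn_id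
  obtain ⟨l1, hl1, hl1m⟩ := hΛc.exists_isMaxOn hΛne continuousOn_id
  have hl01 : l0 ≤ l1 := hl0m hl1
  have hΛvol : volume Λ ≤ ENNReal.ofReal (l1 - l0) := by
    rw [← Real.volume_Icc]
    exact measure_mono fun l hl => ⟨hl0m hl, hl1m hl⟩
  -- representation at l0
  have hr0 : ∃ a ∈ A, ∃ b ∈ B, ∃ a' ∈ A, ∃ b' ∈ B, (1 - l0) • a.2 + l0 • b.2 = y ∧
      (1 - l0) • a'.2 + l0 • b'.2 = y ∧
      ((1 - l0) * a.1 + l0 * b.1 ≤ (1 - l0) * a'.1 + l0 * b'.1) ∧
      volume (fib A y) ≤ ENNReal.ofReal (((1 - l0) * a'.1 + l0 * b'.1) - ((1 - l0) * a.1 + l0 * b.1)) := by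
    rcases (fib A y).eq_empty_or_nonempty with he | hne
    · obtain ⟨-, _, ⟨a, ha, rfl⟩, _, ⟨b, hb, rfl⟩, h⟩ := hl0
      refine ⟨a, ha, b, hb, a, ha, b, hb, h, h, le_rfl, ?_⟩
      rw [he]; simp
    · obtain ⟨p, q, hpq, hp, hq, hI⟩ := fib_eq_Icc hA hAc hne
      obtain ⟨b, hb⟩ := hBne
      have h0 : l0 = 0 := by
        have : (0:ℝ) ∈ Λ := ⟨by simp, y, ⟨(p, y), hp, rfl⟩, b.2, ⟨b, hb, rfl⟩, by simp⟩
        exact le_antisymm (hl0m this) hl0.1.1
      refine ⟨(p, y), hp, b, hb, (q, y), hq, b, hb, ?_, ?_, ?_, ?_⟩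
      · rw [h0]; simp
      · rw [h0]; simp
      · rw [h0]; simpa using hpq
      · rw [h0, hI, Real.volume_Icc]; simp
  have hr1 : ∃ a ∈ A, ∃ b ∈ B, ∃ a' ∈ A, ∃ b' ∈ B, (1 - l1) • a.2 + l1 • b.2 = y ∧
      (1 - l1) • a'.2 + l1 • b'.2 = y ∧
      ((1 - l1) * a.1 + l1 * b.1 ≤ (1 - l1) * a'.1 + l1 * b'.1) ∧
      volume (fib B y) ≤ ENNReal.ofReal (((1 - l1) * a'.1 + l1 * b'.1) - ((1 - l1) * a.1 + l1 * b.1)) := by
    rcases (fib B y).eq_empty_or_nonempty with he | hne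
    · obtain ⟨-, _, ⟨a, ha, rfl⟩, _, ⟨b, hb, rfl⟩, h⟩ := hl1
      refine ⟨a, ha, b, hb, a, ha, b, hb, h, h, le_rfl, ?_⟩
      rw [he]; simp
    · obtain ⟨p, q, hpq, hp, hq, hI⟩ := fib_eq_Icc hB hBc hne
      obtain ⟨a, ha⟩ := hAne
      have h0 : l1 = 1 := by
        have : (1:ℝ) ∈ Λ := ⟨by simp, a.2, ⟨a, ha, rfl⟩, y, ⟨(p, y), hp, rfl⟩, by simp⟩
        exact le_antisymm hl1.1.2 (hl1m this)
      refine ⟨a, ha, (p, y), hp, a, ha, (q, y), hq, ?_, ?_, ?_, ?_⟩
      · rw [h0]; simp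
      · rw [h0]; simp
      · rw [h0]; simpa using hpq
      · rw [h0, hI, Real.volume_Icc]; simp
  obtain ⟨a, ha, b, hb, a', ha', b', hb', e1, e2, hle, hvA⟩ := hr0
  obtain ⟨c, hc, d, hd, c', hc', d', hd', e3, e4, hle', hvB⟩ := hr1
  set p0 := (1 - l0) * a.1 + l0 * b.1
  set q0 := (1 - l0) * a'.1 + l0 * b'.1
  set p1 := (1 - l1) * c.1 + l1 * d.1
  set q1 := (1 - l1) * c'.1 + l1 * d'.1
  have m1 : (q0 + l0 * 0, y) ∈ hull A B 0 := mem_hull hl0.1.1 hl0.1.2 ha' hb' e2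
  have m2 : (p1 + l1 * 0, y) ∈ hull A B 0 := mem_hull hl1.1.1 hl1.1.2 hc hd e3
  have m3 : (q1 + l1 * τ, y) ∈ hull A B τ := mem_hull hl1.1.1 hl1.1.2 hc' hd' e4
  have m4 : (p0 + l0 * τ, y) ∈ hull A B τ := mem_hull hl0.1.1 hl0.1.2 ha hb e1
  have v1 := le_volume_fib (hhc 0) m2 m1
  have v2 := le_volume_fib (hhc τ) m4 m3
  have hsum : ENNReal.ofReal (q0 - p0) + ENNReal.ofReal (q1 - p1) + ENNReal.ofReal (τ * (l1 - l0))
      ≤ ENNReal.ofReal (q0 + l0 * 0 - (p1 + l1 * 0)) + ENNReal.ofReal (q1 + l1 * τ - (p0 + l0 * τ)) := by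
    rw [← ENNReal.ofReal_add (by linarith) (by linarith), ← ENNReal.ofReal_add (by linarith)
      (mul_nonneg hτ (by linarith))]
    refine le_trans (ENNReal.ofReal_le_ofReal (le_of_eq ?_)) ENNReal.ofReal_add_le
    ring
  calc volume (fib A y) + volume (fib B y) + ENNReal.ofReal τ * volume Λ
      ≤ ENNReal.ofReal (q0 - p0) + ENNReal.ofReal (q1 - p1) + ENNReal.ofReal τ * ENNReal.ofReal (l1 - l0) := by
        gcongr
    _ = ENNReal.ofReal (q0 - p0) + ENNReal.ofReal (q1 - p1) + ENNReal.ofReal (τ * (l1 - l0)) := by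
        rw [ENNReal.ofReal_mul hτ]
    _ ≤ _ := hsum.trans (add_le_add v1 v2)

end Pool.Agent.Helper481.RH
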