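import Pool.Agent.Helper481.RHCoord

set_option autoImplicit false
open MeasureTheory Set Module Filter Topology Metric TopologicalSpace
open scoped ENNReal RealInnerProductSpace

namespace Pool.Agent.Helper481.RH

variable {E : Type*} [NormedAddCommGroup E] [InnerProductSpace ℝ E] [FiniteDimensional ℝ E]
  [MeasurableSpace E] [BorelSpace E]

omit [FiniteDimensional ℝ E] [MeasurableSpace E] [BorelSpace E] in
/-- points well inside a set are in every close convex compact set -/
lemma mem_of_close {L M : Set E} (hM : IsCompact M) (hMc : Convex ℝ M) (hMne : M.Nonempty)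
    {δ δ' : ℝ} (hδ' : 0 < δ') (hδ : δ < δ') (h : ∀ x ∈ L, ∃ y ∈ M, dist x y ≤ δ) {z : E}
    (hz : closedBall z δ' ⊆ L) : z ∈ M := by
  by_contra hzM
  obtain ⟨p, hp, hpm⟩ := hM.exists_isMinOn hMne (f := fun w => ‖z - w‖) (by fun_prop)
  have hinf : ‖z - p‖ = ⨅ w : M, ‖z - w‖ := by
    have : Nonempty M := hMne.to_subtype
    refine le_antisymm (le_ciInf fun w => hpm w.2) ?_
    exact ciInf_le ⟨0, by rintro _ ⟨w, rfl⟩; exact norm_nonneg _⟩ (⟨p, hp⟩ : M)
  have hle := (norm_eq_iInf_iff_real_inner_le_zero hMc hp).1 hinf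
  have hne : z - p ≠ 0 := by
    intro h0
    rw [sub_eq_zero] at h0
    exact hzM (h0 ▸ hp)
  have hpos : 0 < ‖z - p‖ := norm_pos_iff.2 hne
  set w : E := (‖z - p‖)⁻¹ • (z - p) with hw
  have hwn : ‖w‖ = 1 := by
    rw [hw, norm_smul, norm_inv, norm_norm, inv_mul_cancel₀ hpos.ne']
  have hx : z + δ' • w ∈ L := by
    apply hz
    rw [mem_closedBall, dist_eq_norm, add_sub_cancel_left, norm_smul, hwn, mul_one,
      Real.norm_eq_abs, abs_of_nonneg hδ'.le]
  obtain ⟨y, hy, hd⟩ := h _ hx
  have h1 : ⟪w, y - p⟫ ≤ 0 := by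
    rw [hw, real_inner_smul_left]
    exact mul_nonpos_of_nonneg_of_nonpos (by positivity) (hle y hy)
  have h2 : ⟪w, z + δ' • w - y⟫ = ‖z - p‖ + δ' - ⟪w, y - p⟫ := by
    have e : z + δ' • w - y = (z - p) + δ' • w - (y - p) := by abel
    rw [e, inner_sub_right, inner_add_right, real_inner_smul_right, real_inner_self_eq_norm_sq,
      hwn]
    have h3 : ⟪w, z - p⟫ = ‖z - p‖ := by
      rw [hw, real_inner_smul_left, real_inner_self_eq_norm_sq, pow_two, ← mul_assoc,
        inv_mul_cancel₀ hpos.ne', one_mul]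
    rw [h3]; ring
  have h4 : ⟪w, z + δ' • w - y⟫ ≤ ‖z + δ' • w - y‖ := by
    have := real_inner_le_norm w (z + δ' • w - y)
    rwa [hwn, one_mul] at this
  rw [← dist_eq_norm] at h4
  linarith

/-- Fatou's lemma along sets which eventually contain interior points of a convex set -/
lemma lintegral_le_liminf {K : Set E} (hKc : Convex ℝ K) {L : ℕ → Set E}
    (hL : ∀ n, MeasurableSet (L n)) (h : ∀ z ∈ interior K, ∀ᶠ n in atTop, z ∈ L n)
    {f : E → ℝ≥0∞} (hf : Measurable f) :
    ∫⁻ x in K, f x ≤ liminf (fun n => ∫⁻ x in L n, f x) atTop := by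
  have h1 : ∫⁻ x in K, f x = ∫⁻ x in interior K, f x := by
    refine le_antisymm ?_ (lintegral_mono_set interior_subset)
    have h2 : K ⊆ interior K ∪ frontier K := by
      intro x hx
      by_cases hxi : x ∈ interior K
      · exact Or.inl hxi
      · exact Or.inr ⟨subset_closure hx, hxi⟩
    calc ∫⁻ x in K, f x ≤ ∫⁻ x in interior K ∪ frontier K, f x := lintegral_mono_set h2
      _ ≤ (∫⁻ x in interior K, f x) + (∫⁻ x in frontier K, f x) := lintegral_union_le _ _ _
      _ = ∫⁻ x in interior K, f x := by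
        rw [setLIntegral_measure_zero _ _ (hKc.addHaar_frontier volume), add_zero]
  rw [h1, ← lintegral_indicator isOpen_interior.measurableSet]
  calc ∫⁻ x, (interior K).indicator f x ≤ ∫⁻ x, liminf (fun n => (L n).indicator f x) atTop := by
        refine lintegral_mono fun x => ?_
        by_cases hx : x ∈ interior K
        · rw [indicator_of_mem hx]
          refine le_liminf_of_le ?_ ?_
          · isBoundedDefault
          · filter_upwards [h x hx] with n hn
            rw [indicator_of_mem hn]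
        · rw [indicator_of_notMem hx]; exact zero_le
    _ ≤ liminf (fun n => ∫⁻ x, (L n).indicator f x) atTop :=
        lintegral_liminf_le fun n => hf.indicator (hL n)
    _ = liminf (fun n => ∫⁻ x in L n, f x) atTop := by
        congr 1
        ext n
        rw [lintegral_indicator (hL n)]

/-- the translative hull property -/
def PropA (K : Set E) (A : ℝ≥0∞) : Prop := ∀ x ∈ K, ∀ t, x + t ∈ K → volume (seg K t) ≤ A

/-- the class in which the second moment is minimised -/
def Cls (E : Type*) [NormedAddCommGroup E] [InnerProductSpace ℝ E] [FiniteDimensional ℝ E]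
    [MeasurableSpace E] [BorelSpace E] (R : ℝ) (V A : ℝ≥0∞) : Set (NonemptyCompacts E) :=
  {L | (L : Set E) ⊆ closedBall 0 R ∧ Convex ℝ (L : Set E) ∧ V ≤ volume (L : Set E) ∧
    PropA (L : Set E) A}

/-- the second moment -/
noncomputable def mom (K : Set E) : ℝ≥0∞ := ∫⁻ x in K, ENNReal.ofReal (‖x‖ ^ 2)

theorem exists_min {R : ℝ} {V A : ℝ≥0∞} (hne : (Cls E R V A).Nonempty) :
    ∃ L ∈ Cls E R V A, ∀ M ∈ Cls E R V A, mom (L : Set E) ≤ mom (M : Set E) := by
  have : ProperSpace E := FiniteDimensional.proper_real E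
  set S : Set ℝ≥0∞ := (fun M : NonemptyCompacts E => mom (M : Set E)) '' Cls E R V A with hS
  have hSne : S.Nonempty := hne.image _
  obtain ⟨u, -, hu, huS⟩ := exists_seq_tendsto_sInf hSne (OrderBot.bddBelow S)
  choose L hL hLu using huS
  have hcpt : IsCompact {M : NonemptyCompacts E | (M : Set E) ⊆ closedBall (0 : E) R} :=
    NonemptyCompacts.isCompact_subsets_of_isCompact (isCompact_closedBall 0 R)
  obtain ⟨K, hK, φ, hφ, hlim⟩ := hcpt.tendsto_subseq (x := L) (fun n => (hL n).1)
  have hdist : Tendsto (fun n => dist (L (φ n)) K) atTop (𝓝 0) := by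
    have := tendsto_iff_dist_tendsto_zero.1 hlim
    exact this
  have hfin : ∀ n, hausdorffEDist (L (φ n) : Set E) K ≠ ⊤ := fun n =>
    hausdorffEDist_ne_top_of_nonempty_of_bounded (L (φ n)).nonempty K.nonempty
      (L (φ n)).isCompact.isBounded K.isCompact.isBounded
  -- approximations
  have happ : ∀ δ : ℝ, 0 < δ → ∀ᶠ n in atTop, (∀ x ∈ (K : Set E), ∃ y ∈ (L (φ n) : Set E),
      dist x y ≤ δ) ∧ (∀ y ∈ (L (φ n) : Set E), ∃ x ∈ (K : Set E), dist x y ≤ δ) := by
    intro δ hδ
    filter_upwards [hdist.eventually_lt_const hδ] with n hn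
    rw [NonemptyCompacts.dist_eq] at hn
    constructor
    · intro x hx
      obtain ⟨y, hy, h⟩ := exists_dist_lt_of_hausdorffDist_lt' hx hn (hfin n)
      exact ⟨y, hy, by rw [dist_comm]; exact h.le⟩
    · intro y hy
      obtain ⟨x, hx, h⟩ := exists_dist_lt_of_hausdorffDist_lt hy hn (hfin n)
      exact ⟨x, hx, by rw [dist_comm]; exact h.le⟩
  have hKcl : IsClosed (K : Set E) := K.isCompact.isClosed
  -- convexity
  have hKconv : Convex ℝ (K : Set E) := by
    intro x hx y hy a b ha hb hab
    rw [← hKcl.closure_eq, Metric.mem_closure_iff]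
    intro ε hε
    obtain ⟨n, h1, h2⟩ := (happ (ε / 4) (by positivity)).exists
    obtain ⟨x', hx', hxx⟩ := h1 x hx
    obtain ⟨y', hy', hyy⟩ := h1 y hy
    obtain ⟨z, hz, hzz⟩ := h2 _ ((hL (φ n)).2.1 hx' hy' ha hb hab)
    refine ⟨z, hz, ?_⟩
    have h3 : dist (a • x + b • y) (a • x' + b • y') ≤ ε / 4 + ε / 4 := by
      refine (dist_add_add_le _ _ _ _).trans ?_
      rw [dist_smul₀, dist_smul₀, Real.norm_eq_abs, Real.norm_eq_abs, abs_of_nonneg ha,
        abs_of_nonneg hb]
      have ha1 : a ≤ 1 := by linarith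
      have hb1 : b ≤ 1 := by linarith
      have := dist_nonneg (x := x) (y := x')
      have := dist_nonneg (x := y) (y := y')
      nlinarith
    have h4 := dist_triangle (a • x + b • y) (a • x' + b • y') z
    rw [dist_comm (a • x' + b • y') z] at h4
    linarith
  -- volume
  have hVK : V ≤ volume (K : Set E) := by
    have ht := (tendsto_measure_cthickening_of_isCompact (μ := (volume : Measure E))
      K.isCompact).mono_left (nhdsWithin_le_nhds (s := Ioi 0))
    refine ge_of_tendsto ht ?_
    filter_upwards [self_mem_nhdsWithin] with r hr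
    obtain ⟨n, h1, h2⟩ := (happ r hr).exists
    refine (hL (φ n)).2.2.1.trans (measure_mono fun y hy => ?_)
    obtain ⟨x, hx, hxy⟩ := h2 y hy
    exact mem_cthickening_of_dist_le y x r _ hx (by rw [dist_comm]; exact hxy)
  -- the translative hull property
  have hKA : PropA (K : Set E) A := by
    intro x hx t hxt
    -- approximating points
    have hp : ∀ n, ∃ x' ∈ (L (φ n) : Set E), ∃ y' ∈ (L (φ n) : Set E), dist x x' ≤ infDist x (L (φ n)) + 0 ∧
        dist (x + t) y' ≤ infDist (x + t) (L (φ n)) + 0 := by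
      intro n
      obtain ⟨x', hx', e1⟩ := (L (φ n)).isCompact.exists_infDist_eq_dist (L (φ n)).nonempty x
      obtain ⟨y', hy', e2⟩ := (L (φ n)).isCompact.exists_infDist_eq_dist (L (φ n)).nonempty (x + t)
      exact ⟨x', hx', y', hy', by rw [e1, add_zero], by rw [e2, add_zero]⟩
    choose x' hx' y' hy' hxd hyd using hp
    have hev : ∀ z ∈ interior (seg (K : Set E) t), ∀ᶠ n in atTop,
        z ∈ seg (L (φ n) : Set E) (y' n - x' n) := by
      intro z hz
      obtain ⟨r, hr, hrs⟩ := Metric.mem_nhds_iff.1 (mem_interior_iff_mem_nhds.1 hz)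
      filter_upwards [happ (r / 8) (by positivity)] with n hn
      obtain ⟨h1, h2⟩ := hn
      have hdx : dist x (x' n) ≤ r / 8 := by
        obtain ⟨y, hy, hd⟩ := h1 x hx
        have := infDist_le_dist_of_mem (x := x) hy
        linarith [hxd n]
      have hdy : dist (x + t) (y' n) ≤ r / 8 := by
        obtain ⟨y, hy, hd⟩ := h1 (x + t) hxt
        have := infDist_le_dist_of_mem (x := x + t) hy
        linarith [hyd n]
      refine mem_of_close (seg_compact (L (φ n)).isCompact _) (seg_convex (hL (φ n)).2.1 _)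
        ((L (φ n)).nonempty.mono (subset_seg _ _)) (δ := 3 * (r / 8)) (δ' := r / 2) (by positivity)
        (by linarith) ?_ ((closedBall_subset_ball (by linarith)).trans hrs)
      rintro _ ⟨w, hw, s, hs0, hs1, rfl⟩
      obtain ⟨w', hw', hd⟩ := h1 w hw
      refine ⟨w' + s • (y' n - x' n), ⟨w', hw', s, hs0, hs1, rfl⟩, ?_⟩
      have h3 : dist t (y' n - x' n) ≤ 2 * (r / 8) := by
        have e : t - (y' n - x' n) = ((x + t) - y' n) - (x - x' n) := by abel
        rw [dist_eq_norm, e]
        refine (norm_sub_le _ _).trans ?_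
        rw [← dist_eq_norm, ← dist_eq_norm]
        linarith
      refine (dist_add_add_le _ _ _ _).trans ?_
      rw [dist_smul₀, Real.norm_eq_abs, abs_of_nonneg hs0]
      have := dist_nonneg (x := t) (y := y' n - x' n)
      nlinarith
    have hF := lintegral_le_liminf (seg_convex hKconv t)
      (fun n => (seg_compact (L (φ n)).isCompact (y' n - x' n)).measurableSet) hev
      (f := fun _ => 1) measurable_const
    simp only [setLIntegral_one] at hF
    refine hF.trans ?_
    refine liminf_le_of_le (by isBoundedDefault) ?_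
    intro c hc
    obtain ⟨n, hn⟩ := hc.exists
    refine hn.trans ((hL (φ n)).2.2.2 (x' n) (hx' n) _ ?_)
    rw [add_sub_cancel]
    exact hy' n
  refine ⟨K, ⟨hK, hKconv, hVK, hKA⟩, fun M hM => ?_⟩
  have hev : ∀ z ∈ interior (K : Set E), ∀ᶠ n in atTop, z ∈ (L (φ n) : Set E) := by
    intro z hz
    obtain ⟨r, hr, hrs⟩ := Metric.mem_nhds_iff.1 (mem_interior_iff_mem_nhds.1 hz)
    filter_upwards [happ (r / 8) (by positivity)] with n hn
    exact mem_of_close (L (φ n)).isCompact (hL (φ n)).2.1 (L (φ n)).nonempty (δ' := r / 2)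
      (by positivity) (by linarith) hn.1 ((closedBall_subset_ball (by linarith)).trans hrs)
  have hF := lintegral_le_liminf hKconv
    (fun n => (L (φ n)).isCompact.measurableSet) hev
    (f := fun x => ENNReal.ofReal (‖x‖ ^ 2)) (by fun_prop)
  have hlimM : Tendsto (fun n => mom (L (φ n) : Set E)) atTop (𝓝 (sInf S)) := by
    have h1 : Tendsto (fun n => u (φ n)) atTop (𝓝 (sInf S)) := hu.comp hφ.tendsto_atTop
    refine h1.congr fun n => ?_
    exact (hLu (φ n)).symm
  have h2 : mom (K : Set E) ≤ sInf S := by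
    refine hF.trans (le_of_eq ?_)
    exact hlimM.liminf_eq
  exact h2.trans (sInf_le ⟨M, hM, rfl⟩)

end Pool.Agent.Helper481.RH
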