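import Pool.Agent.Helper481.RHTrans

set_option autoImplicit false
open MeasureTheory Set Module Filter Topology Metric TopologicalSpace
open scoped ENNReal RealInnerProductSpace

namespace Pool.Agent.Helper481.RH

variable {m : ℕ}

/-- indices `1, ..., i` -/
def idx {i : ℕ} (hi : i ≤ m) (j : Fin i) : Fin (m + 1) := (Fin.castLE hi j).succ

lemma idx_injective {i : ℕ} (hi : i ≤ m) : Function.Injective (idx hi) := by
  intro a b h
  exact Fin.castLE_injective hi (Fin.succ_injective _ h)

lemma idx_ne_zero {i : ℕ} (hi : i ≤ m) (j : Fin i) : idx hi j ≠ 0 := Fin.succ_ne_zero _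

variable (b : OrthonormalBasis (Fin (m + 1)) ℝ (EuclideanSpace ℝ (Fin (m + 1))))

/-- the span of `b 1, ..., b i` -/
def L0 {i : ℕ} (hi : i ≤ m) : Submodule ℝ (EuclideanSpace ℝ (Fin (m + 1))) :=
  Submodule.span ℝ (range (fun j => b (idx hi j)))

lemma finrank_L0 {i : ℕ} (hi : i ≤ m) : finrank ℝ (L0 b hi) = i := by
  have h := (b.orthonormal.comp (idx hi) (idx_injective hi)).linearIndependent
  have h2 := finrank_span_eq_card h
  rw [Fintype.card_fin] at h2
  exact h2

lemma refl_mem {i : ℕ} (hi : i ≤ m) {k : Fin (m + 1)} (hk : k ∈ range (idx hi)) :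
    (L0 b hi).reflection (b k) = b k := by
  apply Submodule.reflection_mem_subspace_eq_self
  obtain ⟨j, rfl⟩ := hk
  exact Submodule.subset_span ⟨j, rfl⟩

lemma refl_notMem {i : ℕ} (hi : i ≤ m) {k : Fin (m + 1)} (hk : k ∉ range (idx hi)) :
    (L0 b hi).reflection (b k) = -b k := by
  apply Submodule.reflection_mem_subspace_orthogonalComplement_eq_neg
  rw [Submodule.mem_orthogonal]
  intro u hu
  induction hu using Submodule.span_induction with
  | mem x hx =>
    obtain ⟨j, rfl⟩ := hx
    have hne : idx hi j ≠ k := fun h => hk ⟨j, h⟩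
    exact b.orthonormal.2 hne
  | zero => simp
  | add x y _ _ hx hy => rw [inner_add_left, hx, hy, add_zero]
  | smul a x _ hx => rw [inner_smul_left, hx, mul_zero]

open Classical in
/-- the signs -/
noncomputable def sg {i : ℕ} (hi : i ≤ m) (j : Fin m) : ℝ := if j.succ ∈ range (idx hi) then 1 else -1

lemma refl_coord {i : ℕ} (hi : i ≤ m) (x : EuclideanSpace ℝ (Fin (m + 1))) :
    coord b ((L0 b hi).reflection x) = (-(coord b x).1, fun j => sg hi j * (coord b x).2 j) := by
  have key : ∀ k, ⟪b k, (L0 b hi).reflection x⟫ = ⟪(L0 b hi).reflection (b k), x⟫ := by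
    intro k
    rw [← (L0 b hi).reflection.inner_map_map ((L0 b hi).reflection (b k)) x,
      Submodule.reflection_reflection]
  refine Prod.ext ?_ ?_
  · simp only
    rw [coord_fst, coord_fst, key, refl_notMem b hi (by
      rintro ⟨j, hj⟩; exact idx_ne_zero hi j hj), inner_neg_left]
  · funext j
    simp only
    rw [coord_snd, coord_snd, key]
    unfold sg
    split_ifs with h
    · rw [refl_mem b hi h, one_mul]
    · rw [refl_notMem b hi h, inner_neg_left, neg_one_mul]

lemma sg_measurePreserving {i : ℕ} (hi : i ≤ m) :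
    MeasurePreserving (fun (y : Fin m → ℝ) (j : Fin m) => sg hi j * y j) volume volume := by
  refine volume_preserving_pi (f := fun j (s : ℝ) => sg hi j * s) fun j => ?_
  unfold sg
  split_ifs with h
  · simp only [one_mul]; exact MeasurePreserving.id _
  · simp only [neg_one_mul]; exact Measure.measurePreserving_neg _

/-- volume of the image under the sign change followed by a translation -/
lemma volume_sg_image {i : ℕ} (hi : i ≤ m) {P : Set (Fin m → ℝ)} (hP : IsCompact P)
    (c : Fin m → ℝ) :
    volume ((fun y : Fin m → ℝ => (fun j => sg hi j * y j) + c) '' P) = volume P := by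
  have hinv : ∀ j, sg hi j * sg hi j = 1 := by
    intro j; unfold sg; split_ifs <;> norm_num
  have h1 : (fun y : Fin m → ℝ => (fun j => sg hi j * y j) + c) '' P
      = (fun y => y + (-c)) ⁻¹' ((fun (y : Fin m → ℝ) (j : Fin m) => sg hi j * y j) ⁻¹' P) := by
    ext z
    simp only [mem_image, mem_preimage]
    constructor
    · rintro ⟨y, hy, rfl⟩
      have : (fun j => sg hi j * (((fun j => sg hi j * y j) + c + (-c) : Fin m → ℝ) j)) = y := by
        funext j
        simp only [Pi.add_apply, Pi.neg_apply]
        rw [show sg hi j * (sg hi j * y j + c j + -c j) = (sg hi j * sg hi j) * y j by ring, hinv,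
          one_mul]
      rw [this]; exact hy
    · intro hz
      refine ⟨_, hz, ?_⟩
      funext j
      simp only [Pi.add_apply, Pi.neg_apply]
      rw [show sg hi j * (sg hi j * (z j + -c j)) + c j = (sg hi j * sg hi j) * (z j + -c j) + c j by ring,
        hinv]
      ring
  rw [h1, measure_preimage_add_right]
  exact (sg_measurePreserving hi).measure_preimage hP.measurableSet.nullMeasurableSet

lemma reflection_congr {U V : Submodule ℝ (EuclideanSpace ℝ (Fin (m + 1)))} (h : U = V)
    (z : EuclideanSpace ℝ (Fin (m + 1))) : U.reflection z = V.reflection z := by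
  subst h; rfl

lemma reflection_mk' (p : EuclideanSpace ℝ (Fin (m + 1)))
    (U : Submodule ℝ (EuclideanSpace ℝ (Fin (m + 1)))) [Nonempty (AffineSubspace.mk' p U)]
    (z : EuclideanSpace ℝ (Fin (m + 1))) :
    EuclideanGeometry.reflection (AffineSubspace.mk' p U) z = U.reflection (z - p) + p := by
  rw [EuclideanGeometry.reflection_apply_of_mem _ z (AffineSubspace.self_mem_mk' p U)]
  rw [reflection_congr (AffineSubspace.direction_mk' p U)]
  rfl

/-- **Reflection hulls dominate translative hulls.** -/
theorem refl_ineq {K : Set (EuclideanSpace ℝ (Fin (m + 1)))} (hK : IsCompact K)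
    (hKc : Convex ℝ K) {x t : EuclideanSpace ℝ (Fin (m + 1))} (hx : x ∈ K) (hxt : x + t ∈ K)
    {i : ℕ} (hi : i ≤ m) :
    ∃ L : AffineSubspace ℝ (EuclideanSpace ℝ (Fin (m + 1))), ∃ _ : Nonempty L,
      finrank ℝ L.direction = i ∧ ((L : Set (EuclideanSpace ℝ (Fin (m + 1)))) ∩ K).Nonempty ∧
      volume (seg K t) ≤ volume (convexHull ℝ (K ∪ EuclideanGeometry.reflection L '' K)) := by
  -- a unit vector in the direction of `t`
  obtain ⟨e, he, het⟩ : ∃ e : EuclideanSpace ℝ (Fin (m + 1)), ‖e‖ = 1 ∧ t = ‖t‖ • e := by
    by_cases h0 : t = 0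
    · exact ⟨(EuclideanSpace.basisFun (Fin (m + 1)) ℝ) 0, norm_first, by rw [h0]; simp⟩
    · have hpos : 0 < ‖t‖ := norm_pos_iff.2 h0
      refine ⟨(‖t‖)⁻¹ • t, ?_, ?_⟩
      · rw [norm_smul, norm_inv, norm_norm, inv_mul_cancel₀ hpos.ne']
      · rw [smul_smul, mul_inv_cancel₀ hpos.ne', one_smul]
  obtain ⟨b, hb⟩ := exists_basis he
  set ℓ := ‖t‖ with hℓ
  have hℓ0 : 0 ≤ ℓ := norm_nonneg _
  have hct : coord b t = (ℓ, 0) := by
    rw [het, map_smul, ← hb, coord_basis]; simp
  set r := (L0 b hi).reflection with hr
  have hrt : r t = -t := by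
    rw [het, map_smul, ← hb, hr, refl_notMem b hi (by
      rintro ⟨j, hj⟩; exact idx_ne_zero hi j hj), smul_neg]
  set A : Set (ℝ × (Fin m → ℝ)) := coord b '' K with hA
  set f1 : EuclideanSpace ℝ (Fin (m + 1)) → EuclideanSpace ℝ (Fin (m + 1)) :=
    fun z => r (z - x) + x with hf1
  set B : Set (ℝ × (Fin m → ℝ)) := coord b '' (f1 '' K) with hB
  have hAc : IsCompact A := hK.image (coord b).continuous
  have hAconv : Convex ℝ A := hKc.linear_image (coord b).toLinearEquiv.toLinearMap
  have hf1c : Continuous f1 := by
    rw [hf1]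
    exact (r.continuous.comp (continuous_id.sub continuous_const)).add continuous_const
  have hKf : IsCompact (f1 '' K) := hK.image hf1c
  have hKfc : Convex ℝ (f1 '' K) := by
    have e1 : f1 '' K = (fun z => (x - r x) + z) '' (r.toLinearEquiv.toLinearMap '' K) := by
      rw [image_image]
      congr 1
      funext z
      simp only [hf1, map_sub]
      show r z - r x + x = x - r x + r z
      abel
    rw [e1]
    exact (hKc.linear_image r.toLinearEquiv.toLinearMap).translate _
  have hBc : IsCompact B := hKf.image (coord b).continuous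
  have hBconv : Convex ℝ B := hKfc.linear_image (coord b).toLinearEquiv.toLinearMap
  have hAne : A.Nonempty := ⟨_, x, hx, rfl⟩
  have hBne : B.Nonempty := ⟨_, _, ⟨x, hx, rfl⟩, rfl⟩
  have hvf : volume (f1 '' K) = volume K := by
    have e1 : f1 '' K = (fun z => z + (x - r x)) '' (r '' K) := by
      rw [image_image]
      congr 1
      funext z
      simp only [hf1, map_sub]
      abel
    rw [e1, image_add_right, measure_preimage_add_right]
    have h2 := r.measurePreserving.measure_preimage_emb r.toHomeomorph.measurableEmbedding (r '' K)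
    rw [preimage_image_eq _ r.injective] at h2
    exact h2.symm
  have hvA : volume A = volume K := volume_coord_image b
  have hvB : volume B = volume K := by rw [hB, volume_coord_image, hvf]
  have hproj : volume (proj A) = volume (proj B) := by
    have e1 : proj B = (fun y : Fin m → ℝ => (fun j => sg hi j * y j)
        + ((coord b x).2 - fun j => sg hi j * (coord b x).2 j)) '' (proj A) := by
      rw [proj, proj, hA, hB, image_image, image_image, image_image, image_image]
      congr 1
      funext z
      simp only [hf1, map_add, map_sub]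
      rw [hr, refl_coord, refl_coord]
      funext j
      simp only [Prod.snd_add, Prod.snd_sub, Pi.add_apply, Pi.sub_apply]
      ring
    rw [e1, volume_sg_image hi (proj_compact hAc)]
  have hmain := hull_ineq hAc hBc hAconv hBconv hAne hBne hproj (τ := 2 * ℓ) (by positivity)
  have hseg : volume (seg K t) = volume K + ENNReal.ofReal ℓ * volume (proj A) := by
    rw [← volume_coord_image b, coord_image_seg, hct, volume_seg hAc hAconv hℓ0, hvA]
  have hsum : 2 * volume (seg K t) ≤ volume (hull A B 0) + volume (hull A B (2 * ℓ)) := by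
    refine le_trans (le_of_eq ?_) hmain
    rw [hseg, hvA, hvB, ENNReal.ofReal_mul (by norm_num)]
    simp only [ENNReal.ofReal_ofNat]
    ring
  -- the two hulls
  have himg : ∀ s : ℝ, ∀ S : Set (EuclideanSpace ℝ (Fin (m + 1))),
      coord b '' S = (fun p => p + (s, (0 : Fin m → ℝ))) '' B →
      volume (convexHull ℝ (K ∪ S)) = volume (hull A B s) := by
    intro s S hS
    rw [← volume_coord_image b]
    congr 1
    have h1 := ((coord b).toLinearEquiv.toLinearMap).image_convexHull (K ∪ S)
    have h2 : (coord b : EuclideanSpace ℝ (Fin (m + 1)) → ℝ × (Fin m → ℝ)) '' (convexHull ℝ (K ∪ S))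
        = convexHull ℝ ((coord b) '' (K ∪ S)) := h1
    rw [h2, image_union, hS]
    rfl
  rcases le_total (volume (seg K t)) (volume (hull A B 0)) with h0 | h0
  · refine ⟨AffineSubspace.mk' x (L0 b hi), ⟨⟨x, AffineSubspace.self_mem_mk' _ _⟩⟩, ?_, ?_, ?_⟩
    · rw [AffineSubspace.direction_mk', finrank_L0]
    · exact ⟨x, AffineSubspace.self_mem_mk' _ _, hx⟩
    · refine h0.trans (le_of_eq ?_)
      symm
      apply himg
      rw [image_image, hB, image_image, image_image]
      congr 1
      funext z
      rw [reflection_mk', hf1]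
      show coord b (r (z - x) + x) = coord b (r (z - x) + x) + (0, 0)
      simp
  · have h1 : volume (seg K t) ≤ volume (hull A B (2 * ℓ)) := by
      have hfin : volume (seg K t) ≠ ∞ := (seg_compact hK t).measure_lt_top.ne
      by_contra hcon
      push Not at hcon
      have h2 : volume (hull A B 0) + volume (hull A B (2 * ℓ)) < volume (seg K t) + volume (seg K t) :=
        ENNReal.add_lt_add_of_le_of_lt (ne_top_of_le_ne_top hfin h0) h0 hcon
      rw [← two_mul] at h2
      exact absurd hsum (not_le.2 h2)
    refine ⟨AffineSubspace.mk' (x + t) (L0 b hi), ⟨⟨x + t, AffineSubspace.self_mem_mk' _ _⟩⟩,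
      ?_, ?_, ?_⟩
    · rw [AffineSubspace.direction_mk', finrank_L0]
    · exact ⟨x + t, AffineSubspace.self_mem_mk' _ _, hxt⟩
    · refine h1.trans (le_of_eq ?_)
      symm
      apply himg
      rw [image_image, hB, image_image, image_image]
      congr 1
      funext z
      rw [reflection_mk', hf1]
      show coord b (r (z - (x + t)) + (x + t)) = coord b (r (z - x) + x) + (2 * ℓ, 0)
      have e1 : r (z - (x + t)) + (x + t) = (r (z - x) + x) + (2:ℝ) • t := by
        rw [← sub_sub, map_sub, hrt]
        module
      have e2 : (2 * ℓ, (0 : Fin m → ℝ)) = (2:ℝ) • coord b t := by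
        rw [hct]; simp
      rw [e1, e2, map_add, map_smul]

end Pool.Agent.Helper481.RH
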