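import Pool.Agent.Helper481.RHHull

set_option autoImplicit false
open MeasureTheory Set
open scoped ENNReal Pointwise

namespace Pool.Agent.Helper481.RH

variable {m : ℕ}

/-- Steiner symmetral in the direction of the first coordinate -/
def St (K : Set (ℝ × (Fin m → ℝ))) : Set (ℝ × (Fin m → ℝ)) :=
  {p | ∃ a b, (a, p.2) ∈ K ∧ (b, p.2) ∈ K ∧ p.1 = (a - b) / 2}

lemma St_compact {K : Set (ℝ × (Fin m → ℝ))} (hK : IsCompact K) : IsCompact (St K) := by
  have h1 : IsCompact ((fun x : (ℝ × (Fin m → ℝ)) × (ℝ × (Fin m → ℝ)) =>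
      ((x.1.1 - x.2.1) / 2, x.1.2)) '' ((K ×ˢ K) ∩ {x | x.1.2 = x.2.2})) := by
    refine IsCompact.image ?_ (by fun_prop)
    exact (hK.prod hK).inter_right (isClosed_eq (by fun_prop) (by fun_prop))
  convert h1 using 1
  ext ⟨s, y⟩
  simp only [St, mem_ofPred_eq, mem_image, mem_inter_iff, mem_prod, Prod.exists, Prod.mk.injEq]
  constructor
  · rintro ⟨a, b, ha, hb, h⟩
    exact ⟨a, y, b, y, ⟨⟨ha, hb⟩, rfl⟩, h.symm, rfl⟩
  · rintro ⟨a, y', b, y'', ⟨⟨ha, hb⟩, rfl⟩, h, rfl⟩
    exact ⟨a, b, ha, hb, h.symm⟩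

lemma St_convex {K : Set (ℝ × (Fin m → ℝ))} (hK : Convex ℝ K) : Convex ℝ (St K) := by
  rintro ⟨x, y⟩ ⟨a, b, ha, hb, h⟩ ⟨x', y'⟩ ⟨a', b', ha', hb', h'⟩ s t hs ht hst
  refine ⟨s * a + t * a', s * b + t * b', ?_, ?_, ?_⟩
  · have := hK ha ha' hs ht hst
    simpa using this
  · have := hK hb hb' hs ht hst
    simpa using this
  · simp only at h h'
    simp only [Prod.smul_mk, Prod.mk_add_mk, smul_eq_mul, h, h']
    ring

lemma St_nonempty {K : Set (ℝ × (Fin m → ℝ))} (hK : K.Nonempty) : (St K).Nonempty := by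
  obtain ⟨⟨a, y⟩, h⟩ := hK
  exact ⟨((a - a) / 2, y), a, a, h, h, rfl⟩

lemma fib_St_empty {K : Set (ℝ × (Fin m → ℝ))} {y : Fin m → ℝ} (h : fib K y = ∅) :
    fib (St K) y = ∅ := by
  rw [eq_empty_iff_forall_notMem]
  rintro s ⟨a, b, ha, hb, -⟩
  have : a ∈ fib K y := ha
  rw [h] at this
  exact this

lemma fib_St_Icc {K : Set (ℝ × (Fin m → ℝ))} {y : Fin m → ℝ} {p q : ℝ}
    (h : fib K y = Icc p q) : fib (St K) y = Icc (-((q - p) / 2)) ((q - p) / 2) := by
  apply Subset.antisymm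
  · rintro s ⟨a, b, ha, hb, hs⟩
    have h1 : a ∈ Icc p q := by rw [← h]; exact ha
    have h2 : b ∈ Icc p q := by rw [← h]; exact hb
    simp only at hs
    rw [hs]
    constructor <;> linarith [h1.1, h1.2, h2.1, h2.2]
  · rintro s ⟨hs1, hs2⟩
    have h1 : (p + q) / 2 + s ∈ fib K y := by rw [h]; constructor <;> linarith
    have h2 : (p + q) / 2 - s ∈ fib K y := by rw [h]; constructor <;> linarith
    refine ⟨(p + q) / 2 + s, (p + q) / 2 - s, h1, h2, ?_⟩
    simp only
    ring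

lemma volume_St {K : Set (ℝ × (Fin m → ℝ))} (hK : IsCompact K) (hKc : Convex ℝ K) :
    volume (St K) = volume K := by
  rw [volume_eq_lintegral_fib hK.measurableSet, volume_eq_lintegral_fib (St_compact hK).measurableSet]
  refine lintegral_congr fun y => ?_
  rcases (fib K y).eq_empty_or_nonempty with he | hne
  · rw [he, fib_St_empty he]
  · obtain ⟨p, q, hpq, hp, hq, hI⟩ := fib_eq_Icc hK hKc hne
    rw [fib_St_Icc hI, hI, Real.volume_Icc, Real.volume_Icc]
    congr 1; ring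

/-- the key monotonicity property of translative hulls under Steiner symmetrisation -/
theorem St_seg {K : Set (ℝ × (Fin m → ℝ))} (hK : IsCompact K) (hKc : Convex ℝ K)
    {x t : ℝ × (Fin m → ℝ)} (hx : x ∈ St K) (hxt : x + t ∈ St K) :
    ∃ x1 ∈ K, ∃ t1, x1 + t1 ∈ K ∧ ∃ x2 ∈ K, ∃ t2, x2 + t2 ∈ K ∧
      2 * volume (seg (St K) t) ≤ volume (seg K t1) + volume (seg K t2) := by
  obtain ⟨a, b, ha, hb, hab⟩ := hx
  obtain ⟨a', b', ha', hb', hab'⟩ := hxt
  set y := x.2 with hy
  set μ := t.1 with hμ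
  set τ := t.2 with hτ
  have hsnd : (x + t).2 = y + τ := rfl
  have hfst : (x + t).1 = x.1 + μ := rfl
  rw [hsnd] at ha' hb'
  rw [hfst, hab] at hab'
  have hμ' : 2 * μ = (a' - a) - (b' - b) := by linarith
  refine ⟨(a, y), ha, (a' - a, τ), ?_, (b, y), hb, (b' - b, τ), ?_, ?_⟩
  · have : ((a, y) : ℝ × (Fin m → ℝ)) + (a' - a, τ) = (a', y + τ) := by
      rw [Prod.mk_add_mk]; congr 1; ring
    rw [this]; exact ha'
  · have : ((b, y) : ℝ × (Fin m → ℝ)) + (b' - b, τ) = (b', y + τ) := by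
      rw [Prod.mk_add_mk]; congr 1; ring
    rw [this]; exact hb'
  have hS := St_compact hK
  have hSc := St_convex hKc
  rw [volume_eq_lintegral_fib (seg_compact hS _).measurableSet,
    volume_eq_lintegral_fib (seg_compact hK _).measurableSet,
    volume_eq_lintegral_fib (seg_compact hK _).measurableSet,
    ← lintegral_const_mul _ (measurable_fib (seg_compact hS _).measurableSet),
    ← lintegral_add_left (measurable_fib (seg_compact hK _).measurableSet)]
  refine lintegral_mono fun z => ?_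
  rcases (fib (seg (St K) t) z).eq_empty_or_nonempty with he | hne
  · simp only [he, measure_empty, mul_zero]; exact zero_le
  obtain ⟨α, β, hαβ, hα, hβ, hI⟩ := fib_eq_Icc (seg_compact hS t) (seg_convex hSc t) hne
  obtain ⟨⟨c1, y1⟩, ⟨p1, q1, hp1, hq1, hc1⟩, s1, hs10, hs11, e1⟩ := hβ
  obtain ⟨⟨c2, y2⟩, ⟨p2, q2, hp2, hq2, hc2⟩, s2, hs20, hs21, e2⟩ := hα
  simp only at hc1 hc2 hp1 hq1 hp2 hq2
  have e1a : c1 + s1 * μ = β := congrArg Prod.fst e1
  have e1b : y1 + s1 • τ = z := congrArg Prod.snd e1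
  have e2a : c2 + s2 * μ = α := congrArg Prod.fst e2
  have e2b : y2 + s2 • τ = z := congrArg Prod.snd e2
  have m1 : (p1 + s1 * (a' - a), z) ∈ seg K (a' - a, τ) :=
    ⟨(p1, y1), hp1, s1, hs10, hs11, by rw [← e1b]; rfl⟩
  have m2 : (p2 + s2 * (a' - a), z) ∈ seg K (a' - a, τ) :=
    ⟨(p2, y2), hp2, s2, hs20, hs21, by rw [← e2b]; rfl⟩
  have m3 : (q1 + s1 * (b' - b), z) ∈ seg K (b' - b, τ) :=
    ⟨(q1, y1), hq1, s1, hs10, hs11, by rw [← e1b]; rfl⟩
  have m4 : (q2 + s2 * (b' - b), z) ∈ seg K (b' - b, τ) :=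
    ⟨(q2, y2), hq2, s2, hs20, hs21, by rw [← e2b]; rfl⟩
  have v1 := le_volume_fib (seg_convex hKc (a' - a, τ)) m2 m1
  have v2 := le_volume_fib (seg_convex hKc (b' - b, τ)) m3 m4
  refine le_trans ?_ (add_le_add v1 v2)
  refine le_trans ?_ ENNReal.ofReal_add_le
  simp only [hI]
  rw [Real.volume_Icc, show (2 : ℝ≥0∞) = ENNReal.ofReal 2 by simp, ← ENNReal.ofReal_mul (by norm_num)]
  refine ENNReal.ofReal_le_ofReal (le_of_eq ?_)
  rw [← e1a, ← e2a, hc1, hc2]
  linear_combination (s1 - s2) * hμ'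

/-! ### the second moment -/

/-- the weight -/
noncomputable def wt (p : ℝ × (Fin m → ℝ)) : ℝ≥0∞ := ENNReal.ofReal (p.1 ^ 2 + ∑ i, p.2 i ^ 2)

lemma measurable_wt : Measurable (wt (m := m)) := by
  unfold wt; fun_prop

lemma lintegral_wt {K : Set (ℝ × (Fin m → ℝ))} (hK : MeasurableSet K) :
    ∫⁻ p in K, wt p = ∫⁻ y, ∫⁻ s in fib K y, wt (s, y) := by
  rw [← lintegral_indicator hK, Measure.volume_eq_prod, lintegral_prod_symm]
  · refine lintegral_congr fun y => ?_
    have hm : MeasurableSet (fib K y) := measurable_prodMk_right hK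
    rw [← lintegral_indicator hm]
    rfl
  · exact (measurable_wt.indicator hK).aemeasurable

lemma lintegral_Icc_wt (y : Fin m → ℝ) {p q : ℝ} (hpq : p ≤ q) :
    ∫⁻ s in Icc p q, wt (s, y)
      = ENNReal.ofReal ((q ^ 3 - p ^ 3) / 3 + (q - p) * ∑ i, y i ^ 2) := by
  unfold wt
  simp only
  rw [← ofReal_integral_eq_lintegral_ofReal]
  · congr 1
    rw [integral_Icc_eq_integral_Ioc, ← intervalIntegral.integral_of_le hpq,
      intervalIntegral.integral_add (Continuous.intervalIntegrable (by fun_prop) _ _)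
        (Continuous.intervalIntegrable (by fun_prop) _ _), integral_pow]
    simp
    norm_num
  · exact (Continuous.integrableOn_Icc (by fun_prop))
  · refine Filter.Eventually.of_forall fun s => ?_
    positivity

/-- fibrewise comparison of the second moments -/
lemma moment_fib {K : Set (ℝ × (Fin m → ℝ))} (hK : IsCompact K) (hKc : Convex ℝ K)
    (y : Fin m → ℝ) :
    ∫⁻ s in fib (St K) y, wt (s, y) ≤ ∫⁻ s in fib K y, wt (s, y) ∧
    (∫⁻ s in fib (St K) y, wt (s, y) = ∫⁻ s in fib K y, wt (s, y) →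
      volume (fib K y \ {s | -s ∈ fib K y}) = 0) := by
  rcases (fib K y).eq_empty_or_nonempty with he | hne
  · rw [he, fib_St_empty he]; simp
  · obtain ⟨p, q, hpq, hp, hq, hI⟩ := fib_eq_Icc hK hKc hne
    rw [fib_St_Icc hI, hI, lintegral_Icc_wt y hpq,
      lintegral_Icc_wt y (by linarith : -((q - p) / 2) ≤ (q - p) / 2)]
    have hid : (q ^ 3 - p ^ 3) / 3 + (q - p) * ∑ i, y i ^ 2
        = ((((q - p) / 2) ^ 3 - (-((q - p) / 2)) ^ 3) / 3
          + ((q - p) / 2 - -((q - p) / 2)) * ∑ i, y i ^ 2) + (q - p) * ((p + q) / 2) ^ 2 := by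
      ring
    have hnn : 0 ≤ (q - p) * ((p + q) / 2) ^ 2 := mul_nonneg (by linarith) (sq_nonneg _)
    refine ⟨ENNReal.ofReal_le_ofReal (by linarith), fun h => ?_⟩
    have hnn2 : 0 ≤ (((q - p) / 2) ^ 3 - (-((q - p) / 2)) ^ 3) / 3
          + ((q - p) / 2 - -((q - p) / 2)) * ∑ i, y i ^ 2 := by
      have h1 : 0 ≤ (q - p) / 2 := by linarith
      have h2 : (((q - p) / 2) ^ 3 - (-((q - p) / 2)) ^ 3) / 3 = 2 * ((q - p) / 2) ^ 3 / 3 := by ring
      rw [h2]
      have h3 : 0 ≤ ∑ i, y i ^ 2 := Finset.sum_nonneg fun i _ => sq_nonneg _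
      have h4 : 0 ≤ (q - p) / 2 - -((q - p) / 2) := by linarith
      positivity
    rw [ENNReal.ofReal_eq_ofReal_iff hnn2 (by linarith)] at h
    have h0 : (q - p) * ((p + q) / 2) ^ 2 = 0 := by linarith
    rcases mul_eq_zero.1 h0 with h1 | h1
    · have : q = p := by linarith
      subst this
      refine measure_mono_null sdiff_subset ?_
      simp
    · have h2 : p = -q := by
        have := pow_eq_zero_iff (two_ne_zero) |>.1 h1
        linarith
      subst h2
      have : Icc (-q) q \ {s | -s ∈ Icc (-q) q} = ∅ := by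
        rw [eq_empty_iff_forall_notMem]
        rintro s ⟨⟨h3, h4⟩, h5⟩
        exact h5 ⟨by linarith, by linarith⟩
      rw [this]; simp

theorem moment_le {K : Set (ℝ × (Fin m → ℝ))} (hK : IsCompact K) (hKc : Convex ℝ K) :
    ∫⁻ p in St K, wt p ≤ ∫⁻ p in K, wt p := by
  rw [lintegral_wt hK.measurableSet, lintegral_wt (St_compact hK).measurableSet]
  exact lintegral_mono fun y => (moment_fib hK hKc y).1

theorem moment_eq {K : Set (ℝ × (Fin m → ℝ))} (hK : IsCompact K) (hKc : Convex ℝ K)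
    (hint : (interior K).Nonempty)
    (hfin : ∫⁻ p in K, wt p ≠ ∞)
    (h : ∫⁻ p in K, wt p ≤ ∫⁻ p in St K, wt p) :
    ∀ p ∈ K, (-p.1, p.2) ∈ K := by
  have heq : ∫⁻ p in St K, wt p = ∫⁻ p in K, wt p := le_antisymm (moment_le hK hKc) h
  have hmeas : ∀ A : Set (ℝ × (Fin m → ℝ)), MeasurableSet A →
      Measurable (fun y => ∫⁻ s in fib A y, wt (s, y)) := by
    intro A hA
    have h1 : Measurable (fun y : Fin m → ℝ => ∫⁻ s : ℝ, A.indicator wt (s, y)) :=
      (measurable_wt.indicator hA).lintegral_prod_left'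
    convert h1 using 1
    ext y
    have hm : MeasurableSet (fib A y) := measurable_prodMk_right hA
    rw [← lintegral_indicator hm]
    rfl
  have hae : (fun y => ∫⁻ s in fib (St K) y, wt (s, y)) =ᵐ[volume]
      (fun y => ∫⁻ s in fib K y, wt (s, y)) := by
    refine ae_eq_of_ae_le_of_lintegral_le
      (Filter.Eventually.of_forall fun y => (moment_fib hK hKc y).1) ?_
      (hmeas _ hK.measurableSet).aemeasurable ?_
    · rw [← lintegral_wt (St_compact hK).measurableSet, heq]; exact hfin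
    · rw [← lintegral_wt (St_compact hK).measurableSet, ← lintegral_wt hK.measurableSet]
      exact h
  set R : Set (ℝ × (Fin m → ℝ)) := {p | (-p.1, p.2) ∈ K} with hR
  have hRcl : IsClosed R := hK.isClosed.preimage (by fun_prop)
  have hnull : volume (K \ R) = 0 := by
    rw [volume_eq_lintegral_fib (hK.measurableSet.diff hRcl.measurableSet), lintegral_eq_zero_iff
      (measurable_fib (hK.measurableSet.diff hRcl.measurableSet))]
    filter_upwards [hae] with y hy
    exact (moment_fib hK hKc y).2 hy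
  have hsub : interior K ⊆ R := by
    have h1 : IsOpen (interior K \ R) := isOpen_interior.sdiff hRcl
    have h2 : volume (interior K \ R) = 0 :=
      measure_mono_null (sdiff_subset_sdiff interior_subset Subset.rfl) hnull
    have h3 := h1.measure_eq_zero_iff (μ := volume) |>.1 h2
    intro x hx
    by_contra hcon
    have : x ∈ interior K \ R := ⟨hx, hcon⟩
    rw [h3] at this
    exact this
  have h4 : closure (interior K) = K := by
    rw [hKc.closure_interior_eq_closure_of_nonempty_interior hint, hK.isClosed.closure_eq]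
  intro p hp
  have h5 : K ⊆ R := by
    rw [← h4]
    exact closure_minimal hsub hRcl
  exact h5 hp

end Pool.Agent.Helper481.RH
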