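import Pool.Agent.Helper481.RHBall

set_option autoImplicit false
open MeasureTheory Set Module Filter Topology Metric TopologicalSpace
open scoped ENNReal RealInnerProductSpace

namespace Pool.Agent.Helper481.RH

variable {m : ℕ}

lemma norm_first {b : OrthonormalBasis (Fin (m + 1)) ℝ (EuclideanSpace ℝ (Fin (m + 1)))} :
    ‖b 0‖ = 1 := b.orthonormal.1 0

/-- a compact convex set symmetric with respect to all hyperplanes through `0` is a ball -/
lemma eq_ball {L : Set (EuclideanSpace ℝ (Fin (m + 1)))} (hL : IsCompact L) (hLc : Convex ℝ L)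
    (hLne : L.Nonempty)
    (hsym : ∀ v : EuclideanSpace ℝ (Fin (m + 1)), ‖v‖ = 1 → ∀ x ∈ L, x - (2 * ⟪v, x⟫) • v ∈ L) :
    ∃ ρ, 0 ≤ ρ ∧ L = closedBall 0 ρ := by
  obtain ⟨w, hw, hwm⟩ := hL.exists_isMaxOn hLne (f := fun x => ‖x‖) (by fun_prop)
  refine ⟨‖w‖, norm_nonneg _, ?_⟩
  have hsph : ∀ z : EuclideanSpace ℝ (Fin (m + 1)), ‖z‖ = ‖w‖ → z ∈ L := by
    intro z hz
    by_cases hzw : w = z
    · rw [← hzw]; exact hw
    have hne : w - z ≠ 0 := sub_ne_zero.2 hzw
    have hpos : 0 < ‖w - z‖ := norm_pos_iff.2 hne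
    have h1 := hsym ((‖w - z‖)⁻¹ • (w - z)) (by
      rw [norm_smul, norm_inv, norm_norm, inv_mul_cancel₀ hpos.ne']) w hw
    have h2 : (2 * ⟪(‖w - z‖)⁻¹ • (w - z), w⟫) • ((‖w - z‖)⁻¹ • (w - z)) = w - z := by
      rw [smul_smul, real_inner_smul_left]
      have h3 : 2 * ⟪w - z, w⟫ = ‖w - z‖ ^ 2 := by
        rw [@norm_sub_sq_real, inner_sub_left, real_inner_self_eq_norm_sq, hz,
          real_inner_comm w z]
        ring
      have h4 : 2 * ((‖w - z‖)⁻¹ * ⟪w - z, w⟫) * (‖w - z‖)⁻¹ = 1 := by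
        calc 2 * ((‖w - z‖)⁻¹ * ⟪w - z, w⟫) * (‖w - z‖)⁻¹
            = (2 * ⟪w - z, w⟫) * ((‖w - z‖)⁻¹ ^ 2) := by ring
          _ = 1 := by
            rw [h3]
            field_simp
      rw [h4, one_smul]
    rw [h2, sub_sub_cancel] at h1
    exact h1
  apply Subset.antisymm
  · intro x hx
    rw [mem_closedBall_zero_iff]
    exact hwm hx
  · intro z hz
    rw [mem_closedBall_zero_iff] at hz
    -- a unit vector in the direction of z
    obtain ⟨e, he, hez⟩ : ∃ e : EuclideanSpace ℝ (Fin (m + 1)), ‖e‖ = 1 ∧ z = ‖z‖ • e := by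
      by_cases h0 : z = 0
      · exact ⟨(EuclideanSpace.basisFun (Fin (m + 1)) ℝ) 0, norm_first, by rw [h0]; simp⟩
      · have hpos : 0 < ‖z‖ := norm_pos_iff.2 h0
        refine ⟨(‖z‖)⁻¹ • z, ?_, ?_⟩
        · rw [norm_smul, norm_inv, norm_norm, inv_mul_cancel₀ hpos.ne']
        · rw [smul_smul, mul_inv_cancel₀ hpos.ne', one_smul]
    have h1 : ‖w‖ • e ∈ L := hsph _ (by rw [norm_smul, norm_norm, he, mul_one])
    have h2 : -(‖w‖ • e) ∈ L := hsph _ (by rw [norm_neg, norm_smul, norm_norm, he, mul_one])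
    rcases (norm_nonneg w).eq_or_lt with h0 | h0
    · have : z = ‖w‖ • e := by
        have h3 : ‖z‖ = ‖w‖ := le_antisymm hz (by rw [← h0]; exact norm_nonneg _)
        rw [← h3]; exact hez
      rw [this]; exact h1
    · have h3 : z = ((1 + ‖z‖ / ‖w‖) / 2) • (‖w‖ • e) + ((1 - ‖z‖ / ‖w‖) / 2) • (-(‖w‖ • e)) := by
        conv_lhs => rw [hez]
        rw [smul_neg, ← sub_eq_add_neg, ← sub_smul, smul_smul]
        congr 1
        field_simp
        ring
      have h4 : ‖z‖ / ‖w‖ ≤ 1 := (div_le_one h0).2 hz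
      have h5 : 0 ≤ ‖z‖ / ‖w‖ := by positivity
      rw [h3]
      exact hLc h1 h2 (by linarith) (by linarith) (by ring)

lemma volume_proj_ball (b : OrthonormalBasis (Fin (m + 1)) ℝ (EuclideanSpace ℝ (Fin (m + 1))))
    {ρ : ℝ} (hρ : 0 ≤ ρ) :
    volume (proj (coord b '' (closedBall 0 ρ))) = ENNReal.ofReal (ρ ^ m) * kap m := by
  rw [← volume_closedBall_eq m hρ]
  have h1 : (WithLp.ofLp : EuclideanSpace ℝ (Fin m) → Fin m → ℝ) ⁻¹' (proj (coord b '' (closedBall 0 ρ)))
      = closedBall (0 : EuclideanSpace ℝ (Fin m)) ρ := by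
    ext y
    simp only [proj, mem_preimage, mem_image, mem_closedBall_zero_iff]
    constructor
    · rintro ⟨_, ⟨x, hx, rfl⟩, hxy⟩
      have h2 := norm_sq_coord b x
      rw [hxy] at h2
      rw [← sq_le_sq₀ (norm_nonneg _) hρ, EuclideanSpace.real_norm_sq_eq]
      have h3 : ‖x‖ ^ 2 ≤ ρ ^ 2 := by gcongr
      nlinarith [sq_nonneg (coord b x).1]
    · intro hy
      refine ⟨((0:ℝ), WithLp.ofLp y), ⟨(coord b).symm (0, WithLp.ofLp y), ?_, by simp⟩, rfl⟩
      have h2 := norm_sq_coord b ((coord b).symm (0, WithLp.ofLp y))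
      rw [(coord b).apply_symm_apply] at h2
      rw [← sq_le_sq₀ (norm_nonneg _) hρ, h2]
      rw [← sq_le_sq₀ (norm_nonneg _) hρ, EuclideanSpace.real_norm_sq_eq] at hy
      simpa using hy
  rw [← h1]
  have h2 : MeasurableSet (proj (coord b '' (closedBall 0 ρ))) :=
    (proj_compact ((isCompact_closedBall _ _).image (coord b).continuous)).measurableSet
  exact ((PiLp.volume_preserving_ofLp (Fin m)).measure_preimage h2.nullMeasurableSet).symm

/-- the inequality for translative hulls -/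
theorem trans_ineq {K : Set (EuclideanSpace ℝ (Fin (m + 1)))} (hK : IsCompact K)
    (hKc : Convex ℝ K) (hv : volume K ≠ 0) :
    ∃ x ∈ K, ∃ t, x + t ∈ K ∧
      (kap (m + 1) + 2 * kap m) * volume K ≤ kap (m + 1) * volume (seg K t) := by
  have hne : K.Nonempty := by
    by_contra h
    rw [not_nonempty_iff_eq_empty] at h
    exact hv (by rw [h]; simp)
  obtain ⟨x, hx, t, hxt, hA⟩ := exists_max_seg hK hne
  refine ⟨x, hx, t, hxt, ?_⟩
  set A := volume (seg K t) with hAdef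
  obtain ⟨R, hR⟩ := hK.isBounded.subset_closedBall 0
  have hcls : (Cls (EuclideanSpace ℝ (Fin (m + 1))) R (volume K) A).Nonempty :=
    ⟨⟨⟨K, hK⟩, hne⟩, hR, hKc, le_rfl, hA⟩
  obtain ⟨L, hL, hmin⟩ := exists_min hcls
  have hsym := fun v hv' => min_symm hv hL hmin (v := v) hv'
  obtain ⟨hLR, hLc, hLV, hLA⟩ := hL
  obtain ⟨ρ, hρ, hball⟩ := eq_ball L.isCompact hLc L.nonempty hsym
  rw [hball] at hLV hLA
  set b := EuclideanSpace.basisFun (Fin (m + 1)) ℝ with hb
  have h1 := hLA (-(ρ • b 0)) (by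
    rw [mem_closedBall_zero_iff, norm_neg, norm_smul, norm_first, Real.norm_eq_abs,
      abs_of_nonneg hρ, mul_one]) ((2 * ρ) • b 0) (by
    have : -(ρ • b 0) + (2 * ρ) • b 0 = ρ • b 0 := by module
    rw [this, mem_closedBall_zero_iff, norm_smul, norm_first, Real.norm_eq_abs,
      abs_of_nonneg hρ, mul_one])
  have h2 : coord b ((2 * ρ) • b 0) = (2 * ρ, 0) := by
    rw [map_smul, coord_basis]; simp
  have hcc : Convex ℝ (coord b '' closedBall 0 ρ) :=
    (convex_closedBall _ _).linear_image (coord b).toLinearEquiv.toLinearMap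
  rw [← volume_coord_image b, coord_image_seg, h2, volume_seg
    ((isCompact_closedBall _ _).image (coord b).continuous) hcc (by positivity),
    volume_coord_image, volume_proj_ball b hρ, volume_closedBall_eq _ hρ] at h1
  rw [volume_closedBall_eq _ hρ] at hLV
  have h3 : ENNReal.ofReal (ρ ^ (m + 1)) * (kap (m + 1) + 2 * kap m) ≤ A := by
    refine le_trans (le_of_eq ?_) h1
    rw [mul_add, ← mul_assoc (ENNReal.ofReal (2 * ρ)), ← ENNReal.ofReal_mul (by positivity)]
    congr 1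
    rw [show 2 * ρ * ρ ^ m = 2 * ρ ^ (m + 1) by ring, ENNReal.ofReal_mul (by norm_num)]
    simp only [ENNReal.ofReal_ofNat]
    ring
  calc (kap (m + 1) + 2 * kap m) * volume K
      ≤ (kap (m + 1) + 2 * kap m) * (ENNReal.ofReal (ρ ^ (m + 1)) * kap (m + 1)) := by gcongr
    _ = kap (m + 1) * (ENNReal.ofReal (ρ ^ (m + 1)) * (kap (m + 1) + 2 * kap m)) := by ring
    _ ≤ kap (m + 1) * A := by gcongr

end Pool.Agent.Helper481.RH
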